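import Pool.Agent.Helper3.RT.Danger
import Pool.Agent.Helper28.RS.Defs

/-! Rainbow saturation: vertices with few colours and universal vertices (MP_e4665f_co). -/

set_option autoImplicit false

namespace Pool.Agent.Helper29.ML

open SimpleGraph Pool.Agent.Helper28.RS Pool.Agent.Helper3.RT

variable {k : ℕ} {H : SimpleGraph (Fin k)}

section edge

variable {V : Type*} [DecidableEq V] {G : SimpleGraph V} {χ : Sym2 V → ℕ} {x y : V} {c : ℕ}
  {f : Fin k → V}

/-- a rainbow copy made by the new edge uses the new edge -/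
theorem uses_edge (hG : ¬ Rb H G χ) (hxy : x ≠ y)
    (hf : IsRb H (G ⊔ SimpleGraph.fromEdgeSet {s(x, y)}) (Function.update χ s(x, y) c) f) :
    ∃ u t, H.Adj u t ∧ f u = x ∧ f t = y := by
  by_contra hcon
  push Not at hcon
  have h0 : ∀ e ∈ H.edgeSet, e.map f ≠ s(x, y) := by
    intro e he
    induction e using Sym2.ind with
    | h u v =>
      intro h
      rw [Sym2.map_mk, Sym2.eq_iff] at h
      rcases h with ⟨h1, h2⟩ | ⟨h1, h2⟩
      · exact hcon u v he h1 h2
      · exact hcon v u he.symm h2 h1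
  refine hG ⟨f, hf.1, fun u v huv => ?_, fun e₁ h₁ e₂ h₂ h => hf.2.2 e₁ h₁ e₂ h₂ ?_⟩
  · have h1 := hf.2.1 u v huv
    rw [adj_sup_edge hxy] at h1
    rcases h1 with h1 | h1
    · exact h1
    · exact absurd h1 (h0 s(u, v) huv)
  · rw [Function.update_of_ne (h0 _ h₁), Function.update_of_ne (h0 _ h₂)]
    exact h

omit [DecidableEq V] in
theorem map_eq_iff (hf : Function.Injective f) {e : Sym2 (Fin k)} {u t : Fin k}
    (hu : f u = x) (ht : f t = y) : e.map f = s(x, y) ↔ e = s(u, t) := by
  constructor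
  · intro h
    apply Sym2.map.injective hf
    rw [h, Sym2.map_mk, hu, ht]
  · rintro rfl
    rw [Sym2.map_mk, hu, ht]

/-- the other edges of the copy -/
theorem other_edge (hxy : x ≠ y)
    (hf : IsRb H (G ⊔ SimpleGraph.fromEdgeSet {s(x, y)}) (Function.update χ s(x, y) c) f)
    {u t : Fin k} (hut : H.Adj u t) (hu : f u = x) (ht : f t = y) {e : Sym2 (Fin k)}
    (he : e ∈ H.edgeSet) (hne : e ≠ s(u, t)) :
    e.map f ∈ G.edgeSet ∧ Function.update χ s(x, y) c (e.map f) = χ (e.map f) ∧
      χ (e.map f) ≠ c := by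
  have h1 : e.map f ≠ s(x, y) := fun h => hne ((map_eq_iff hf.1 hu ht).1 h)
  have h2 : Function.update χ s(x, y) c (e.map f) = χ (e.map f) := Function.update_of_ne h1 _ _
  refine ⟨?_, h2, ?_⟩
  · have h3 := mem_edgeSet_map hf.2.1 he
    rw [mem_edgeSet_sup_edge hxy] at h3
    exact h3.resolve_right h1
  · intro h
    apply hne
    refine hf.2.2 e he s(u, t) hut ?_
    rw [h2, Sym2.map_mk, hu, ht, Function.update_self]
    exact h

end edge

/-- `y` is universal: there is a rainbow copy of `H` without a leaf whose neighbour is `y` -/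
def Uni (H : SimpleGraph (Fin k)) {V : Type*} (G : SimpleGraph V) (χ : Sym2 V → ℕ) (y : V) : Prop :=
  ∃ (l q : Fin k) (f : Fin k → V), H.Adj q l ∧ (∀ x, H.Adj l x → x = q) ∧ f q = y ∧
    (∀ u v, u ≠ l → v ≠ l → f u = f v → u = v) ∧
    (∀ u v, u ≠ l → v ≠ l → H.Adj u v → G.Adj (f u) (f v)) ∧
    ∀ e₁ ∈ H.edgeSet, ∀ e₂ ∈ H.edgeSet, e₁ ≠ s(q, l) → e₂ ≠ s(q, l) →
      χ (e₁.map f) = χ (e₂.map f) → e₁ = e₂

/-- the number of colours at a vertex -/
noncomputable def cd {V : Type*} (G : SimpleGraph V) (χ : Sym2 V → ℕ) (x : V) : ℕ :=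
  ((fun y => χ s(x, y)) '' G.neighborSet x).ncard

section poor

variable {V : Type*} [Finite V] [DecidableEq V] {G : SimpleGraph V} {χ : Sym2 V → ℕ} {x y : V}
  {c a : ℕ} {f : Fin k → V}

/-- the degree of the role of an end of the new edge -/
theorem deg_role (hxy : x ≠ y)
    (hf : IsRb H (G ⊔ SimpleGraph.fromEdgeSet {s(x, y)}) (Function.update χ s(x, y) c) f)
    {u t : Fin k} (hut : H.Adj u t) (hu : f u = x) (ht : f t = y) :
    (nb H u).card ≤ (((fun y => χ s(x, y)) '' G.neighborSet x) \ {c}).ncard + 1 := by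
  classical
  have h1 : (nb H u).card = ((nb H u).erase t).card + 1 :=
    (Finset.card_erase_add_one (mem_nb.2 hut)).symm
  rw [h1]
  refine Nat.add_le_add_right ?_ 1
  have h2 : ((nb H u).erase t).card =
      (((fun s => χ s(x, f s)) '' ((nb H u).erase t : Finset (Fin k)) : Set ℕ)).ncard := by
    rw [Set.ncard_image_of_injOn, Set.ncard_coe_finset]
    intro s hs s' hs' h
    rw [Finset.mem_coe, Finset.mem_erase, mem_nb] at hs hs'
    have e1 : s(u, s) ≠ s(u, t) := fun h => hs.1 (Sym2.congr_right.1 h)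
    have e2 : s(u, s') ≠ s(u, t) := fun h => hs'.1 (Sym2.congr_right.1 h)
    have h3 := other_edge hxy hf hut hu ht (e := s(u, s)) hs.2 e1
    have h4 := other_edge hxy hf hut hu ht (e := s(u, s')) hs'.2 e2
    have h5 := hf.2.2 s(u, s) hs.2 s(u, s') hs'.2 (by
      rw [h3.2.1, h4.2.1, Sym2.map_mk, Sym2.map_mk, hu]
      exact h)
    exact Sym2.congr_right.1 h5
  rw [h2]
  refine Set.ncard_le_ncard ?_ (Set.toFinite _)
  rintro d ⟨s, hs, rfl⟩
  rw [Finset.mem_coe, Finset.mem_erase, mem_nb] at hs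
  have e1 : s(u, s) ≠ s(u, t) := fun h => hs.1 (Sym2.congr_right.1 h)
  have h3 := other_edge hxy hf hut hu ht (e := s(u, s)) hs.2 e1
  rw [Sym2.map_mk, hu] at h3
  exact ⟨⟨f s, h3.1, rfl⟩, h3.2.2⟩

/-- a nonneighbour of a vertex with few colours is universal -/
theorem uni_of_poor (hS : Sat H G χ) (ha : 1 ≤ a)
    (hdeg : ∀ x, (nb H x).card = 1 ∨ a + 1 ≤ (nb H x).card) (hxy : x ≠ y) (hadj : ¬ G.Adj x y)
    (hx : cd G χ x ≤ a) : Uni H G χ y := by
  classical
  obtain ⟨c, hc⟩ : ∃ c, (((fun y => χ s(x, y)) '' G.neighborSet x) \ {c}).ncard + 1 ≤ a := by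
    unfold cd at hx
    by_cases hne : ((fun y => χ s(x, y)) '' G.neighborSet x).Nonempty
    · obtain ⟨c, hc⟩ := hne
      refine ⟨c, ?_⟩
      rw [Set.ncard_sdiff_singleton_add_one hc (Set.toFinite _)]
      exact hx
    · rw [Set.not_nonempty_iff_eq_empty] at hne
      refine ⟨0, ?_⟩
      rw [hne, Set.empty_sdiff, Set.ncard_empty]
      exact ha
  obtain ⟨f, hf⟩ := hS.2 x y hxy hadj c
  have hf' : IsRb H _ _ f := hf
  obtain ⟨u, t, hut, hu, ht⟩ := uses_edge hS.1 hxy hf'
  have h1 := deg_role hxy hf' hut hu ht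
  have h2 : (nb H u).card = 1 := by
    rcases hdeg u with h | h
    · exact h
    · omega
  have h3 : ∀ s, H.Adj u s → s = t := fun s hs => Fold.leaf_unique (by omega) hs hut
  refine ⟨u, t, f, hut.symm, h3, ht, fun s s' _ _ h => hf'.1 h, ?_, ?_⟩
  · intro s s' hs hs' h
    have e1 : s(s, s') ≠ s(u, t) := by
      intro h4
      have h5 : u ∈ s(s, s') := by rw [h4]; simp
      rw [Sym2.mem_iff] at h5
      rcases h5 with h5 | h5
      · exact hs h5.symm
      · exact hs' h5.symm
    exact (other_edge hxy hf' hut hu ht (e := s(s, s')) h e1).1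
  · intro e₁ h₁ e₂ h₂ n₁ n₂ h
    rw [Sym2.eq_swap] at n₁ n₂
    apply hf'.2.2 e₁ h₁ e₂ h₂
    rw [(other_edge hxy hf' hut hu ht h₁ n₁).2.1, (other_edge hxy hf' hut hu ht h₂ n₂).2.1, h]

/-- two adjacent leaves -/
theorem leaf_leaf (hk : 3 ≤ k) (hH : H.Connected) {u t : Fin k} (hut : H.Adj u t)
    (hu : (nb H u).card = 1) (ht : (nb H t).card = 1) : False := by
  classical
  have h1 : ∀ x, x = u ∨ x = t := by
    intro x
    have hr := hH.preconnected u x
    rw [SimpleGraph.reachable_iff_reflTransGen] at hr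
    induction hr with
    | refl => exact Or.inl rfl
    | @tail x z _ hxz ih =>
      rcases ih with rfl | rfl
      · exact Or.inr (Fold.leaf_unique (by omega) hxz hut)
      · exact Or.inl (Fold.leaf_unique (by omega) hxz hut.symm)
  have h2 : (Finset.univ : Finset (Fin k)) ⊆ {u, t} := by
    intro x _
    rw [Finset.mem_insert, Finset.mem_singleton]
    exact h1 x
  have h3 := Finset.card_le_card h2
  rw [Finset.card_univ, Fintype.card_fin] at h3
  have h4 := Finset.card_le_two (a := u) (b := t)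
  omega

/-- vertices with very few colours are adjacent -/
theorem poor_adj (hk : 3 ≤ k) (hH : H.Connected) (hS : Sat H G χ)
    (hdeg : ∀ x, (nb H x).card = 1 ∨ a + 1 ≤ (nb H x).card) (hxy : x ≠ y)
    (hx : cd G χ x < a) (hy : cd G χ y < a) : G.Adj x y := by
  classical
  by_contra hadj
  obtain ⟨f, hf⟩ := hS.2 x y hxy hadj 0
  have hf' : IsRb H _ _ f := hf
  obtain ⟨u, t, hut, hu, ht⟩ := uses_edge hS.1 hxy hf'
  have hf2 : IsRb H (G ⊔ SimpleGraph.fromEdgeSet {s(y, x)}) (Function.update χ s(y, x) 0) f := by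
    rw [Sym2.eq_swap]
    exact hf'
  have h1 := deg_role hxy hf' hut hu ht
  have h2 := deg_role (Ne.symm hxy) hf2 hut.symm ht hu
  have h3 : (((fun y => χ s(x, y)) '' G.neighborSet x) \ {0}).ncard ≤ cd G χ x :=
    Set.ncard_le_ncard Set.sdiff_subset (Set.toFinite _)
  have h4 : (((fun x => χ s(y, x)) '' G.neighborSet y) \ {0}).ncard ≤ cd G χ y :=
    Set.ncard_le_ncard Set.sdiff_subset (Set.toFinite _)
  have h5 : (nb H u).card = 1 := by
    rcases hdeg u with h | h
    · exact h
    · omega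
  have h6 : (nb H t).card = 1 := by
    rcases hdeg t with h | h
    · exact h
    · omega
  exact leaf_leaf hk hH hut h5 h6

end poor

/-- many edges if some vertex is not universal -/
theorem count {V : Type*} [Fintype V] [DecidableEq V] {G : SimpleGraph V} {χ : Sym2 V → ℕ} {a : ℕ}
    (ha : 1 ≤ a) (hk : 3 ≤ k) (hH : H.Connected)
    (hdeg : ∀ x, (nb H x).card = 1 ∨ a + 1 ≤ (nb H x).card) (hS : Sat H G χ) {z : V}
    (hz : ¬ Uni H G χ z) :
    ∃ p : ℕ, p * (p - 1) ≤ 2 * G.edgeSet.ncard ∧
      (a + 1) * Fintype.card V ≤ 2 * G.edgeSet.ncard + (a + 1) * (p + 1) := by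
  classical
  have hsum : ∑ x : V, G.degree x = 2 * G.edgeSet.ncard := by
    rw [G.sum_degrees_eq_twice_card_edges, ← SimpleGraph.coe_edgeFinset, Set.ncard_coe_finset]
  have hcd : ∀ x, cd G χ x ≤ G.degree x := by
    intro x
    unfold cd
    refine (Set.ncard_image_le (Set.toFinite _)).trans ?_
    rw [Set.ncard_eq_toFinset_card', ← SimpleGraph.card_neighborFinset_eq_degree]
    exact le_rfl
  set P : Finset V := Finset.univ.filter (fun x => cd G χ x < a) with hP
  refine ⟨P.card, ?_, ?_⟩
  · have h1 : ∀ x ∈ P, P.card - 1 ≤ G.degree x := by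
      intro x hx
      rw [← Finset.card_erase_of_mem hx, ← SimpleGraph.card_neighborFinset_eq_degree]
      refine Finset.card_le_card ?_
      intro y hy
      rw [Finset.mem_erase] at hy
      rw [SimpleGraph.mem_neighborFinset]
      rw [hP, Finset.mem_filter] at hx hy
      exact poor_adj hk hH hS hdeg (Ne.symm hy.1) hx.2 hy.2.2
    calc P.card * (P.card - 1) = ∑ _x ∈ P, (P.card - 1) := by
          rw [Finset.sum_const, smul_eq_mul]
      _ ≤ ∑ x ∈ P, G.degree x := Finset.sum_le_sum h1
      _ ≤ ∑ x : V, G.degree x := Finset.sum_le_sum_of_subset (Finset.subset_univ _)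
      _ = 2 * G.edgeSet.ncard := hsum
  · set R : Finset V := (Finset.univ.erase z) \ P with hR
    have h1 : ∀ x ∈ R, a + 1 ≤ G.degree x + (if G.Adj z x then 1 else 0) := by
      intro x hx
      rw [hR, Finset.mem_sdiff, Finset.mem_erase, hP, Finset.mem_filter] at hx
      have h2 : a ≤ cd G χ x := by
        by_contra h
        exact hx.2 ⟨Finset.mem_univ _, by omega⟩
      have h3 := hcd x
      by_cases h4 : G.Adj z x
      · rw [if_pos h4]
        omega
      · rw [if_neg h4]
        have h5 : ¬ cd G χ x ≤ a := fun h5 =>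
          hz (uni_of_poor hS ha hdeg hx.1.1 (fun h => h4 h.symm) h5)
        omega
    have h2 : ∑ x ∈ R, (G.degree x + (if G.Adj z x then 1 else 0)) ≤ ∑ x : V, G.degree x := by
      rw [Finset.sum_add_distrib]
      have h3 : ∑ x ∈ R, G.degree x ≤ ∑ x ∈ Finset.univ.erase z, G.degree x :=
        Finset.sum_le_sum_of_subset Finset.sdiff_subset
      have h4 : ∑ x ∈ R, (if G.Adj z x then 1 else 0) ≤ G.degree z := by
        rw [← Finset.card_filter, ← SimpleGraph.card_neighborFinset_eq_degree]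
        refine Finset.card_le_card ?_
        intro x hx
        rw [Finset.mem_filter] at hx
        rw [SimpleGraph.mem_neighborFinset]
        exact hx.2
      have h5 := Finset.sum_erase_add (Finset.univ : Finset V) (fun x => G.degree x)
        (Finset.mem_univ z)
      omega
    have h3 : (a + 1) * R.card ≤ ∑ x ∈ R, (G.degree x + (if G.Adj z x then 1 else 0)) := by
      rw [mul_comm, ← smul_eq_mul, ← Finset.sum_const]
      exact Finset.sum_le_sum h1
    have h4 : Fintype.card V ≤ R.card + (P.card + 1) := by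
      have h5 : (Finset.univ : Finset V) ⊆ insert z (R ∪ P) := by
        intro x _
        by_cases hxz : x = z
        · rw [hxz]
          exact Finset.mem_insert_self _ _
        · by_cases hxP : x ∈ P
          · exact Finset.mem_insert_of_mem (Finset.mem_union_right _ hxP)
          · refine Finset.mem_insert_of_mem (Finset.mem_union_left _ ?_)
            rw [hR, Finset.mem_sdiff, Finset.mem_erase]
            exact ⟨⟨hxz, Finset.mem_univ _⟩, hxP⟩
      have h6 := Finset.card_le_card h5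
      rw [Finset.card_univ] at h6
      have h7 := Finset.card_insert_le z (R ∪ P)
      have h8 := Finset.card_union_le R P
      omega
    calc (a + 1) * Fintype.card V ≤ (a + 1) * (R.card + (P.card + 1)) :=
          Nat.mul_le_mul_left _ h4
      _ = (a + 1) * R.card + (a + 1) * (P.card + 1) := by ring
      _ ≤ 2 * G.edgeSet.ncard + (a + 1) * (P.card + 1) := by
          refine Nat.add_le_add_right ?_ _
          rw [← hsum]
          exact h3.trans h2

end Pool.Agent.Helper29.ML
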