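import Pool.Agent.Helper29.ML.Blob
import Pool.Agent.Helper29.ML.Uni

/-! Rainbow saturation: disjoint unions of graphs with universal vertices (MP_e4665f_co). -/

set_option autoImplicit false

namespace Pool.Agent.Helper29.ML

open SimpleGraph Pool.Agent.Helper28.RS Pool.Agent.Helper3.RT

variable {k : ℕ} {H : SimpleGraph (Fin k)}

/-- an injective colouring of a small set -/
theorem exists_inj {α : Type*} [Finite α] (S : Set α) {N : ℕ} (hN : 0 < N) (h : S.ncard ≤ N) :
    ∃ g : α → Fin N, Set.InjOn g S := by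
  have : Nonempty (Fin N) := ⟨⟨0, hN⟩⟩
  obtain ⟨g, _, hg⟩ := Set.Finite.exists_injOn_of_encard_le (s := S) (t := (Set.univ : Set (Fin N)))
    (Set.toFinite _) (by
      rw [← Set.Finite.cast_ncard_eq (Set.toFinite S),
        ← Set.Finite.cast_ncard_eq (Set.toFinite (Set.univ : Set (Fin N))), Set.ncard_univ,
        Nat.card_eq_fintype_card, Fintype.card_fin]
      exact_mod_cast h)
  exact ⟨g, hg⟩

/-- universality is kept by maps -/
theorem Uni.map {V W : Type*} {G : SimpleGraph V} {χ : Sym2 V → ℕ} {y : V} (h : Uni H G χ y)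
    {G' : SimpleGraph W} {χ' : Sym2 W → ℕ} (σ : V → W) (hσ : Function.Injective σ)
    (hadj : ∀ u v, G.Adj u v → G'.Adj (σ u) (σ v))
    (hcol : ∀ d₁ ∈ G.edgeSet, ∀ d₂ ∈ G.edgeSet, χ' (d₁.map σ) = χ' (d₂.map σ) → χ d₁ = χ d₂) :
    Uni H G' χ' (σ y) := by
  obtain ⟨l, q, f, h1, h2, h3, h4, h5, h6⟩ := h
  have hm : ∀ e ∈ H.edgeSet, e ≠ s(q, l) → e.map f ∈ G.edgeSet := by
    intro e he hne
    induction e using Sym2.ind with
    | h u v =>
      refine h5 u v ?_ ?_ he
      · rintro rfl
        apply hne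
        rw [h2 v he, Sym2.eq_swap]
      · rintro rfl
        apply hne
        rw [h2 u (SimpleGraph.Adj.symm he)]
  refine ⟨l, q, σ ∘ f, h1, h2, congrArg σ h3, fun u v hu hv h => h4 u v hu hv (hσ h),
    fun u v hu hv h => hadj _ _ (h5 u v hu hv h), ?_⟩
  intro e₁ m₁ e₂ m₂ n₁ n₂ h
  rw [← Sym2.map_map, ← Sym2.map_map] at h
  exact h6 e₁ m₁ e₂ m₂ n₁ n₂ (hcol _ (hm _ m₁ n₁) _ (hm _ m₂ n₂) h)

/-- a universal vertex is saturated with all outside vertices -/
theorem Uni.rb_add {V W : Type*} [DecidableEq W] {G : SimpleGraph V} {χ : Sym2 V → ℕ} {y : V}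
    (h : Uni H G χ y) {G' : SimpleGraph W} {χ' : Sym2 W → ℕ} (σ : V → W)
    (hσ : Function.Injective σ) (x : W) (hx : ∀ v, σ v ≠ x)
    (hadj : ∀ u v, G.Adj u v → G'.Adj (σ u) (σ v))
    (hcol : ∀ d₁ ∈ G.edgeSet, ∀ d₂ ∈ G.edgeSet, χ' (d₁.map σ) = χ' (d₂.map σ) → χ d₁ = χ d₂)
    {c : ℕ} (hc : ∀ d ∈ G.edgeSet, χ' (d.map σ) ≠ c) :
    Rb H (G' ⊔ SimpleGraph.fromEdgeSet {s(x, σ y)}) (Function.update χ' s(x, σ y) c) := by
  classical
  obtain ⟨l, q, f, h1, h2, h3, h4, h5, h6⟩ := h
  have hql : q ≠ l := h1.ne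
  have hxy : x ≠ σ y := Ne.symm (hx y)
  have hm : ∀ e ∈ H.edgeSet, e ≠ s(q, l) → e.map f ∈ G.edgeSet ∧
      e.map (fun u => if u = l then x else σ (f u)) = (e.map f).map σ ∧
      (e.map f).map σ ≠ s(x, σ y) := by
    intro e he hne
    induction e using Sym2.ind with
    | h u v =>
      have hu : u ≠ l := by
        rintro rfl
        apply hne
        rw [h2 v he, Sym2.eq_swap]
      have hv : v ≠ l := by
        rintro rfl
        apply hne
        rw [h2 u (SimpleGraph.Adj.symm he)]
      refine ⟨h5 u v hu hv he, ?_, ?_⟩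
      · rw [Sym2.map_mk, Sym2.map_mk, Sym2.map_mk, if_neg hu, if_neg hv]
      · intro h
        rw [Sym2.map_mk, Sym2.map_mk] at h
        have h7 : x ∈ s(σ (f u), σ (f v)) := by rw [h]; simp
        rw [Sym2.mem_iff] at h7
        rcases h7 with h7 | h7
        · exact hx _ h7.symm
        · exact hx _ h7.symm
  refine ⟨fun u => if u = l then x else σ (f u), ?_, ?_, ?_⟩
  · intro u v huv
    by_cases hu : u = l
    · by_cases hv : v = l
      · rw [hu, hv]
      · simp only [if_pos hu, if_neg hv] at huv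
        exact absurd huv.symm (hx _)
    · by_cases hv : v = l
      · simp only [if_neg hu, if_pos hv] at huv
        exact absurd huv (hx _)
      · simp only [if_neg hu, if_neg hv] at huv
        exact h4 u v hu hv (hσ huv)
  · intro u v huv
    rw [adj_sup_edge hxy]
    beta_reduce
    by_cases hu : u = l
    · subst hu
      have hv := h2 v huv
      subst hv
      right
      rw [if_pos rfl, if_neg hql, h3]
    · by_cases hv : v = l
      · subst hv
        have hu2 := h2 u huv.symm
        subst hu2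
        right
        rw [if_pos rfl, if_neg hql, h3, Sym2.eq_swap]
      · left
        rw [if_neg hu, if_neg hv]
        exact hadj _ _ (h5 u v hu hv huv)
  · have key : ∀ e ∈ H.edgeSet, e ≠ s(q, l) →
        Function.update χ' s(x, σ y) c (e.map (fun u => if u = l then x else σ (f u))) =
          χ' ((e.map f).map σ) := by
      intro e he hne
      obtain ⟨_, h8, h9⟩ := hm e he hne
      rw [h8, Function.update_of_ne h9]
    have key2 : Function.update χ' s(x, σ y) c
        (s(q, l).map (fun u => if u = l then x else σ (f u))) = c := by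
      rw [Sym2.map_mk, if_neg hql, if_pos rfl, h3, Sym2.eq_swap, Function.update_self]
    intro e₁ m₁ e₂ m₂ h
    by_cases n₁ : e₁ = s(q, l)
    · by_cases n₂ : e₂ = s(q, l)
      · rw [n₁, n₂]
      · rw [n₁, key2, key e₂ m₂ n₂] at h
        exact absurd h.symm (hc _ (hm e₂ m₂ n₂).1)
    · by_cases n₂ : e₂ = s(q, l)
      · rw [n₂, key2, key e₁ m₁ n₁] at h
        exact absurd h (hc _ (hm e₁ m₁ n₁).1)
      · rw [key e₁ m₁ n₁, key e₂ m₂ n₂] at h
        exact h6 e₁ m₁ e₂ m₂ n₁ n₂ (hcol _ (hm e₁ m₁ n₁).1 _ (hm e₂ m₂ n₂).1 h)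

section sum

variable {V₁ V₂ : Type*}

/-- disjoint union -/
def sG (G₁ : SimpleGraph V₁) (G₂ : SimpleGraph V₂) : SimpleGraph (V₁ ⊕ V₂) where
  Adj
    | .inl x, .inl y => G₁.Adj x y
    | .inr x, .inr y => G₂.Adj x y
    | _, _ => False
  symm := ⟨by
    intro x y h
    cases x <;> cases y <;> simp only at h ⊢
    · exact h.symm
    · exact h.symm⟩
  loopless := ⟨by
    intro x h
    cases x <;> simp only at h
    · exact h.ne rfl
    · exact h.ne rfl⟩

/-- disjoint palettes -/
def sc (χ₁ : Sym2 V₁ → ℕ) (χ₂ : Sym2 V₂ → ℕ) : Sym2 (V₁ ⊕ V₂) → ℕ :=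
  Sym2.lift ⟨fun x y => match x, y with
    | .inl x, .inl y => 2 * χ₁ s(x, y)
    | .inr x, .inr y => 2 * χ₂ s(x, y) + 1
    | _, _ => 0, by
    intro x y
    cases x <;> cases y <;> simp only
    · rw [Sym2.eq_swap]
    · rw [Sym2.eq_swap]⟩

theorem sc_inl (χ₁ : Sym2 V₁ → ℕ) (χ₂ : Sym2 V₂ → ℕ) (d : Sym2 V₁) :
    sc χ₁ χ₂ (d.map Sum.inl) = 2 * χ₁ d := by
  induction d using Sym2.ind with
  | h x y => rfl

theorem sc_inr (χ₁ : Sym2 V₁ → ℕ) (χ₂ : Sym2 V₂ → ℕ) (d : Sym2 V₂) :
    sc χ₁ χ₂ (d.map Sum.inr) = 2 * χ₂ d + 1 := by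
  induction d using Sym2.ind with
  | h x y => rfl

variable [DecidableEq V₁] [DecidableEq V₂] {G₁ : SimpleGraph V₁} {G₂ : SimpleGraph V₂}
  {χ₁ : Sym2 V₁ → ℕ} {χ₂ : Sym2 V₂ → ℕ}

theorem sum_sat (hk : 0 < k) (hH : H.Connected) (S₁ : Sat H G₁ χ₁) (S₂ : Sat H G₂ χ₂)
    (U₁ : ∀ y, Uni H G₁ χ₁ y) (U₂ : ∀ y, Uni H G₂ χ₂ y) : Sat H (sG G₁ G₂) (sc χ₁ χ₂) := by
  constructor
  · rintro ⟨f, hf1, hf2, hf3⟩
    have h0 : (∃ g : Fin k → V₁, ∀ x, f x = Sum.inl (g x)) ∨
        (∃ g : Fin k → V₂, ∀ x, f x = Sum.inr (g x)) := by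
      have hr : ∀ x, (Sum.isLeft (f x) = Sum.isLeft (f ⟨0, hk⟩)) := by
        intro x
        have h1 := hH.preconnected ⟨0, hk⟩ x
        rw [SimpleGraph.reachable_iff_reflTransGen] at h1
        induction h1 with
        | refl => rfl
        | @tail x z _ hxz ih =>
          have h2 := hf2 x z hxz
          rw [← ih]
          rcases hx : f x with a | a <;> rcases hz : f z with b | b
          · rfl
          · rw [hx, hz] at h2
            exact absurd h2 id
          · rw [hx, hz] at h2
            exact absurd h2 id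
          · rfl
      rcases h1 : f ⟨0, hk⟩ with a | a
      · left
        have h2 : ∀ x, ∃ b, f x = Sum.inl b := by
          intro x
          have h3 := hr x
          rw [h1] at h3
          rcases h4 : f x with b | b
          · exact ⟨b, rfl⟩
          · rw [h4] at h3
            simp at h3
        choose g hg using h2
        exact ⟨g, hg⟩
      · right
        have h2 : ∀ x, ∃ b, f x = Sum.inr b := by
          intro x
          have h3 := hr x
          rw [h1] at h3
          rcases h4 : f x with b | b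
          · rw [h4] at h3
            simp at h3
          · exact ⟨b, rfl⟩
        choose g hg using h2
        exact ⟨g, hg⟩
    rcases h0 with ⟨g, hg⟩ | ⟨g, hg⟩
    · have hfg : f = Sum.inl ∘ g := funext hg
      apply S₁.1
      refine ⟨g, fun u v h => hf1 (by rw [hg, hg, h]), ?_, ?_⟩
      · intro u v h
        have h1 := hf2 u v h
        rw [hg, hg] at h1
        exact h1
      · intro e₁ m₁ e₂ m₂ h
        apply hf3 e₁ m₁ e₂ m₂
        rw [hfg, ← Sym2.map_map, ← Sym2.map_map, sc_inl, sc_inl, h]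
    · have hfg : f = Sum.inr ∘ g := funext hg
      apply S₂.1
      refine ⟨g, fun u v h => hf1 (by rw [hg, hg, h]), ?_, ?_⟩
      · intro u v h
        have h1 := hf2 u v h
        rw [hg, hg] at h1
        exact h1
      · intro e₁ m₁ e₂ m₂ h
        apply hf3 e₁ m₁ e₂ m₂
        rw [hfg, ← Sym2.map_map, ← Sym2.map_map, sc_inr, sc_inr, h]
  · -- across
    have hac : ∀ (x : V₁) (y : V₂) (c : ℕ), Rb H (sG G₁ G₂ ⊔ SimpleGraph.fromEdgeSet
        {s(Sum.inl x, Sum.inr y)}) (Function.update (sc χ₁ χ₂) s(Sum.inl x, Sum.inr y) c) := by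
      intro x y c
      rcases Nat.even_or_odd c with hc | hc
      · refine (U₂ y).rb_add Sum.inr Sum.inr_injective (Sum.inl x) (fun v => Sum.inr_ne_inl)
          (fun u v h => h) ?_ ?_
        · intro d₁ _ d₂ _ h
          rw [sc_inr, sc_inr] at h
          omega
        · intro d _ h
          rw [sc_inr] at h
          obtain ⟨r, hr⟩ := hc
          omega
      · have h1 := (U₁ x).rb_add (G' := sG G₁ G₂) (χ' := sc χ₁ χ₂) Sum.inl Sum.inl_injective
          (Sum.inr y) (fun v => Sum.inl_ne_inr) (fun u v h => h) (c := c) ?_ ?_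
        · rw [Sym2.eq_swap]
          exact h1
        · intro d₁ _ d₂ _ h
          rw [sc_inl, sc_inl] at h
          omega
        · intro d _ h
          rw [sc_inl] at h
          obtain ⟨r, hr⟩ := hc
          omega
    intro x y hxy hadj c
    rcases x with x | x <;> rcases y with y | y
    · have hne : x ≠ y := fun h => hxy (congrArg Sum.inl h)
      refine (S₁.2 x y hne hadj (c / 2)).transport Sum.inl Sum.inl_injective ?_ ?_
      · intro u v huv
        rw [adj_sup_edge hne] at huv
        rw [adj_sup_edge hxy]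
        rcases huv with huv | huv
        · exact Or.inl huv
        · right
          have := congrArg (Sym2.map (Sum.inl : V₁ → V₁ ⊕ V₂)) huv
          simpa using this
      · have key : ∀ d : Sym2 V₁, d = s(x, y) ∨ (d ≠ s(x, y) ∧
            Function.update (sc χ₁ χ₂) s(Sum.inl x, Sum.inl y) c (d.map Sum.inl) = 2 * χ₁ d) := by
          intro d
          by_cases hd : d = s(x, y)
          · exact Or.inl hd
          · refine Or.inr ⟨hd, ?_⟩
            rw [Function.update_of_ne, sc_inl]
            intro h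
            exact hd (Sym2.map.injective Sum.inl_injective h)
        intro d₁ _ d₂ _ h
        rcases key d₁ with h1 | ⟨h1, h2⟩ <;> rcases key d₂ with h3 | ⟨h3, h4⟩
        · rw [h1, h3]
        · rw [h1, Function.update_self, Function.update_of_ne h3]
          rw [h4, h1, Sym2.map_mk, Function.update_self] at h
          omega
        · rw [h3, Function.update_self, Function.update_of_ne h1]
          rw [h2, h3, Sym2.map_mk, Function.update_self] at h
          omega
        · rw [Function.update_of_ne h1, Function.update_of_ne h3]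
          rw [h2, h4] at h
          omega
    · exact hac x y c
    · rw [Sym2.eq_swap]
      exact hac y x c
    · have hne : x ≠ y := fun h => hxy (congrArg Sum.inr h)
      refine (S₂.2 x y hne hadj (c / 2)).transport Sum.inr Sum.inr_injective ?_ ?_
      · intro u v huv
        rw [adj_sup_edge hne] at huv
        rw [adj_sup_edge hxy]
        rcases huv with huv | huv
        · exact Or.inl huv
        · right
          have := congrArg (Sym2.map (Sum.inr : V₂ → V₁ ⊕ V₂)) huv
          simpa using this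
      · have key : ∀ d : Sym2 V₂, d = s(x, y) ∨ (d ≠ s(x, y) ∧
            Function.update (sc χ₁ χ₂) s(Sum.inr x, Sum.inr y) c (d.map Sum.inr) =
              2 * χ₂ d + 1) := by
          intro d
          by_cases hd : d = s(x, y)
          · exact Or.inl hd
          · refine Or.inr ⟨hd, ?_⟩
            rw [Function.update_of_ne, sc_inr]
            intro h
            exact hd (Sym2.map.injective Sum.inr_injective h)
        intro d₁ _ d₂ _ h
        rcases key d₁ with h1 | ⟨h1, h2⟩ <;> rcases key d₂ with h3 | ⟨h3, h4⟩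
        · rw [h1, h3]
        · rw [h1, Function.update_self, Function.update_of_ne h3]
          rw [h4, h1, Sym2.map_mk, Function.update_self] at h
          omega
        · rw [h3, Function.update_self, Function.update_of_ne h1]
          rw [h2, h3, Sym2.map_mk, Function.update_self] at h
          omega
        · rw [Function.update_of_ne h1, Function.update_of_ne h3]
          rw [h2, h4] at h
          omega

omit [DecidableEq V₁] [DecidableEq V₂] in
theorem sum_uni (U₁ : ∀ y, Uni H G₁ χ₁ y) (U₂ : ∀ y, Uni H G₂ χ₂ y) :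
    ∀ y, Uni H (sG G₁ G₂) (sc χ₁ χ₂) y := by
  intro y
  rcases y with y | y
  · refine (U₁ y).map Sum.inl Sum.inl_injective (fun u v h => h) ?_
    intro d₁ _ d₂ _ h
    rw [sc_inl, sc_inl] at h
    omega
  · refine (U₂ y).map Sum.inr Sum.inr_injective (fun u v h => h) ?_
    intro d₁ _ d₂ _ h
    rw [sc_inr, sc_inr] at h
    omega

omit [DecidableEq V₁] [DecidableEq V₂] in
theorem sum_card [Finite V₁] [Finite V₂] :
    (sG G₁ G₂).edgeSet.ncard ≤ G₁.edgeSet.ncard + G₂.edgeSet.ncard := by
  have h1 : (sG G₁ G₂).edgeSet ⊆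
      Sym2.map Sum.inl '' G₁.edgeSet ∪ Sym2.map Sum.inr '' G₂.edgeSet := by
    intro e he
    induction e using Sym2.ind with
    | h x y =>
      rcases x with x | x <;> rcases y with y | y
      · exact Or.inl ⟨s(x, y), he, rfl⟩
      · exact absurd he id
      · exact absurd he id
      · exact Or.inr ⟨s(x, y), he, rfl⟩
  refine (Set.ncard_le_ncard h1 (Set.toFinite _)).trans ((Set.ncard_union_le _ _).trans ?_)
  exact Nat.add_le_add (Set.ncard_image_le (Set.toFinite _)) (Set.ncard_image_le (Set.toFinite _))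

end sum

/-- there is a saturated graph with `n` vertices, all universal, and at most `m` edges -/
def UG (H : SimpleGraph (Fin k)) (n m : ℕ) : Prop :=
  ∃ (G : SimpleGraph (Fin n)) (χ : Sym2 (Fin n) → ℕ), G.edgeSet.ncard ≤ m ∧ Sat H G χ ∧
    ∀ y, Uni H G χ y

theorem UG.good {n m : ℕ} (h : UG H n m) : Good H n m := by
  obtain ⟨G, χ, h1, h2, _⟩ := h
  exact ⟨G, χ, h1, h2⟩

/-- vertex sets other than `Fin n` -/
theorem ug_of {V : Type*} [Fintype V] [DecidableEq V] {G : SimpleGraph V} {χ : Sym2 V → ℕ}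
    (h : Sat H G χ) (hU : ∀ y, Uni H G χ y) : UG H (Fintype.card V) G.edgeSet.ncard := by
  classical
  let σ := Fintype.equivFin V
  have hmap : ∀ e : Sym2 V, (e.map σ).map σ.symm = e := by
    intro e
    rw [Sym2.map_map]
    have : (σ.symm ∘ σ) = id := by ext x; simp
    rw [this, Sym2.map_id, id]
  refine ⟨_, _, ?_, h.equiv σ, ?_⟩
  · have h1 : (G.comap σ.symm).edgeSet ⊆ Sym2.map σ '' G.edgeSet := by
      intro d
      induction d using Sym2.ind with
      | h u v =>
        intro huv
        refine ⟨s(σ.symm u, σ.symm v), huv, ?_⟩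
        simp
    refine (Set.ncard_le_ncard h1 (Set.toFinite _)).trans ?_
    exact Set.ncard_image_le (Set.toFinite _)
  · intro y
    have h1 := (hU (σ.symm y)).map (G' := G.comap σ.symm) (χ' := fun e => χ (e.map σ.symm)) σ
      σ.injective ?_ ?_
    · rw [Equiv.apply_symm_apply] at h1
      exact h1
    · intro u v huv
      simpa using huv
    · intro d₁ _ d₂ _ hd
      simp only [hmap] at hd
      exact hd

theorem UG.add (hk : 0 < k) (hH : H.Connected) {n₁ m₁ n₂ m₂ : ℕ} (h₁ : UG H n₁ m₁)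
    (h₂ : UG H n₂ m₂) : UG H (n₁ + n₂) (m₁ + m₂) := by
  obtain ⟨G₁, χ₁, a₁, b₁, c₁⟩ := h₁
  obtain ⟨G₂, χ₂, a₂, b₂, c₂⟩ := h₂
  have h := ug_of (sum_sat hk hH b₁ b₂ c₁ c₂) (sum_uni c₁ c₂)
  rw [Fintype.card_sum, Fintype.card_fin, Fintype.card_fin] at h
  obtain ⟨G, χ, a, b, c⟩ := h
  exact ⟨G, χ, a.trans (sum_card.trans (Nat.add_le_add a₁ a₂)), b, c⟩

theorem UG.mul (hk : 0 < k) (hH : H.Connected) {n m s r : ℕ} (h : UG H n m)
    (hs : UG H s r) (t : ℕ) : UG H (t * n + s) (t * m + r) := by
  induction t with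
  | zero =>
    rw [zero_mul, zero_mul, zero_add, zero_add]
    exact hs
  | succ t ih =>
    have h1 := h.add hk hH ih
    rw [show (t + 1) * n + s = n + (t * n + s) by ring,
      show (t + 1) * m + r = m + (t * m + r) by ring]
    exact h1

/-- the number of edges of a connected graph -/
theorem two_le_edges (hk : 3 ≤ k) (hH : H.Connected) : 2 ≤ H.edgeSet.ncard := by
  classical
  have h1 := hH.card_vert_le_card_edgeSet_add_one
  rw [Nat.card_eq_fintype_card, Fintype.card_fin, Nat.card_coe_set_eq] at h1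
  omega

/-- complete graphs in which all vertices are universal -/
theorem exists_complete (hk : 3 ≤ k) (hH : H.Connected) {l q : Fin k} (hql : H.Adj q l)
    (hl : ∀ x, H.Adj l x → x = q) : ∃ s0 : ℕ, ∀ s, s0 ≤ s → UG H s (s * s) := by
  classical
  have he := two_le_edges hk hH
  obtain ⟨N, hN⟩ : ∃ N, H.edgeSet.ncard = N + 1 := ⟨H.edgeSet.ncard - 1, by omega⟩
  have hN0 : 0 < N := by omega
  have : Nonempty (Fin N) := ⟨⟨0, hN0⟩⟩
  obtain ⟨s0, hs0⟩ := exists_blob (Fin N) Unit k
  refine ⟨s0, fun s hs => ?_⟩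
  obtain ⟨ω, κ, _, hω⟩ := hs0 s hs
  obtain ⟨g, hg⟩ := exists_inj (H.edgeSet \ {s(q, l)}) hN0 (by
    have h1 := Set.ncard_sdiff_singleton_add_one (s := H.edgeSet) (a := s(q, l)) hql
      (Set.toFinite _)
    omega)
  refine ⟨⊤, fun e => (ω e).val, ?_, ⟨?_, ?_⟩, ?_⟩
  · have h1 : (⊤ : SimpleGraph (Fin s)).edgeSet ⊆
        (fun p : Fin s × Fin s => s(p.1, p.2)) '' Set.univ := by
      intro e _
      induction e using Sym2.ind with
      | h x y => exact ⟨(x, y), Set.mem_univ _, rfl⟩
    refine (Set.ncard_le_ncard h1 (Set.toFinite _)).trans ?_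
    refine (Set.ncard_image_le (Set.toFinite _)).trans ?_
    rw [Set.ncard_univ, Nat.card_eq_fintype_card, Fintype.card_prod, Fintype.card_fin]
  · rintro ⟨f, _, _, hf⟩
    have h1 : H.edgeSet.ncard ≤ (Set.univ : Set (Fin N)).ncard := by
      refine Set.ncard_le_ncard_of_injOn (fun e => ω (e.map f)) (fun e _ => Set.mem_univ _) ?_
        (Set.toFinite _)
      intro e₁ h₁ e₂ h₂ h
      exact hf e₁ h₁ e₂ h₂ (congrArg Fin.val h)
    rw [Set.ncard_univ, Nat.card_eq_fintype_card, Fintype.card_fin] at h1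
    omega
  · intro x y hxy hadj
    exact absurd hxy hadj
  · intro y
    obtain ⟨f, hf1, hf2, _, hf4⟩ := hω g (fun _ => ()) q y rfl
    refine ⟨l, q, f, hql, hl, hf2, fun u v _ _ h => hf1 h, ?_, ?_⟩
    · intro u v _ _ h
      rw [SimpleGraph.top_adj]
      exact fun h1 => h.ne (hf1 h1)
    · have key : ∀ e ∈ H.edgeSet, ω (e.map f) = g e := by
        intro e he
        induction e using Sym2.ind with
        | h u v => exact hf4 u v (SimpleGraph.Adj.ne he)
      intro e₁ h₁ e₂ h₂ n₁ n₂ h
      refine hg ⟨h₁, n₁⟩ ⟨h₂, n₂⟩ ?_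
      rw [← key e₁ h₁, ← key e₂ h₂]
      exact Fin.ext h

end Pool.Agent.Helper29.ML
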