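import Pool.Agent.Helper3.RT.SatP
import Pool.Agent.Helper29.ML.Amp

/-! Rainbow saturation, graphs with a vertex `v` of minimal non-leaf degree `a + 1` all of whose
neighbours except `w` are leaves: the petal construction (MP_e4665f_co). -/

set_option autoImplicit false

namespace Pool.Agent.Helper29.ML

open SimpleGraph Pool.Agent.Helper28.RS Pool.Agent.Helper3.RT

/-- the pattern -/
structure Pat (k : ℕ) where
  H : SimpleGraph (Fin k)
  w : Fin k
  v : Fin k
  l : Fin k
  a : ℕ

variable {k : ℕ}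

namespace Pat

variable (P : Pat k)

/-- the hypotheses on the pattern -/
structure Ok : Prop where
  conn : P.H.Connected
  adj_wv : P.H.Adj P.w P.v
  adj_vl : P.H.Adj P.v P.l
  nv : ∀ x, P.H.Adj P.v x → x = P.w ∨ (nb P.H x).card = 1
  cv : (nb P.H P.v).card = P.a + 1
  nlw : 1 < (nb P.H P.w).card
  cl : (nb P.H P.l).card = 1
  ha : 2 ≤ P.a
  deg : ∀ x, (nb P.H x).card = 1 ∨ P.a + 1 ≤ (nb P.H x).card

/-- every edge at `w` is a bridge -/
def Bri : Prop := ∀ y, P.H.Adj P.w y → ¬ (P.H \ fromEdgeSet {s(P.w, y)}).Reachable P.w y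

/-- no exception -/
def Nex : Prop := ∀ u b, P.H.Adj P.w u → P.H.Adj u b → b ≠ P.w → 1 < (nb P.H b).card →
  (∀ x, P.H.Adj b x → x ≠ u → (nb P.H x).card = 1) →
  (lf P.H u).card < (lf P.H P.w).card + ((nb P.H b).card - 1)

/-- positions in the petals -/
def isY (y : Fin k) : Prop := y ≠ P.w ∧ y ≠ P.v ∧ y ∉ lf P.H P.v ∧ y ∉ lf P.H P.w

/-- positions of the non-leaves -/
def isN (y : Fin k) : Prop := P.isY y ∧ 1 < (nb P.H y).card

/-- positions of the leaves -/
def isF (y : Fin k) : Prop := P.isY y ∧ ¬ 1 < (nb P.H y).card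

/-- the bounded part: the hub, the petals (`pet`: non-leaves, `clo`: the `a - 1` clones of a leaf)
and the blob -/
inductive Core (P : Pat k) (s : ℕ) : Type
  | hub : Core P s
  | pet (j : Option (Sym2 (Fin k))) (b : Bool) (y : {y : Fin k // P.isN y}) : Core P s
  | clo (j : Option (Sym2 (Fin k))) (b : Bool) (y : {y : Fin k // P.isF y})
      (t : Fin (P.a - 1)) : Core P s
  | blob (t : Fin s) : Core P s
  deriving DecidableEq

instance (P : Pat k) (s : ℕ) : Finite (Core P s) := by
  let g : Core P s → Unit ⊕ (Option (Sym2 (Fin k)) × Bool × {y : Fin k // P.isN y}) ⊕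
      (Option (Sym2 (Fin k)) × Bool × {y : Fin k // P.isF y} × Fin (P.a - 1)) ⊕ Fin s :=
    fun c => match c with
    | .hub => .inl ()
    | .pet j b y => .inr (.inl (j, b, y))
    | .clo j b y t => .inr (.inr (.inl (j, b, y, t)))
    | .blob t => .inr (.inr (.inr t))
  refine Finite.of_injective g ?_
  intro c c' h
  cases c <;> cases c' <;> simp_all [g]

/-- all vertices: the windmill and the bounded part -/
abbrev Vx (P : Pat k) (m s : ℕ) : Type := (Fin m × Fin P.a) ⊕ Core P s

/-- colours of the petals -/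
noncomputable def col (j : Option (Sym2 (Fin k))) (e : Sym2 (Fin k)) : ℕ :=
  if e = s(P.w, P.v) ∨ j = some e then 0 else Pool.Agent.Helper3.RT.Pat.beta e

/-- the palette of the bounded part, one colour less than `H` has edges -/
noncomputable def S0 : Finset ℕ :=
  ((ed P.H).erase s(P.v, P.l)).image
    (fun e => if e = s(P.w, P.v) then 0 else Pool.Agent.Helper3.RT.Pat.beta e)

/-- the pattern without the vertex `w` -/
def H0 : SimpleGraph (Fin k) where
  Adj x y := P.H.Adj x y ∧ x ≠ P.w ∧ y ≠ P.w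
  symm := ⟨fun _ _ h => ⟨h.1.symm, h.2.2, h.2.1⟩⟩
  loopless := ⟨fun _ h => h.1.ne rfl⟩

/-- the colour of the edge between a petal vertex and the blob -/
noncomputable def entcol (j : Option (Sym2 (Fin k))) (y : Fin k) : ℕ := by
  classical
  exact if h : ∃ a, P.H.Adj P.w a ∧ P.H0.Reachable a y then P.col j s(P.w, h.choose) else 0

/-- a blob: a complete graph with colours in `S0` which contains every coloured complete graph on
`k` vertices, with every vertex at every place -/
structure Blob (P : Pat k) where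
  s : ℕ
  t0 : Fin s
  ω : Sym2 (Fin s) → {n : ℕ // n ∈ P.S0}
  hω : ∀ (χ : Sym2 (Fin k) → {n : ℕ // n ∈ P.S0}) (i0 : Fin k) (x : Fin s),
    ∃ f : Fin k → Fin s, Function.Injective f ∧ f i0 = x ∧
      ∀ i j, i ≠ j → ω s(f i, f j) = χ s(i, j)

variable {P} (B : Blob P) (m : ℕ)

/-- edges with a palette colour and their colours: `E x y n` means that `x`, `y` are joined by an
edge of colour `2 * n` -/
def E : Vx P m B.s → Vx P m B.s → ℕ → Prop
  | .inr .hub, .inr (.pet j _ y), n => P.H.Adj P.w y ∧ n = P.col j s(P.w, (y : Fin k))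
  | .inr (.pet j _ y), .inr .hub, n => P.H.Adj P.w y ∧ n = P.col j s(P.w, (y : Fin k))
  | .inr (.pet j b y), .inr (.pet j' b' y'), n => j = j' ∧ b = b' ∧ P.H.Adj y y' ∧
      n = P.col j s((y : Fin k), (y' : Fin k))
  | .inr (.pet j b y), .inr (.clo j' b' y' _), n => j = j' ∧ b = b' ∧ P.H.Adj y y' ∧
      n = P.col j s((y : Fin k), (y' : Fin k))
  | .inr (.clo j b y _), .inr (.pet j' b' y'), n => j = j' ∧ b = b' ∧ P.H.Adj y y' ∧
      n = P.col j s((y : Fin k), (y' : Fin k))
  | .inr (.pet j _ y), .inr (.blob t), n => t = B.t0 ∧ n = P.entcol j y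
  | .inr (.blob t), .inr (.pet j _ y), n => t = B.t0 ∧ n = P.entcol j y
  | .inr (.clo j _ y _), .inr (.blob t), n => t = B.t0 ∧ n = P.entcol j y
  | .inr (.blob t), .inr (.clo j _ y _), n => t = B.t0 ∧ n = P.entcol j y
  | .inr (.blob t), .inr (.blob t'), n => t ≠ t' ∧ n = (B.ω s(t, t') : ℕ)
  | _, _, _ => False

/-- edges with private colours -/
def F : Vx P m B.s → Vx P m B.s → Prop
  | .inl _, .inr .hub => True
  | .inr .hub, .inl _ => True
  | .inl x, .inl y => x.1 = y.1 ∧ x ≠ y
  | .inr (.clo j b y t), .inr (.clo j' b' y' t') => j = j' ∧ b = b' ∧ y = y' ∧ t ≠ t'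
  | _, _ => False

theorem E_symm {x y : Vx P m B.s} {n : ℕ} (h : E B m x y n) : E B m y x n := by
  rcases x with x | x <;> rcases y with y | y
  · exact h
  · cases y <;> exact h
  · cases x <;> exact h
  · cases x <;> cases y <;> simp only [E] at h ⊢
    · exact h
    · exact h
    · obtain ⟨h1, h2, h3, h4⟩ := h
      exact ⟨h1.symm, h2.symm, h3.symm, by rw [h4, h1, Sym2.eq_swap]⟩
    · obtain ⟨h1, h2, h3, h4⟩ := h
      exact ⟨h1.symm, h2.symm, h3.symm, by rw [h4, h1, Sym2.eq_swap]⟩
    · exact h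
    · obtain ⟨h1, h2, h3, h4⟩ := h
      exact ⟨h1.symm, h2.symm, h3.symm, by rw [h4, h1, Sym2.eq_swap]⟩
    · exact h
    · exact h
    · exact h
    · obtain ⟨h1, h2⟩ := h
      exact ⟨h1.symm, by rw [h2, Sym2.eq_swap]⟩

theorem F_symm {x y : Vx P m B.s} (h : F B m x y) : F B m y x := by
  rcases x with x | x <;> rcases y with y | y
  · exact ⟨h.1.symm, h.2.symm⟩
  · cases y <;> exact h
  · cases x <;> exact h
  · cases x <;> cases y <;> simp only [F] at h ⊢
    obtain ⟨h1, h2, h3, h4⟩ := h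
    exact ⟨h1.symm, h2.symm, h3.symm, h4.symm⟩

theorem not_EF {x y : Vx P m B.s} {n : ℕ} (h : E B m x y n) : ¬ F B m x y := by
  rcases x with x | x <;> rcases y with y | y
  · exact absurd h id
  · cases y <;> exact absurd h id
  · cases x <;> exact absurd h id
  · cases x <;> cases y <;> simp only [E] at h <;> simp only [F, not_false_eq_true]

theorem E_irrefl {x : Vx P m B.s} {n : ℕ} (h : E B m x x n) : False := by
  rcases x with x | x
  · exact h
  · cases x <;> simp only [E] at h
    · exact h.2.2.1.ne rfl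
    · exact h.1 rfl

theorem F_irrefl {x : Vx P m B.s} (h : F B m x x) : False := by
  rcases x with x | x
  · exact h.2 rfl
  · cases x <;> simp only [F] at h
    exact h.2.2.2 rfl

theorem E_fun {x y : Vx P m B.s} {n n' : ℕ} (h : E B m x y n) (h' : E B m x y n') : n = n' := by
  rcases x with x | x <;> rcases y with y | y
  · exact absurd h id
  · cases y <;> exact absurd h id
  · cases x <;> exact absurd h id
  · cases x <;> cases y <;> simp only [E] at h h'
    · rw [h.2, h'.2]
    · rw [h.2, h'.2]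
    · rw [h.2.2.2, h'.2.2.2]
    · rw [h.2.2.2, h'.2.2.2]
    · rw [h.2, h'.2]
    · rw [h.2.2.2, h'.2.2.2]
    · rw [h.2, h'.2]
    · rw [h.2, h'.2]
    · rw [h.2, h'.2]
    · rw [h.2, h'.2]

/-- the graph -/
def G : SimpleGraph (Vx P m B.s) where
  Adj x y := F B m x y ∨ ∃ n, E B m x y n
  symm := ⟨fun _ _ h => h.imp (F_symm B m) fun ⟨n, hn⟩ => ⟨n, E_symm B m hn⟩⟩
  loopless := ⟨fun _ h => h.elim (F_irrefl B m) fun ⟨_, hn⟩ => E_irrefl B m hn⟩

/-- the private colours -/
noncomputable def idx (e : Sym2 (Vx P m B.s)) : ℕ := (Finite.equivFin (Sym2 (Vx P m B.s)) e).val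

theorem idx_inj {e e' : Sym2 (Vx P m B.s)} (h : idx B m e = idx B m e') : e = e' :=
  (Finite.equivFin _).injective (Fin.ext h)

/-- the colouring: private colours are odd, palette colours are even -/
noncomputable def chi (e : Sym2 (Vx P m B.s)) : ℕ := by
  classical
  exact if h : ∃ x y n, e = s(x, y) ∧ E B m x y n then 2 * h.choose_spec.choose_spec.choose
    else 2 * idx B m e + 1

theorem chi_E {x y : Vx P m B.s} {n : ℕ} (h : E B m x y n) : chi B m s(x, y) = 2 * n := by
  classical
  have key : ∀ x' y' n', s(x, y) = s(x', y') → E B m x' y' n' → n' = n := by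
    intro x' y' n' h1 h2
    rcases Sym2.eq_iff.1 h1 with ⟨rfl, rfl⟩ | ⟨rfl, rfl⟩
    · exact E_fun B m h2 h
    · exact E_fun B m h2 (E_symm B m h)
  have hex : ∃ x' y' n, s(x, y) = s(x', y') ∧ E B m x' y' n := ⟨x, y, n, rfl, h⟩
  unfold chi
  rw [dif_pos hex]
  have h1 := hex.choose_spec.choose_spec.choose_spec
  rw [key _ _ _ h1.1 h1.2]

theorem chi_F {x y : Vx P m B.s} (h : F B m x y) :
    chi B m s(x, y) = 2 * idx B m s(x, y) + 1 := by
  classical
  unfold chi
  rw [dif_neg]
  rintro ⟨x', y', n, h1, h2⟩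
  rcases Sym2.eq_iff.1 h1 with ⟨h3, h4⟩ | ⟨h3, h4⟩
  · rw [← h3, ← h4] at h2
    exact not_EF B m h2 h
  · rw [← h3, ← h4] at h2
    exact not_EF B m h2 (F_symm B m h)

end Pat

end Pool.Agent.Helper29.ML
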