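import Pool.Agent.Helper3.RT.Free2
import Pool.Agent.Helper29.ML.B1
import Pool.Agent.Helper28.ML.Fold

/-! The petal construction has no rainbow copy of `H` (MP_e4665f_co). -/

set_option autoImplicit false

namespace Pool.Agent.Helper29.ML

open SimpleGraph Pool.Agent.Helper28.RS Pool.Agent.Helper3.RT

variable {k : ℕ}

namespace Pat

section pattern

variable {P : Pat k}

theorem Ok.wl (hO : P.Ok) : P.w ≠ P.l := by
  intro h
  have h1 := hO.nlw
  rw [h, hO.cl] at h1
  omega

theorem Ok.nlv (hO : P.Ok) : 1 < (nb P.H P.v).card := by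
  rw [hO.cv]
  have := hO.ha
  omega

theorem Ok.ex (hO : P.Ok) (x : Fin k) : ∃ y, P.H.Adj x y := by
  have h : 0 < (nb P.H x).card := by
    rcases hO.deg x with h | h <;> omega
  rw [Finset.card_pos] at h
  obtain ⟨y, hy⟩ := h
  exact ⟨y, mem_nb.1 hy⟩

theorem Ok.leaf (hO : P.Ok) {x : Fin k} (h : (nb P.H x).card ≤ P.a) : (nb P.H x).card = 1 := by
  rcases hO.deg x with h1 | h1
  · exact h1
  · omega

theorem Ok.three (hO : P.Ok) : 3 ≤ k := by
  have h1 : ({P.w, P.v, P.l} : Finset (Fin k)).card = 3 := by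
    rw [Finset.card_insert_of_notMem, Finset.card_pair hO.adj_vl.ne]
    rw [Finset.mem_insert, Finset.mem_singleton]
    rintro (h | h)
    · exact hO.adj_wv.ne h
    · exact hO.wl h
  have h2 := Finset.card_le_univ ({P.w, P.v, P.l} : Finset (Fin k))
  rw [Fintype.card_fin] at h2
  omega

theorem Ok.ll (hO : P.Ok) {x y : Fin k} (h : P.H.Adj x y) (hx : (nb P.H x).card = 1)
    (hy : (nb P.H y).card = 1) : False := leaf_leaf hO.three hO.conn h hx hy

theorem Ok.l_mem (hO : P.Ok) : P.l ∈ lf P.H P.v := mem_lf.2 ⟨hO.adj_vl, hO.cl⟩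

theorem Ok.w_not (hO : P.Ok) (x : Fin k) : P.w ∉ lf P.H x := by
  intro h
  have h1 := (mem_lf.1 h).2
  have h2 := hO.nlw
  omega

theorem Ok.v_not (hO : P.Ok) (x : Fin k) : P.v ∉ lf P.H x := by
  intro h
  have h1 := (mem_lf.1 h).2
  have h2 := hO.nlv
  omega

theorem fr_ent_unique (hB : P.Bri) {a a' : Fin k} (ha : P.H.Adj P.w a) (ha' : P.H.Adj P.w a')
    (h : P.H0.Reachable a a') : a = a' := by
  by_contra hne
  apply hB a ha
  have h1 : (P.H \ fromEdgeSet {s(P.w, a)}).Adj P.w a' := by
    rw [SimpleGraph.sdiff_adj, SimpleGraph.fromEdgeSet_adj]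
    refine ⟨ha', fun h3 => ?_⟩
    have h4 : s(P.w, a') = s(P.w, a) := h3.1
    rw [Sym2.congr_right] at h4
    exact hne h4.symm
  have h2 : P.H0 ≤ P.H \ fromEdgeSet {s(P.w, a)} := by
    intro x y hxy
    rw [SimpleGraph.sdiff_adj, SimpleGraph.fromEdgeSet_adj]
    refine ⟨hxy.1, fun h3 => ?_⟩
    have h4 : P.w ∈ s(x, y) := by
      have h5 : s(x, y) = s(P.w, a) := h3.1
      rw [h5]
      simp
    rw [Sym2.mem_iff] at h4
    rcases h4 with h4 | h4
    · exact hxy.2.1 h4.symm
    · exact hxy.2.2 h4.symm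
  exact h1.reachable.trans (h.symm.mono h2)

theorem fr_entcol_eq (hB : P.Bri) {j : Option (Sym2 (Fin k))} {y a : Fin k}
    (ha : P.H.Adj P.w a) (h : P.H0.Reachable a y) : P.entcol j y = P.col j s(P.w, a) := by
  classical
  have hex : ∃ a, P.H.Adj P.w a ∧ P.H0.Reachable a y := ⟨a, ha, h⟩
  unfold entcol
  rw [dif_pos hex]
  have h1 := hex.choose_spec
  have h2 := fr_ent_unique hB h1.1 ha (h1.2.trans h.symm)
  rw [h2]

theorem fr_w_ne (hO : P.Ok) (a : Fin k) : s(P.w, a) ≠ s(P.v, P.l) := by
  intro h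
  rw [Sym2.eq_iff] at h
  rcases h with ⟨h, _⟩ | ⟨h, _⟩
  · exact hO.adj_wv.ne h
  · exact hO.wl h

theorem fr_Y_ne (hO : P.Ok) {y y' : Fin k} (hy : P.isY y) : s(y, y') ≠ s(P.v, P.l) := by
  intro h
  rw [Sym2.eq_iff] at h
  rcases h with ⟨h, _⟩ | ⟨h, _⟩
  · exact hy.2.1 h
  · apply hy.2.2.1
    rw [h]
    exact hO.l_mem

theorem fr_mem_erase {a b : Fin k} (h : P.H.Adj a b) (hne : s(a, b) ≠ s(P.v, P.l)) :
    s(a, b) ∈ (ed P.H).erase s(P.v, P.l) := by
  rw [Finset.mem_erase, mem_ed]
  exact ⟨hne, h⟩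

theorem fr_zero_mem (hO : P.Ok) : 0 ∈ P.S0 := by
  unfold S0
  rw [Finset.mem_image]
  exact ⟨_, fr_mem_erase hO.adj_wv (fr_w_ne hO _), if_pos rfl⟩

theorem fr_col_mem (hO : P.Ok) {e : Sym2 (Fin k)} (he : e ∈ (ed P.H).erase s(P.v, P.l))
    (j : Option (Sym2 (Fin k))) : P.col j e ∈ P.S0 := by
  unfold col
  split_ifs with h
  · exact fr_zero_mem hO
  · unfold S0
    rw [Finset.mem_image]
    exact ⟨e, he, if_neg (fun h2 => h (Or.inl h2))⟩

theorem fr_entcol_mem (hO : P.Ok) (j : Option (Sym2 (Fin k))) (y : Fin k) :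
    P.entcol j y ∈ P.S0 := by
  classical
  unfold entcol
  split_ifs with h
  · exact fr_col_mem hO (fr_mem_erase h.choose_spec.1 (fr_w_ne hO _)) j
  · exact fr_zero_mem hO

theorem fr_card_S0 (hO : P.Ok) : P.S0.card < (ed P.H).card := by
  have h1 : P.S0.card ≤ ((ed P.H).erase s(P.v, P.l)).card := Finset.card_image_le
  have h2 : s(P.v, P.l) ∈ ed P.H := mem_ed.2 hO.adj_vl
  have h3 := Finset.card_erase_add_one h2
  omega

/-- positions of the petals and of the hub -/
noncomputable def Zs (P : Pat k) : Finset (Fin k) :=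
  Finset.univ \ insert P.v (lf P.H P.v ∪ lf P.H P.w)

theorem mem_Zs {x : Fin k} : x ∈ P.Zs ↔ x ≠ P.v ∧ x ∉ lf P.H P.v ∧ x ∉ lf P.H P.w := by
  unfold Zs
  rw [Finset.mem_sdiff, Finset.mem_insert, Finset.mem_union]
  constructor
  · rintro ⟨_, h⟩
    exact ⟨fun h1 => h (Or.inl h1), fun h1 => h (Or.inr (Or.inl h1)),
      fun h1 => h (Or.inr (Or.inr h1))⟩
  · rintro ⟨h1, h2, h3⟩
    refine ⟨Finset.mem_univ _, ?_⟩
    rintro (h | h | h)
    · exact h1 h
    · exact h2 h
    · exact h3 h

theorem w_mem_Zs (hO : P.Ok) : P.w ∈ P.Zs :=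
  mem_Zs.2 ⟨hO.adj_wv.ne, hO.w_not _, hO.w_not _⟩

theorem Y_mem_Zs {y : Fin k} (h : P.isY y) : y ∈ P.Zs := mem_Zs.2 ⟨h.2.1, h.2.2.1, h.2.2.2⟩

theorem card_lf_v (hO : P.Ok) : (lf P.H P.v).card = P.a := by
  have h1 : nb P.H P.v = insert P.w (lf P.H P.v) := by
    ext x
    rw [mem_nb, Finset.mem_insert, mem_lf]
    constructor
    · intro h
      rcases hO.nv x h with h2 | h2
      · exact Or.inl h2
      · exact Or.inr ⟨h, h2⟩
    · rintro (rfl | h)
      · exact hO.adj_wv.symm
      · exact h.1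
  have h2 := hO.cv
  rw [h1, Finset.card_insert_of_notMem (hO.w_not _)] at h2
  omega

theorem NN_card (hO : P.Ok) : (insert P.v (lf P.H P.v ∪ lf P.H P.w)).card =
    1 + P.a + (lf P.H P.w).card := by
  have hd : Disjoint (lf P.H P.v) (lf P.H P.w) := by
    rw [Finset.disjoint_left]
    intro x h1 h2
    rw [mem_lf] at h1 h2
    exact hO.adj_wv.ne (Fold.leaf_unique (by omega) h2.1.symm h1.1.symm)
  rw [Finset.card_insert_of_notMem, Finset.card_union_of_disjoint hd, card_lf_v hO]
  · omega
  · rw [Finset.mem_union]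
    rintro (h | h)
    · exact hO.v_not _ h
    · exact hO.v_not _ h

theorem card_Zs (hO : P.Ok) : P.Zs.card + (1 + P.a + (lf P.H P.w).card) = k := by
  rw [← NN_card hO]
  unfold Zs
  rw [Finset.card_sdiff_add_card_eq_card (Finset.subset_univ _), Finset.card_univ,
    Fintype.card_fin]

/-- edges between positions -/
noncomputable def EH (P : Pat k) : Finset (Sym2 (Fin k)) := by
  classical exact (ed P.H).filter (fun e => ∀ x ∈ e, x ∈ P.Zs)

theorem mem_EH {a b : Fin k} : s(a, b) ∈ P.EH ↔ P.H.Adj a b ∧ a ∈ P.Zs ∧ b ∈ P.Zs := by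
  classical
  simp [EH, mem_ed]

theorem card_EH (hO : P.Ok) : P.EH.card + (1 + P.a + (lf P.H P.w).card) ≤ (ed P.H).card := by
  classical
  have hsub : P.EH ⊆ ed P.H := by
    unfold EH
    exact Finset.filter_subset _ _
  have h2 : (insert P.v (lf P.H P.v ∪ lf P.H P.w)).card ≤ (ed P.H \ P.EH).card := by
    refine Finset.card_le_card_of_injOn
      (fun x => if x ∈ lf P.H P.v then s(P.v, x) else s(P.w, x)) ?_ ?_
    · intro x hx
      rw [Finset.mem_coe, Finset.mem_insert, Finset.mem_union] at hx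
      rw [Finset.mem_coe, Finset.mem_sdiff]
      simp only []
      split_ifs with hxl
      · refine ⟨mem_ed.2 (mem_lf.1 hxl).1, ?_⟩
        rw [mem_EH, mem_Zs, mem_Zs]
        rintro ⟨_, h, _⟩
        exact h.1 rfl
      · rcases hx with rfl | hx | hx
        · refine ⟨mem_ed.2 hO.adj_wv, ?_⟩
          rw [mem_EH, mem_Zs, mem_Zs]
          rintro ⟨_, _, h⟩
          exact h.1 rfl
        · exact absurd hx hxl
        · refine ⟨mem_ed.2 (mem_lf.1 hx).1, ?_⟩
          rw [mem_EH, mem_Zs, mem_Zs]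
          rintro ⟨_, _, h⟩
          exact h.2.2 hx
    · intro x hx y hy h
      simp only [] at h
      split_ifs at h with h1 h2 h2
      · rwa [Sym2.congr_right] at h
      · rw [Sym2.eq_iff] at h
        rcases h with ⟨h, _⟩ | ⟨_, h⟩
        · exact absurd h hO.adj_wv.ne'
        · rw [h] at h1
          exact absurd h1 (hO.w_not _)
      · rw [Sym2.eq_iff] at h
        rcases h with ⟨h, _⟩ | ⟨h, _⟩
        · exact absurd h hO.adj_wv.ne
        · rw [← h] at h2
          exact absurd h2 (hO.w_not _)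
      · rwa [Sym2.congr_right] at h
  rw [NN_card hO] at h2
  have h3 := Finset.card_sdiff_add_card_eq_card hsub
  omega

theorem fr_next (hO : P.Ok) {x : Fin k} (hx : x ∈ P.Zs) (hxw : x ≠ P.w) :
    ∃ y, P.H.Adj x y ∧ y ∈ P.Zs ∧ P.H.dist y P.w < P.H.dist x P.w := by
  obtain ⟨p, hp⟩ := hO.conn.exists_walk_length_eq_dist x P.w
  cases p with
  | nil => exact absurd rfl hxw
  | @cons _ y _ h q =>
    refine ⟨y, h, ?_, ?_⟩
    · rw [mem_Zs] at hx ⊢
      refine ⟨?_, ?_, ?_⟩
      · rintro rfl
        rcases hO.nv x h.symm with h1 | h1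
        · exact hxw h1
        · exact hx.2.1 (mem_lf.2 ⟨h.symm, h1⟩)
      · intro h1
        rw [mem_lf] at h1
        exact hx.1 (Fold.leaf_unique (by omega) h.symm h1.1.symm)
      · intro h1
        rw [mem_lf] at h1
        exact hxw (Fold.leaf_unique (by omega) h.symm h1.1.symm)
    · rw [← hp, Walk.length_cons]
      exact Nat.lt_succ_of_le (SimpleGraph.dist_le q)

end pattern

section copy

variable {P : Pat k} {B : Blob P} {m : ℕ}

/-- a petal vertex at the position `y` -/
def At (c : Vx P m B.s) (j : Option (Sym2 (Fin k))) (b : Bool) (y : Fin k) : Prop :=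
  (∃ hy : P.isN y, c = Sum.inr (Core.pet j b ⟨y, hy⟩)) ∨
    (∃ (hy : P.isF y) (t : Fin (P.a - 1)), c = Sum.inr (Core.clo j b ⟨y, hy⟩ t))

theorem At.isY {c : Vx P m B.s} {j : Option (Sym2 (Fin k))} {b : Bool} {y : Fin k}
    (h : At c j b y) : P.isY y := by
  rcases h with ⟨h, _⟩ | ⟨h, _, _⟩
  · exact h.1
  · exact h.1

theorem At.edge {c c' : Vx P m B.s} {j j' : Option (Sym2 (Fin k))} {b b' : Bool} {y y' : Fin k}
    {n : ℕ} (h : At c j b y) (h' : At c' j' b' y') (hE : E B m c c' n) :
    j = j' ∧ b = b' ∧ P.H.Adj y y' ∧ n = P.col j s(y, y') := by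
  rcases h with ⟨hy, rfl⟩ | ⟨hy, t, rfl⟩ <;> rcases h' with ⟨hy', rfl⟩ | ⟨hy', t', rfl⟩
  · exact hE
  · exact hE
  · exact hE
  · exact absurd hE id

theorem At.hub {c : Vx P m B.s} {j : Option (Sym2 (Fin k))} {b : Bool} {y : Fin k}
    {n : ℕ} (h : At c j b y) (hE : E B m (Sum.inr Core.hub) c n) :
    P.H.Adj P.w y ∧ n = P.col j s(P.w, y) := by
  rcases h with ⟨hy, rfl⟩ | ⟨hy, t, rfl⟩
  · exact hE
  · exact absurd hE id

theorem At.ent {c : Vx P m B.s} {j : Option (Sym2 (Fin k))} {b : Bool} {y : Fin k}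
    {n : ℕ} {t : Fin B.s} (h : At c j b y) (hE : E B m c (Sum.inr (Core.blob t)) n) :
    n = P.entcol j y := by
  rcases h with ⟨hy, rfl⟩ | ⟨hy, t', rfl⟩
  · exact hE.2
  · exact hE.2

/-- the palette of the edges of type `E` -/
theorem fr_E_mem (hO : P.Ok) {x y : Vx P m B.s} {n : ℕ} (h : E B m x y n) : n ∈ P.S0 := by
  rcases x with x | x <;> rcases y with y | y
  · exact absurd h id
  · cases y <;> exact absurd h id
  · cases x <;> exact absurd h id
  · cases x <;> cases y <;> simp only [E] at h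
    · rw [h.2]
      exact fr_col_mem hO (fr_mem_erase h.1 (fr_w_ne hO _)) _
    · rw [h.2]
      exact fr_col_mem hO (fr_mem_erase h.1 (fr_w_ne hO _)) _
    · rename_i j b y j' b' y'
      rw [h.2.2.2]
      exact fr_col_mem hO (fr_mem_erase h.2.2.1 (fr_Y_ne hO y.2.1)) _
    · rename_i j b y j' b' y' t
      rw [h.2.2.2]
      exact fr_col_mem hO (fr_mem_erase h.2.2.1 (fr_Y_ne hO y.2.1)) _
    · rw [h.2]
      exact fr_entcol_mem hO _ _
    · rename_i j b y t j' b' y'
      rw [h.2.2.2]
      exact fr_col_mem hO (fr_mem_erase h.2.2.1 (fr_Y_ne hO y.2.1)) _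
    · rw [h.2]
      exact fr_entcol_mem hO _ _
    · rw [h.2]
      exact fr_entcol_mem hO _ _
    · rw [h.2]
      exact fr_entcol_mem hO _ _
    · rw [h.2]
      exact (B.ω _).2

variable {f : Fin k → Vx P m B.s}

theorem fr_pair (hf : IsRb P.H (G B m) (chi B m) f) {a b c d : Fin k} (h1 : P.H.Adj a b)
    (h2 : P.H.Adj c d) {n : ℕ} (e1 : E B m (f a) (f b) n) (e2 : E B m (f c) (f d) n) :
    s(a, b) = s(c, d) := by
  apply hf.2.2 s(a, b) h1 s(c, d) h2
  rw [Sym2.map_mk, Sym2.map_mk, chi_E B m e1, chi_E B m e2]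

theorem fr_nbr_inl (hf : IsRb P.H (G B m) (chi B m) f) {a z : Fin k} {i : Fin m × Fin P.a}
    (ha : f a = Sum.inl i) (h : P.H.Adj a z) :
    f z = Sum.inr Core.hub ∨ ∃ t, f z = Sum.inl (i.1, t) ∧ t ≠ i.2 := by
  have h1 := hf.2.1 a z h
  rw [ha] at h1
  rcases hz : f z with x | c
  · rw [hz] at h1
    rcases h1 with h1 | ⟨n, h1⟩
    · right
      have h2 : i.1 = x.1 ∧ i ≠ x := h1
      refine ⟨x.2, ?_, ?_⟩
      · rw [h2.1]
      · intro h3
        exact h2.2 (Prod.ext h2.1 h3.symm)
    · exact absurd h1 id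
  · rw [hz] at h1
    left
    cases c with
    | hub => rfl
    | pet j b y => rcases h1 with h1 | ⟨n, h1⟩ <;> exact absurd h1 id
    | clo j b y t => rcases h1 with h1 | ⟨n, h1⟩ <;> exact absurd h1 id
    | blob t => rcases h1 with h1 | ⟨n, h1⟩ <;> exact absurd h1 id

theorem fr_inl_leaf (hO : P.Ok) (hf : IsRb P.H (G B m) (chi B m) f) {a : Fin k}
    {i : Fin m × Fin P.a} (ha : f a = Sum.inl i) : (nb P.H a).card = 1 := by
  classical
  apply hO.leaf
  have hc : ((Finset.univ : Finset (Option (Fin P.a))).erase (some i.2)).card = P.a := by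
    rw [Finset.card_erase_of_mem (Finset.mem_univ _), Finset.card_univ, Fintype.card_option,
      Fintype.card_fin]
    omega
  refine le_trans ?_ hc.le
  refine Finset.card_le_card_of_injOn
    (fun z => match f z with | Sum.inl x => some x.2 | Sum.inr _ => none) ?_ ?_
  · intro z hz
    rw [Finset.mem_coe, mem_nb] at hz
    rw [Finset.mem_coe, Finset.mem_erase]
    refine ⟨?_, Finset.mem_univ _⟩
    rcases fr_nbr_inl hf ha hz with h1 | ⟨t, h1, h2⟩
    · simp only [h1]
      exact fun h => nomatch h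
    · simp only [h1]
      intro h
      exact h2 (Option.some.inj h)
  · intro z hz z' hz' h
    rw [Finset.mem_coe, mem_nb] at hz hz'
    apply hf.1
    rcases fr_nbr_inl hf ha hz with h1 | ⟨t, h1, h2⟩ <;>
      rcases fr_nbr_inl hf ha hz' with h1' | ⟨t', h1', h2'⟩ <;> simp only [h1, h1'] at h
    · rw [h1, h1']
    · cases h
    · cases h
    · rw [h1, h1', Option.some.inj h]

theorem fr_nbr_clo (hf : IsRb P.H (G B m) (chi B m) f) {a z : Fin k}
    {j : Option (Sym2 (Fin k))} {b : Bool} {y : {y : Fin k // P.isF y}} {t : Fin (P.a - 1)}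
    (ha : f a = Sum.inr (Core.clo j b y t)) (h : P.H.Adj a z) :
    (∃ y' : {y : Fin k // P.isN y}, f z = Sum.inr (Core.pet j b y') ∧ P.H.Adj y y') ∨
      f z = Sum.inr (Core.blob B.t0) ∨
      ∃ t', f z = Sum.inr (Core.clo j b y t') ∧ t' ≠ t := by
  have h1 := hf.2.1 a z h
  rw [ha] at h1
  rcases hz : f z with x | c
  · rw [hz] at h1
    rcases h1 with h1 | ⟨n, h1⟩ <;> exact absurd h1 id
  · rw [hz] at h1
    cases c with
    | hub => rcases h1 with h1 | ⟨n, h1⟩ <;> exact absurd h1 id
    | pet j' b' y' =>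
      rcases h1 with h1 | ⟨n, h1⟩
      · exact absurd h1 id
      · have h2 : j = j' ∧ b = b' ∧ P.H.Adj y y' ∧ n = _ := h1
        left
        refine ⟨y', ?_, h2.2.2.1⟩
        rw [h2.1, h2.2.1]
    | clo j' b' y' t' =>
      rcases h1 with h1 | ⟨n, h1⟩
      · have h2 : j = j' ∧ b = b' ∧ y = y' ∧ t ≠ t' := h1
        right
        right
        refine ⟨t', ?_, h2.2.2.2.symm⟩
        rw [h2.1, h2.2.1, h2.2.2.1]
      · exact absurd h1 id
    | blob t' =>
      rcases h1 with h1 | ⟨n, h1⟩
      · exact absurd h1 id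
      · have h2 : t' = B.t0 ∧ n = _ := h1
        right
        left
        rw [h2.1]

theorem fr_clo_leaf (hO : P.Ok) (hf : IsRb P.H (G B m) (chi B m) f) {a : Fin k}
    {j : Option (Sym2 (Fin k))} {b : Bool} {y : {y : Fin k // P.isF y}} {t : Fin (P.a - 1)}
    (ha : f a = Sum.inr (Core.clo j b y t)) : (nb P.H a).card = 1 := by
  classical
  apply hO.leaf
  have hc : ((Finset.univ : Finset (Option (Option (Fin (P.a - 1))))).erase
      (some (some t))).card = P.a := by
    rw [Finset.card_erase_of_mem (Finset.mem_univ _), Finset.card_univ, Fintype.card_option,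
      Fintype.card_option, Fintype.card_fin]
    have := hO.ha
    omega
  refine le_trans ?_ hc.le
  refine Finset.card_le_card_of_injOn
    (fun z => match f z with
      | Sum.inr (Core.clo _ _ _ t') => some (some t')
      | Sum.inr (Core.blob _) => some none
      | _ => none) ?_ ?_
  · intro z hz
    rw [Finset.mem_coe, mem_nb] at hz
    rw [Finset.mem_coe, Finset.mem_erase]
    refine ⟨?_, Finset.mem_univ _⟩
    rcases fr_nbr_clo hf ha hz with ⟨y', h1, h2⟩ | h1 | ⟨t', h1, h2⟩
    · simp only [h1]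
      exact fun h => nomatch h
    · simp only [h1]
      exact fun h => nomatch h
    · simp only [h1]
      intro h
      exact h2 (Option.some.inj (Option.some.inj h))
  · intro z hz z' hz' h
    rw [Finset.mem_coe, mem_nb] at hz hz'
    apply hf.1
    rcases fr_nbr_clo hf ha hz with ⟨y1, h1, h2⟩ | h1 | ⟨t1, h1, h2⟩ <;>
      rcases fr_nbr_clo hf ha hz' with ⟨y2, h1', h2'⟩ | h1' | ⟨t2, h1', h2'⟩ <;>
      simp only [h1, h1'] at h
    · have h3 : (y1 : Fin k) = y2 := Fold.leaf_unique y.2.2 h2 h2'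
      rw [h1, h1', Subtype.ext h3]
    · cases h
    · cases h
    · cases h
    · rw [h1, h1']
    · cases h
    · cases h
    · cases h
    · rw [h1, h1', Option.some.inj (Option.some.inj h)]

theorem fr_nbr_pend (hO : P.Ok) (hf : IsRb P.H (G B m) (chi B m) f) {a z : Fin k}
    {i : Fin m × Fin P.a} (ha : f a = Sum.inl i) (h : P.H.Adj a z) :
    f z = Sum.inr Core.hub := by
  rcases fr_nbr_inl hf ha h with h1 | ⟨t, h1, _⟩
  · exact h1
  · exact absurd (hO.ll h (fr_inl_leaf hO hf ha) (fr_inl_leaf hO hf h1)) id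

/-- edges of the copy away from the windmill -/
theorem fr_edge_E (hO : P.Ok) (hf : IsRb P.H (G B m) (chi B m) f) {a b : Fin k}
    (h : P.H.Adj a b) (ha : ∀ i, f a ≠ Sum.inl i) (hb : ∀ i, f b ≠ Sum.inl i) :
    ∃ n, E B m (f a) (f b) n := by
  rcases hf.2.1 a b h with h1 | h1
  · exfalso
    rcases hx : f a with x | x
    · exact ha x hx
    · rcases hy : f b with y | y
      · exact hb y hy
      · rw [hx, hy] at h1
        cases x with
        | hub => cases y <;> exact h1
        | pet j b y => cases y <;> exact h1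
        | blob t => cases y <;> exact h1
        | clo j1 b1 y1 t1 =>
          cases y with
          | hub => exact h1
          | pet j b y => exact h1
          | blob t => exact h1
          | clo j2 b2 y2 t2 =>
            exact hO.ll h (fr_clo_leaf hO hf hx) (fr_clo_leaf hO hf hy)
  · exact h1

/-- a copy uses the windmill -/
theorem fr_exists_pend (hO : P.Ok) (hf : IsRb P.H (G B m) (chi B m) f) :
    ∃ a i, f a = Sum.inl i := by
  classical
  by_contra hcon
  push Not at hcon
  have h1 : (ed P.H).card ≤ P.S0.card := by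
    refine Finset.card_le_card_of_injOn (fun e => chi B m (e.map f) / 2) ?_ ?_
    · intro e he
      rw [Finset.mem_coe, mem_ed] at he
      induction e using Sym2.ind with
      | h a b =>
        obtain ⟨n, hn⟩ := fr_edge_E hO hf he (hcon a) (hcon b)
        rw [Finset.mem_coe]
        simp only []
        rw [Sym2.map_mk, chi_E B m hn, Nat.mul_div_cancel_left _ (by norm_num)]
        exact fr_E_mem hO hn
    · intro e he e' he' h
      rw [Finset.mem_coe, mem_ed] at he he'
      induction e using Sym2.ind with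
      | h a b =>
        induction e' using Sym2.ind with
        | h c d =>
          obtain ⟨n, hn⟩ := fr_edge_E hO hf he (hcon a) (hcon b)
          obtain ⟨n', hn'⟩ := fr_edge_E hO hf he' (hcon c) (hcon d)
          simp only [] at h
          rw [Sym2.map_mk, chi_E B m hn, Nat.mul_div_cancel_left _ (by norm_num), Sym2.map_mk,
            chi_E B m hn', Nat.mul_div_cancel_left _ (by norm_num)] at h
          subst h
          exact fr_pair hf he he' hn hn'
  have h2 := fr_card_S0 hO
  omega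

/-- the shape of a copy -/
theorem fr_shape (hO : P.Ok) (hB : P.Bri) (hf : IsRb P.H (G B m) (chi B m) f) {u : Fin k}
    (hu : f u = Sum.inr Core.hub) (x : Fin k) : x = u ∨ (∃ i, f x = Sum.inl i) ∨
    (∃ j b y a a', At (f x) j b y ∧ P.H.Adj u a ∧
      E B m (f u) (f a) (P.col j s(P.w, a')) ∧ P.H.Adj P.w a' ∧ P.H0.Reachable a' y) := by
  have hr := hO.conn.preconnected u x
  rw [SimpleGraph.reachable_iff_reflTransGen] at hr
  induction hr with
  | refl => exact Or.inl rfl
  | @tail x z _ hxz ih =>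
    by_cases hzi : ∃ i, f z = Sum.inl i
    · exact Or.inr (Or.inl hzi)
    have hzi' : ∀ i, f z ≠ Sum.inl i := fun i h => hzi ⟨i, h⟩
    rcases ih with rfl | ⟨i, hi⟩ | ⟨j, b, y, a, a', hx, hua, hcol, hwa, hrea⟩
    · obtain ⟨n, hn⟩ := fr_edge_E hO hf hxz (by
        intro i h
        rw [hu] at h
        cases h) hzi'
      have hn' := hn
      rw [hu] at hn'
      rcases hz : f z with i | c
      · exact absurd hz (hzi' i)
      · rw [hz] at hn'
        cases c with
        | hub => exact absurd hn' id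
        | pet j b y =>
          have h2 : P.H.Adj P.w y ∧ n = P.col j s(P.w, (y : Fin k)) := hn'
          refine Or.inr (Or.inr ⟨j, b, y, z, y, Or.inl ⟨y.2, rfl⟩, hxz, ?_, h2.1,
            SimpleGraph.Reachable.refl _⟩)
          rw [← h2.2]
          exact hn
        | clo j b y t => exact absurd hn' id
        | blob t => exact absurd hn' id
    · left
      exact hf.1 ((fr_nbr_pend hO hf hi hxz).trans hu.symm)
    · obtain ⟨n, hn⟩ := fr_edge_E hO hf hxz (by
        intro i h
        rw [h] at hx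
        rcases hx with ⟨_, hx⟩ | ⟨_, _, hx⟩ <;> cases hx) hzi'
      rcases hz : f z with i | c
      · exact absurd hz (hzi' i)
      · cases c with
        | hub => exact Or.inl (hf.1 (hz.trans hu.symm))
        | pet j' b' y' =>
          have hz' : At (f z) j' b' y' := Or.inl ⟨y'.2, hz⟩
          obtain ⟨h3, h4, h5, _⟩ := hx.edge hz' hn
          subst h3
          rw [← hz]
          refine Or.inr (Or.inr ⟨j, b', y', a, a', hz', hua, hcol, hwa, hrea.trans ?_⟩)
          exact SimpleGraph.Adj.reachable ⟨h5, hx.isY.1, hz'.isY.1⟩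
        | clo j' b' y' t' =>
          have hz' : At (f z) j' b' y' := Or.inr ⟨y'.2, t', hz⟩
          obtain ⟨h3, h4, h5, _⟩ := hx.edge hz' hn
          subst h3
          rw [← hz]
          refine Or.inr (Or.inr ⟨j, b', y', a, a', hz', hua, hcol, hwa, hrea.trans ?_⟩)
          exact SimpleGraph.Adj.reachable ⟨h5, hx.isY.1, hz'.isY.1⟩
        | blob t =>
          exfalso
          have hn2 := hn
          rw [hz] at hn2
          have h3 := hx.ent hn2
          rw [fr_entcol_eq hB hwa hrea] at h3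
          subst h3
          have h4 := fr_pair hf hxz hua hn hcol
          rw [Sym2.eq_iff] at h4
          rcases h4 with ⟨h4, _⟩ | ⟨_, h4⟩
          · rw [h4, hu] at hx
            rcases hx with ⟨_, hx⟩ | ⟨_, _, hx⟩ <;> cases hx
          · rw [h4, hu] at hz
            cases hz

/-- the position of a vertex -/
def fpos (P : Pat k) (B : Blob P) (m : ℕ) (c : Vx P m B.s) : Fin k :=
  match c with
  | Sum.inr (Core.pet _ _ y) => y
  | Sum.inr (Core.clo _ _ y _) => y
  | _ => P.w

theorem At.pos {c : Vx P m B.s} {j : Option (Sym2 (Fin k))} {b : Bool} {y : Fin k}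
    (h : At c j b y) : fpos P B m c = y := by
  rcases h with ⟨_, rfl⟩ | ⟨_, _, rfl⟩ <;> rfl

/-- vertices of the copy on the windmill -/
noncomputable def fpd (P : Pat k) (B : Blob P) (m : ℕ) (f : Fin k → Vx P m B.s) :
    Finset (Fin k) := by
  classical exact Finset.univ.filter (fun a => ∃ i, f a = Sum.inl i)

theorem mem_fpd {a : Fin k} : a ∈ fpd P B m f ↔ ∃ i, f a = Sum.inl i := by
  classical
  simp [fpd]

/-- edges of the copy between positions -/
noncomputable def fEA (P : Pat k) (B : Blob P) (m : ℕ) (f : Fin k → Vx P m B.s) :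
    Finset (Sym2 (Fin k)) := by
  classical exact (ed P.H).filter (fun e => ∀ x ∈ e, x ∉ fpd P B m f)

theorem mem_fEA {a b : Fin k} : s(a, b) ∈ fEA P B m f ↔
    P.H.Adj a b ∧ a ∉ fpd P B m f ∧ b ∉ fpd P B m f := by
  classical
  simp [fEA, mem_ed]

theorem fEA_sub : fEA P B m f ⊆ ed P.H := by
  unfold fEA
  exact Finset.filter_subset _ _

/-- the images of the edges -/
noncomputable def fIE (P : Pat k) (B : Blob P) (m : ℕ) (f : Fin k → Vx P m B.s) :
    Finset (Sym2 (Fin k)) :=
  (fEA P B m f).image (Sym2.map fun x => fpos P B m (f x))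

/-- the images of the vertices -/
noncomputable def fIV (P : Pat k) (B : Blob P) (m : ℕ) (f : Fin k → Vx P m B.s) :
    Finset (Fin k) :=
  (Finset.univ \ fpd P B m f).image fun x => fpos P B m (f x)

/-- the structure of a copy through the hub -/
structure Cp (P : Pat k) (B : Blob P) (m : ℕ) (f : Fin k → Vx P m B.s) (u : Fin k) : Prop where
  ok : P.Ok
  bri : P.Bri
  rb : IsRb P.H (G B m) (chi B m) f
  hu : f u = Sum.inr Core.hub

namespace Cp

variable {u : Fin k} (C : Cp P B m f u)

include C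

theorem upd : u ∉ fpd P B m f := by
  rw [mem_fpd]
  rintro ⟨i, h⟩
  rw [C.hu] at h
  cases h

theorem cases {x : Fin k} (hx : x ∉ fpd P B m f) :
    x = u ∨ ∃ j b, At (f x) j b (fpos P B m (f x)) := by
  rcases fr_shape C.ok C.bri C.rb C.hu x with h | h | ⟨j, b, y, _, _, h, _⟩
  · exact Or.inl h
  · exact absurd (mem_fpd.2 h) hx
  · right
    refine ⟨j, b, ?_⟩
    rw [h.pos]
    exact h

theorem pos_u : fpos P B m (f u) = P.w := by
  rw [C.hu]
  rfl

theorem pos_w {x : Fin k} (hx : x ∉ fpd P B m f) (h : fpos P B m (f x) = P.w) : x = u := by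
  rcases C.cases hx with h1 | ⟨j, b, h1⟩
  · exact h1
  · exact absurd h h1.isY.1

theorem pos_mem {x : Fin k} (hx : x ∉ fpd P B m f) : fpos P B m (f x) ∈ P.Zs := by
  rcases C.cases hx with h1 | ⟨j, b, h1⟩
  · rw [h1, C.pos_u]
    exact w_mem_Zs C.ok
  · exact Y_mem_Zs h1.isY

/-- adjacency of positions and colours -/
theorem edge {x y : Fin k} (hx : x ∉ fpd P B m f) (hy : y ∉ fpd P B m f) (h : P.H.Adj x y) :
    P.H.Adj (fpos P B m (f x)) (fpos P B m (f y)) ∧
      ∃ j, E B m (f x) (f y) (P.col j s(fpos P B m (f x), fpos P B m (f y))) := by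
  have hx0 : ∀ i, f x ≠ Sum.inl i := fun i hi => hx (mem_fpd.2 ⟨i, hi⟩)
  have hy0 : ∀ i, f y ≠ Sum.inl i := fun i hi => hy (mem_fpd.2 ⟨i, hi⟩)
  obtain ⟨n, hn⟩ := fr_edge_E C.ok C.rb h hx0 hy0
  rcases C.cases hx with hx1 | ⟨j, b, hx1⟩
  · rcases C.cases hy with hy1 | ⟨j', b', hy1⟩
    · exact absurd (hx1.trans hy1.symm) h.ne
    · have hn2 := hn
      rw [hx1, C.hu] at hn2
      obtain ⟨h3, h4⟩ := hy1.hub hn2
      subst h4
      rw [hx1, C.pos_u]
      refine ⟨h3, j', ?_⟩
      rw [hx1] at hn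
      exact hn
  · rcases C.cases hy with hy1 | ⟨j', b', hy1⟩
    · have hn2 := E_symm B m hn
      rw [hy1, C.hu] at hn2
      obtain ⟨h3, h4⟩ := hx1.hub hn2
      subst h4
      rw [hy1, C.pos_u]
      refine ⟨h3.symm, j, ?_⟩
      rw [hy1] at hn
      rw [Sym2.eq_swap]
      exact hn
    · obtain ⟨h3, h4, h5, h6⟩ := hx1.edge hy1 hn
      subst h6
      exact ⟨h5, j, hn⟩

theorem pdL {a : Fin k} (ha : a ∈ fpd P B m f) : P.H.Adj u a ∧ ∀ x, P.H.Adj a x → x = u := by
  obtain ⟨i, hi⟩ := mem_fpd.1 ha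
  have h1 : ∀ x, P.H.Adj a x → x = u := fun x hx =>
    C.rb.1 ((fr_nbr_pend C.ok C.rb hi hx).trans C.hu.symm)
  obtain ⟨x, hx⟩ := C.ok.ex a
  have h2 := h1 x hx
  subst h2
  exact ⟨hx.symm, h1⟩

theorem pd_lf : fpd P B m f ⊆ lf P.H u := by
  intro a ha
  obtain ⟨h1, h2⟩ := C.pdL ha
  rw [mem_lf]
  refine ⟨h1, ?_⟩
  rw [Finset.card_eq_one]
  refine ⟨u, ?_⟩
  ext x
  rw [mem_nb, Finset.mem_singleton]
  constructor
  · exact h2 x
  · rintro rfl
    exact h1.symm

theorem card_EA : (ed P.H).card ≤ (fEA P B m f).card + (fpd P B m f).card := by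
  classical
  have h1 : ed P.H ⊆ fEA P B m f ∪ (fpd P B m f).image (fun a => s(u, a)) := by
    intro e he
    rw [mem_ed] at he
    induction e using Sym2.ind with
    | h a b =>
      have he' : P.H.Adj a b := he
      rw [Finset.mem_union, mem_fEA, Finset.mem_image]
      by_cases ha : a ∈ fpd P B m f
      · right
        refine ⟨a, ha, ?_⟩
        rw [(C.pdL ha).2 b he', Sym2.eq_swap]
      · by_cases hb : b ∈ fpd P B m f
        · right
          refine ⟨b, hb, ?_⟩
          rw [(C.pdL hb).2 a he'.symm]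
        · exact Or.inl ⟨he', ha, hb⟩
  refine (Finset.card_le_card h1).trans ((Finset.card_union_le _ _).trans ?_)
  exact Nat.add_le_add_left Finset.card_image_le _

/-- many vertices on the windmill -/
theorem card_pd : (lf P.H P.w).card + P.a ≤ (fpd P B m f).card := by
  classical
  have h1 := C.card_EA
  have h2 := card_EH C.ok
  have h3 : (fEA P B m f).card ≤ (insert 0 (P.EH.image Pool.Agent.Helper3.RT.Pat.beta)).card := by
    refine Finset.card_le_card_of_injOn (fun e => chi B m (e.map f) / 2) ?_ ?_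
    · intro e he
      induction e using Sym2.ind with
      | h a b =>
        rw [Finset.mem_coe, mem_fEA] at he
        obtain ⟨h4, j, h5⟩ := C.edge he.2.1 he.2.2 he.1
        rw [Finset.mem_coe, Finset.mem_insert, Finset.mem_image]
        simp only []
        rw [Sym2.map_mk, chi_E B m h5, Nat.mul_div_cancel_left _ (by norm_num)]
        unfold col
        split_ifs with h7
        · exact Or.inl rfl
        · right
          exact ⟨_, mem_EH.2 ⟨h4, C.pos_mem he.2.1, C.pos_mem he.2.2⟩, rfl⟩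
    · intro e he e' he' h
      induction e using Sym2.ind with
      | h a b =>
        induction e' using Sym2.ind with
        | h c d =>
          rw [Finset.mem_coe, mem_fEA] at he he'
          obtain ⟨_, j, h5⟩ := C.edge he.2.1 he.2.2 he.1
          obtain ⟨_, j', h6⟩ := C.edge he'.2.1 he'.2.2 he'.1
          simp only [] at h
          rw [Sym2.map_mk, chi_E B m h5, Nat.mul_div_cancel_left _ (by norm_num), Sym2.map_mk,
            chi_E B m h6, Nat.mul_div_cancel_left _ (by norm_num)] at h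
          rw [h] at h5
          exact fr_pair C.rb he.1 he'.1 h5 h6
  have h4 := Finset.card_insert_le 0 (P.EH.image Pool.Agent.Helper3.RT.Pat.beta)
  have h5 : (P.EH.image Pool.Agent.Helper3.RT.Pat.beta).card ≤ P.EH.card := Finset.card_image_le
  omega

theorem u_ne_w : u ≠ P.w := by
  intro h
  have h1 := C.card_pd
  have h2 := Finset.card_le_card C.pd_lf
  have h3 := C.ok.ha
  rw [h] at h2
  omega

/-- two edges with the same position -/
theorem edge_coll {a b c d : Fin k} (h1 : s(a, b) ∈ fEA P B m f) (h2 : s(c, d) ∈ fEA P B m f)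
    (h : s(fpos P B m (f a), fpos P B m (f b)) = s(fpos P B m (f c), fpos P B m (f d)))
    (hne1 : chi B m s(f a, f b) ≠ 0) (hne2 : chi B m s(f c, f d) ≠ 0) :
    s(a, b) = s(c, d) := by
  rw [mem_fEA] at h1 h2
  obtain ⟨_, j1, h3⟩ := C.edge h1.2.1 h1.2.2 h1.1
  obtain ⟨_, j2, h4⟩ := C.edge h2.2.1 h2.2.2 h2.1
  rw [chi_E B m h3] at hne1
  rw [chi_E B m h4] at hne2
  have h5 : P.col j1 s(fpos P B m (f a), fpos P B m (f b)) =
      P.col j2 s(fpos P B m (f c), fpos P B m (f d)) := by
    rw [h] at hne1 ⊢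
    unfold col at hne1 hne2 ⊢
    split_ifs at hne1 with h5
    · exact absurd rfl hne1
    · split_ifs at hne2 with h6
      · exact absurd rfl hne2
      · rw [if_neg h5, if_neg h6]
  rw [h5] at h3
  exact fr_pair C.rb h1.1 h2.1 h3 h4

theorem card_IE : (fEA P B m f).card ≤ (fIE P B m f).card + 1 := by
  classical
  have h1 : ((fEA P B m f).filter (fun e => chi B m (e.map f) = 0)).card ≤ 1 := by
    rw [Finset.card_le_one]
    intro e he e' he'
    rw [Finset.mem_filter] at he he'
    exact C.rb.2.2 e (mem_ed.1 (fEA_sub he.1)) e' (mem_ed.1 (fEA_sub he'.1))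
      (he.2.trans he'.2.symm)
  have h2 : ((fEA P B m f).filter (fun e => ¬ chi B m (e.map f) = 0)).card ≤
      (fIE P B m f).card := by
    refine Finset.card_le_card_of_injOn (Sym2.map fun x => fpos P B m (f x)) ?_ ?_
    · intro e he
      rw [Finset.mem_coe, Finset.mem_filter] at he
      exact Finset.mem_image_of_mem _ he.1
    · intro e he e' he' h
      rw [Finset.mem_coe, Finset.mem_filter] at he he'
      induction e using Sym2.ind with
      | h a b =>
        induction e' using Sym2.ind with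
        | h c d =>
          exact C.edge_coll he.1 he'.1 h he.2 he'.2
  have h3 := Finset.card_filter_add_card_filter_not (s := fEA P B m f)
    (fun e => chi B m (e.map f) = 0)
  omega

theorem IV_sub : fIV P B m f ⊆ P.Zs := by
  intro y hy
  unfold fIV at hy
  rw [Finset.mem_image] at hy
  obtain ⟨x, hx, rfl⟩ := hy
  rw [Finset.mem_sdiff] at hx
  exact C.pos_mem hx.2

theorem IE_sub : fIE P B m f ⊆ P.EH := by
  intro e he
  unfold fIE at he
  rw [Finset.mem_image] at he
  obtain ⟨e', he', rfl⟩ := he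
  induction e' using Sym2.ind with
  | h a b =>
    rw [mem_fEA] at he'
    rw [Sym2.map_mk, mem_EH]
    exact ⟨(C.edge he'.2.1 he'.2.2 he'.1).1, C.pos_mem he'.2.1, C.pos_mem he'.2.2⟩

theorem card_IV : P.Zs.card + (fIE P B m f).card ≤ (fIV P B m f).card + P.EH.card := by
  classical
  have hw : P.w ∈ fIV P B m f := by
    unfold fIV
    rw [Finset.mem_image]
    exact ⟨u, Finset.mem_sdiff.2 ⟨Finset.mem_univ _, C.upd⟩, C.pos_u⟩
  choose! nx hnx using fun x (hx : x ∈ P.Zs ∧ x ≠ P.w) => fr_next C.ok hx.1 hx.2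
  have hne : ∀ x ∈ P.Zs \ fIV P B m f, x ∈ P.Zs ∧ x ≠ P.w := by
    intro x hx
    rw [Finset.mem_sdiff] at hx
    refine ⟨hx.1, ?_⟩
    rintro rfl
    exact hx.2 hw
  have h1 : (P.Zs \ fIV P B m f).card ≤ (P.EH \ fIE P B m f).card := by
    refine Finset.card_le_card_of_injOn (fun x => s(x, nx x)) ?_ ?_
    · intro x hx
      have h2 := hnx x (hne x hx)
      rw [Finset.mem_coe, Finset.mem_sdiff]
      refine ⟨mem_EH.2 ⟨h2.1, (hne x hx).1, h2.2.1⟩, ?_⟩
      intro h3
      unfold fIE at h3
      rw [Finset.mem_image] at h3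
      obtain ⟨e, he, h4⟩ := h3
      rw [Finset.mem_coe, Finset.mem_sdiff] at hx
      apply hx.2
      induction e using Sym2.ind with
      | h a b =>
        rw [mem_fEA] at he
        rw [Sym2.map_mk] at h4
        have h5 : x ∈ s(fpos P B m (f a), fpos P B m (f b)) := by
          rw [h4]
          simp
        rw [Sym2.mem_iff] at h5
        unfold fIV
        rw [Finset.mem_image]
        rcases h5 with h5 | h5
        · exact ⟨a, Finset.mem_sdiff.2 ⟨Finset.mem_univ _, he.2.1⟩, h5.symm⟩
        · exact ⟨b, Finset.mem_sdiff.2 ⟨Finset.mem_univ _, he.2.2⟩, h5.symm⟩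
    · intro x hx y hy h
      by_contra hxy
      have h2 := (hnx x (hne x hx)).2.2
      have h3 := (hnx y (hne y hy)).2.2
      simp only [] at h
      rw [Sym2.eq_iff] at h
      rcases h with ⟨h, _⟩ | ⟨h, h4⟩
      · exact hxy h
      · rw [h4] at h2
        rw [← h] at h3
        omega
  have h2 := Finset.card_sdiff_add_card_eq_card C.IV_sub
  have h3 := Finset.card_sdiff_add_card_eq_card C.IE_sub
  omega

theorem card_dom : (Finset.univ \ fpd P B m f : Finset (Fin k)).card + (fpd P B m f).card = k := by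
  rw [Finset.card_sdiff_add_card_eq_card (Finset.subset_univ _), Finset.card_univ,
    Fintype.card_fin]

theorem card_bound : (Finset.univ \ fpd P B m f : Finset (Fin k)).card ≤
    (fIV P B m f).card + 1 := by
  have h1 := C.card_dom
  have h2 := C.card_IV
  have h3 := C.card_IE
  have h4 := C.card_EA
  have h5 := card_EH C.ok
  have h6 := card_Zs C.ok
  omega

/-- if two vertices have the same position then two edges have the same position -/
theorem exists_edge_coll
    (h : (fIV P B m f).card < (Finset.univ \ fpd P B m f : Finset (Fin k)).card) :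
    ∃ a b c d, s(a, b) ∈ fEA P B m f ∧ s(c, d) ∈ fEA P B m f ∧ s(a, b) ≠ s(c, d) ∧
      fpos P B m (f a) = fpos P B m (f c) ∧ fpos P B m (f b) = fpos P B m (f d) := by
  classical
  have h0 : (fIE P B m f).card < (fEA P B m f).card := by
    have h1 := C.card_dom
    have h2 := C.card_IV
    have h4 := C.card_EA
    have h5 := card_EH C.ok
    have h6 := card_Zs C.ok
    omega
  unfold fIE at h0
  obtain ⟨e, he, e', he', hne, h1⟩ := Finset.exists_ne_map_eq_of_card_lt_of_maps_to h0
    (fun e he => Finset.mem_image_of_mem _ he)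
  induction e using Sym2.ind with
  | h a b =>
    induction e' using Sym2.ind with
    | h c d =>
      rw [Sym2.map_mk, Sym2.map_mk, Sym2.eq_iff] at h1
      rcases h1 with ⟨h1, h2⟩ | ⟨h1, h2⟩
      · exact ⟨a, b, c, d, he, he', hne, h1, h2⟩
      · refine ⟨a, b, d, c, he, ?_, ?_, h1, h2⟩
        · rw [Sym2.eq_swap]
          exact he'
        · rw [Sym2.eq_swap (a := d)]
          exact hne

/-- common neighbours of two vertices with the same position -/
theorem common {a a' n : Fin k} (ha : a ∉ fpd P B m f) (ha' : a' ∉ fpd P B m f) (hne : a ≠ a')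
    (h : fpos P B m (f a) = fpos P B m (f a')) (hn : P.H.Adj n a) (hn' : P.H.Adj n a') :
    n = u := by
  by_contra hnu
  have hau : a ≠ u := by
    rintro rfl
    rw [C.pos_u] at h
    exact hne (C.pos_w ha' h.symm).symm
  have hau' : a' ≠ u := by
    rintro rfl
    rw [C.pos_u] at h
    exact hne (C.pos_w ha h)
  have hnpd : n ∉ fpd P B m f := fun h1 => hau ((C.pdL h1).2 a hn)
  rcases C.cases hnpd with h1 | ⟨j, b, h1⟩
  · exact hnu h1
  · rcases C.cases ha with h3 | ⟨j1, b1, h3⟩
    · exact hau h3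
    · rcases C.cases ha' with h5 | ⟨j2, b2, h5⟩
      · exact hau' h5
      · have hpd0 : ∀ x, x ∉ fpd P B m f → ∀ i, f x ≠ Sum.inl i :=
          fun x hx i hi => hx (mem_fpd.2 ⟨i, hi⟩)
        obtain ⟨n1, e1⟩ := fr_edge_E C.ok C.rb hn (hpd0 _ hnpd) (hpd0 _ ha)
        obtain ⟨n2, e2⟩ := fr_edge_E C.ok C.rb hn' (hpd0 _ hnpd) (hpd0 _ ha')
        obtain ⟨g1, g2, _, g4⟩ := h1.edge h3 e1
        obtain ⟨g1', g2', _, g4'⟩ := h1.edge h5 e2
        rw [← h] at g4'
        rw [g4] at e1
        rw [g4'] at e2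
        have h9 := fr_pair C.rb hn hn' e1 e2
        rw [Sym2.congr_right] at h9
        exact hne h9

/-- the coincidences of positions -/
theorem coll {a a' : Fin k} (ha : a ∉ fpd P B m f) (ha' : a' ∉ fpd P B m f) (hne : a ≠ a')
    (h : fpos P B m (f a) = fpos P B m (f a')) : P.H.Adj u a ∧ P.H.Adj u a' ∧
    (∀ n, P.H.Adj n a → P.H.Adj n a' → n = u) ∧
    ∀ c c', c ∉ fpd P B m f → c' ∉ fpd P B m f → c ≠ c' →
      fpos P B m (f c) = fpos P B m (f c') → (c = a ∧ c' = a') ∨ (c = a' ∧ c' = a) := by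
  classical
  have hinj : ∀ b b', b ∉ fpd P B m f → b' ∉ fpd P B m f → b ≠ b' →
      fpos P B m (f b) = fpos P B m (f b') →
      ∀ c c', c ∉ fpd P B m f → c' ∉ fpd P B m f → c ≠ c' →
        fpos P B m (f c) = fpos P B m (f c') → c = b ∨ c' = b := by
    intro b b' hb hb' hbb he c c' hc hc' hcc he'
    by_contra hcon
    push Not at hcon
    have h1 : ((Finset.univ \ fpd P B m f).erase b).image (fun x => fpos P B m (f x)) =
        fIV P B m f := by
      unfold fIV
      apply Finset.Subset.antisymm (Finset.image_subset_image (Finset.erase_subset _ _))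
      intro y hy
      rw [Finset.mem_image] at hy ⊢
      obtain ⟨x, hx, rfl⟩ := hy
      by_cases hxb : x = b
      · refine ⟨b', ?_, ?_⟩
        · rw [Finset.mem_erase, Finset.mem_sdiff]
          exact ⟨Ne.symm hbb, Finset.mem_univ _, hb'⟩
        · rw [hxb]
          exact he.symm
      · exact ⟨x, Finset.mem_erase.2 ⟨hxb, hx⟩, rfl⟩
    have h2 : ((Finset.univ \ fpd P B m f).erase b).card + 1 =
        (Finset.univ \ fpd P B m f).card :=
      Finset.card_erase_add_one (Finset.mem_sdiff.2 ⟨Finset.mem_univ _, hb⟩)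
    have h3 := C.card_bound
    have h4 : (((Finset.univ \ fpd P B m f).erase b).image (fun x => fpos P B m (f x))).card =
        ((Finset.univ \ fpd P B m f).erase b).card := by
      apply le_antisymm Finset.card_image_le
      rw [h1]
      omega
    rw [Finset.card_image_iff] at h4
    apply hcc
    refine h4 ?_ ?_ he'
    · rw [Finset.mem_coe, Finset.mem_erase, Finset.mem_sdiff]
      exact ⟨hcon.1, Finset.mem_univ _, hc⟩
    · rw [Finset.mem_coe, Finset.mem_erase, Finset.mem_sdiff]
      exact ⟨hcon.2, Finset.mem_univ _, hc'⟩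
  have huniq : ∀ c c', c ∉ fpd P B m f → c' ∉ fpd P B m f → c ≠ c' →
      fpos P B m (f c) = fpos P B m (f c') → (c = a ∧ c' = a') ∨ (c = a' ∧ c' = a) := by
    intro c c' hc hc' hcc he'
    have h1 := hinj a a' ha ha' hne h c c' hc hc' hcc he'
    have h2 := hinj a' a ha' ha (Ne.symm hne) h.symm c c' hc hc' hcc he'
    rcases h1 with h1 | h1
    · rcases h2 with h2 | h2
      · exact absurd (h1.symm.trans h2) hne
      · exact Or.inl ⟨h1, h2⟩
    · rcases h2 with h2 | h2
      · exact Or.inr ⟨h2, h1⟩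
      · exact absurd (h1.symm.trans h2) hne
  have hcom : ∀ n, P.H.Adj n a → P.H.Adj n a' → n = u := fun n hn hn' =>
    C.common ha ha' hne h hn hn'
  have hlt : (fIV P B m f).card < (Finset.univ \ fpd P B m f : Finset (Fin k)).card := by
    unfold fIV
    apply lt_of_le_of_ne Finset.card_image_le
    intro h4
    rw [Finset.card_image_iff] at h4
    apply hne
    exact h4 (by simpa using ha) (by simpa using ha') h
  obtain ⟨x1, y1, x2, y2, he1, he2, hee, hx, hy⟩ := C.exists_edge_coll hlt
  rw [mem_fEA] at he1 he2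
  have key : ∀ n, P.H.Adj n a → P.H.Adj n a' → P.H.Adj u a ∧ P.H.Adj u a' := by
    intro n h1 h2
    have h3 := hcom n h1 h2
    rw [h3] at h1 h2
    exact ⟨h1, h2⟩
  have hua : P.H.Adj u a ∧ P.H.Adj u a' := by
    by_cases hxx : x1 = x2
    · have hyy : y1 ≠ y2 := by
        rintro rfl
        exact hee (by rw [hxx])
      rcases huniq y1 y2 he1.2.2 he2.2.2 hyy hy with ⟨h1, h2⟩ | ⟨h1, h2⟩
      · apply key x1
        · rw [← h1]
          exact he1.1
        · rw [← h2, hxx]
          exact he2.1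
      · apply key x1
        · rw [← h2, hxx]
          exact he2.1
        · rw [← h1]
          exact he1.1
    · rcases huniq x1 x2 he1.2.1 he2.2.1 hxx hx with ⟨h1, h2⟩ | ⟨h1, h2⟩
      · by_cases hyy : y1 = y2
        · apply key y1
          · rw [← h1]
            exact he1.1.symm
          · rw [← h2, hyy]
            exact he2.1.symm
        · exfalso
          rcases huniq y1 y2 he1.2.2 he2.2.2 hyy hy with ⟨h3, h4⟩ | ⟨h3, h4⟩
          · exact he1.1.ne (h1.trans h3.symm)
          · apply hee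
            rw [h1, h2, h3, h4, Sym2.eq_swap]
      · by_cases hyy : y1 = y2
        · apply key y1
          · rw [← h2, hyy]
            exact he2.1.symm
          · rw [← h1]
            exact he1.1.symm
        · exfalso
          rcases huniq y1 y2 he1.2.2 he2.2.2 hyy hy with ⟨h3, h4⟩ | ⟨h3, h4⟩
          · apply hee
            rw [h1, h2, h3, h4, Sym2.eq_swap]
          · exact he1.1.ne (h1.trans h3.symm)
  exact ⟨hua.1, hua.2, hcom, huniq⟩

end Cp

end copy

variable {P : Pat k} (B : Blob P) (m : ℕ)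

/-- piece `ML-B2`. Proof (an adaptation of `Helper3/RT/Free.lean`, `Free2.lean`). Let `f` be a rainbow
copy. (1) the vertices `inl x` and `clo` have degree `a` in `G` (for `clo`: one parent, `blob t0`, `a - 2`
mates), so their roles are leaves (`Ok.deg`), and the neighbour of a leaf is a non-leaf (`leaf_leaf`,
`3 ≤ k`), so no edge of the copy joins two vertices `inl`, or two vertices `clo`: the only private colours
in the copy are those of the edges `inl x -- hub`, all other edges are of type `E` with colour `2 * n`,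
`n ∈ S0`. (2) a copy which does not use `hub` uses no vertex `inl`, hence has all colours in `S0` and
`S0.card < (ed H).card`: contradiction. (3) if `hub = f u`, then the copy does not use the blob: walk in
`H` from `u`, as in `Helper3.RT.Pat.shape`: the first edge `hub -- pet j b a'` has the colour
`col j s(w, a')` and the edge into the blob would have the same colour `entcol j y` (`Bri`).
(4) `pos`: hub to `w`, `pet j b y` and `clo j b y t` to `y`; two clones of the same leaf are not both
used, since both would hang at the same parent with the same colour. Then the lemmas of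
`Helper3.RT.Pat.Cp` and the counting `card_bound` go through with
`Zs = univ \ ({v} ∪ lf v ∪ lf w)`, `Zs.card + 1 + a + (lf w).card = k`,
`EH.card + 1 + a + (lf w).card = (ed H).card`, and `Fold.contra` finishes; `Fold` (in
`Helper3/RT/Danger.lean`) has a field `nv` which is not needed: copy the structure and the proof without
it (the only use of `nv`, in `Fold.final`, is superfluous: `u = v` contradicts `av`). -/
theorem free (hO : P.Ok) (hB : P.Bri) (hN : P.Nex) : ¬ Rb P.H (G B m) (chi B m) := by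
  rintro ⟨f, hf⟩
  obtain ⟨a, i, hai⟩ := fr_exists_pend hO hf
  obtain ⟨u, hu⟩ := hO.ex a
  have C : Cp P B m f u := ⟨hO, hB, hf, fr_nbr_pend hO hf hai hu⟩
  have F : Pool.Agent.Helper28.ML.Fold2 P.H P.w P.v P.l u (fpd P B m f)
      (fun x => fpos P B m (f x)) :=
    { adj_wv := hO.adj_wv
      adj_vl := hO.adj_vl
      wl := hO.wl
      nlw := hO.nlw
      hL := fun a ha => C.pdL ha
      hom := fun x y hx hy h => (C.edge hx hy h).1
      phu := C.pos_u
      huw := C.u_ne_w
      av := fun a ha => (mem_Zs.1 (C.pos_mem ha)).1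
      alf := fun a ha => (mem_Zs.1 (C.pos_mem ha)).2.2
      coll := fun a a' ha ha' hne h => C.coll ha ha' hne h
      bri := hB
      hN := hN
      conn := hO.conn }
  exact F.contra

end Pat

end Pool.Agent.Helper29.ML
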