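import Pool.Agent.Helper3.RT.Free
import Pool.Agent.Helper29.ML.Amp

/-! Rainbow saturation: tools for windmill constructions (MP_e4665f_co). -/

set_option autoImplicit false

namespace Pool.Agent.Helper29.ML

open SimpleGraph Pool.Agent.Helper28.RS Pool.Agent.Helper3.RT

variable {k : ℕ} {H : SimpleGraph (Fin k)}

/-- a convenient way to produce a rainbow copy which uses the new edge -/
theorem mkRb {V : Type*} [DecidableEq V] {G : SimpleGraph V} {χ : Sym2 V → ℕ} {x y : V}
    (hxy : x ≠ y) {c : ℕ} {f : Fin k → V} (hinj : Function.Injective f) {a0 b0 : Fin k}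
    (ha : f a0 = x) (hb : f b0 = y) (C : Sym2 (Fin k) → ℕ → Prop) (hC0 : C s(a0, b0) c)
    (hG : ∀ e ∈ H.edgeSet, e ≠ s(a0, b0) → ∃ a b, e = s(a, b) ∧ G.Adj (f a) (f b) ∧
      C e (χ s(f a, f b)))
    (hC : ∀ e e' n, C e n → C e' n → e = e') :
    Rb H (G ⊔ fromEdgeSet {s(x, y)}) (Function.update χ s(x, y) c) := by
  have hmap : ∀ e, e.map f = s(x, y) → e = s(a0, b0) := by
    intro e he
    have h1 : e.map f = Sym2.map f s(a0, b0) := by rw [he, Sym2.map_mk, ha, hb]
    exact Sym2.map.injective hinj h1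
  have key : ∀ e ∈ H.edgeSet, C e (Function.update χ s(x, y) c (e.map f)) := by
    intro e he
    by_cases h1 : e = s(a0, b0)
    · have h2 : e.map f = s(x, y) := by rw [h1, Sym2.map_mk, ha, hb]
      rw [h2, Function.update_self, h1]
      exact hC0
    · rw [Function.update_of_ne (fun h2 => h1 (hmap e h2))]
      obtain ⟨a, b, h2, _, h3⟩ := hG e he h1
      rw [h2] at h3 ⊢
      exact h3
  refine ⟨f, hinj, ?_, ?_⟩
  · intro a b hab
    rw [adj_sup_edge hxy]
    by_cases h1 : s(a, b) = s(a0, b0)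
    · right
      rw [← Sym2.map_mk f a b, h1, Sym2.map_mk, ha, hb]
    · left
      obtain ⟨a', b', h2, h3, _⟩ := hG s(a, b) hab h1
      rw [Sym2.eq_iff] at h2
      rcases h2 with ⟨h2, h4⟩ | ⟨h2, h4⟩
      · rw [h2, h4]
        exact h3
      · rw [h2, h4]
        exact h3.symm
  · intro e he e' he' h
    have h1 := key e he
    rw [h] at h1
    exact hC _ _ _ h1 (key e' he')

/-- an injective colouring of a small set which avoids one colour -/
theorem exists_inj_avoid {α : Type*} [Finite α] (S : Set α) {N : ℕ} (h : S.ncard + 1 ≤ N)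
    (n0 : Fin N) : ∃ g : α → Fin N, Set.InjOn g S ∧ ∀ x ∈ S, g x ≠ n0 := by
  have : Nonempty (Fin N) := ⟨n0⟩
  obtain ⟨g, hg1, hg2⟩ := Set.Finite.exists_injOn_of_encard_le (s := S)
    (t := ({n0}ᶜ : Set (Fin N))) (Set.toFinite _) (by
      rw [← Set.Finite.cast_ncard_eq (Set.toFinite S),
        ← Set.Finite.cast_ncard_eq (Set.toFinite ({n0}ᶜ : Set (Fin N)))]
      have h1 := Set.ncard_add_ncard_compl ({n0} : Set (Fin N))
      rw [Set.ncard_singleton, Nat.card_eq_fintype_card, Fintype.card_fin] at h1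
      have h2 : S.ncard ≤ ({n0}ᶜ : Set (Fin N)).ncard := by omega
      exact_mod_cast h2)
  exact ⟨g, hg2, fun x hx h => hg1 hx h⟩

/-- a palette: private edges `F` and edges `E` with prescribed colours -/
structure Pal (V : Type*) where
  E : V → V → ℕ → Prop
  F : V → V → Prop
  Es : ∀ x y n, E x y n → E y x n
  Fs : ∀ x y, F x y → F y x
  ef : ∀ x y n, E x y n → ¬ F x y
  Ei : ∀ x n, ¬ E x x n
  Fi : ∀ x, ¬ F x x
  Ef : ∀ x y n n', E x y n → E x y n' → n = n'

namespace Pal

variable {V : Type*} (D : Pal V)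

/-- the graph -/
def G : SimpleGraph V where
  Adj x y := D.F x y ∨ ∃ n, D.E x y n
  symm := ⟨fun x y h => h.imp (D.Fs x y) fun ⟨n, hn⟩ => ⟨n, D.Es x y n hn⟩⟩
  loopless := ⟨fun x h => h.elim (D.Fi x) fun ⟨n, hn⟩ => D.Ei x n hn⟩

variable [Finite V]

/-- the private colours -/
noncomputable def idx (_D : Pal V) (e : Sym2 V) : ℕ := (Finite.equivFin (Sym2 V) e).val

theorem idx_inj {e e' : Sym2 V} (h : D.idx e = D.idx e') : e = e' :=
  (Finite.equivFin _).injective (Fin.ext h)

/-- the colouring: private colours are odd, the others are even -/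
noncomputable def chi (e : Sym2 V) : ℕ := by
  classical
  exact if h : ∃ x y n, e = s(x, y) ∧ D.E x y n then 2 * h.choose_spec.choose_spec.choose
    else 2 * D.idx e + 1

theorem chi_E {x y : V} {n : ℕ} (h : D.E x y n) : D.chi s(x, y) = 2 * n := by
  classical
  have key : ∀ x' y' n', s(x, y) = s(x', y') → D.E x' y' n' → n' = n := by
    intro x' y' n' h1 h2
    rcases Sym2.eq_iff.1 h1 with ⟨rfl, rfl⟩ | ⟨rfl, rfl⟩
    · exact D.Ef _ _ _ _ h2 h
    · exact D.Ef _ _ _ _ h2 (D.Es _ _ _ h)
  have hex : ∃ x' y' n, s(x, y) = s(x', y') ∧ D.E x' y' n := ⟨x, y, n, rfl, h⟩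
  unfold chi
  rw [dif_pos hex]
  have h1 := hex.choose_spec.choose_spec.choose_spec
  rw [key _ _ _ h1.1 h1.2]

theorem chi_F {x y : V} (h : D.F x y) : D.chi s(x, y) = 2 * D.idx s(x, y) + 1 := by
  classical
  unfold chi
  rw [dif_neg]
  rintro ⟨x', y', n, h1, h2⟩
  rcases Sym2.eq_iff.1 h1 with ⟨rfl, rfl⟩ | ⟨rfl, rfl⟩
  · exact D.ef _ _ _ h2 h
  · exact D.ef _ _ _ h2 (D.Fs _ _ h)

end Pal

/-- the number of edges of a windmill with a bounded part -/
theorem wind_card {m a : ℕ} {C : Type*} [Finite C] (G : SimpleGraph ((Fin m × Fin a) ⊕ C)) (hub : C)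
    (h1 : ∀ x y, G.Adj (Sum.inl x) (Sum.inl y) → x.1 = y.1)
    (h2 : ∀ x c, G.Adj (Sum.inl x) (Sum.inr c) → c = hub) :
    2 * G.edgeSet.ncard ≤ (a + 1) * (a * m) + 2 * Nat.card (Sym2 C) := by
  classical
  set T : Finset (Sym2 (Fin a)) := Finset.univ.filter (fun z => ¬ z.IsDiag) with hT
  have hTc : 2 * T.card = a * (a - 1) := by
    have h3 : T.card = a.choose 2 := by
      rw [hT, ← Fintype.card_subtype, Sym2.card_subtype_not_diag, Fintype.card_fin]
    rw [h3, Nat.choose_two_right]
    exact Nat.mul_div_cancel' (Nat.even_mul_pred_self a).two_dvd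
  set S1 : Set (Sym2 ((Fin m × Fin a) ⊕ C)) :=
    (fun x : Fin m × Fin a => s(Sum.inl x, Sum.inr hub)) '' Set.univ with hS1
  set S2 : Set (Sym2 ((Fin m × Fin a) ⊕ C)) :=
    (fun p : Fin m × Sym2 (Fin a) => p.2.map (fun s => Sum.inl (p.1, s))) ''
      ((Finset.univ ×ˢ T : Finset (Fin m × Sym2 (Fin a))) : Set (Fin m × Sym2 (Fin a))) with hS2
  set S3 : Set (Sym2 ((Fin m × Fin a) ⊕ C)) :=
    (fun d : Sym2 C => d.map Sum.inr) '' Set.univ with hS3
  have h3 : G.edgeSet ⊆ S1 ∪ S2 ∪ S3 := by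
    intro e he
    induction e using Sym2.ind with
    | h x y =>
      have hxy : G.Adj x y := he
      rcases x with x | x <;> rcases y with y | y
      · left; right
        refine ⟨(x.1, s(x.2, y.2)), ?_, ?_⟩
        · rw [Finset.mem_coe, Finset.mem_product, hT, Finset.mem_filter]
          refine ⟨Finset.mem_univ _, Finset.mem_univ _, ?_⟩
          intro h4
          rw [Sym2.mk_isDiag_iff] at h4
          exact hxy.ne (congrArg Sum.inl (Prod.ext (h1 x y hxy) h4))
        · have h5 : (x.1, y.2) = y := Prod.ext (h1 x y hxy) rfl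
          show s(Sum.inl (x.1, x.2), Sum.inl (x.1, y.2)) = s(Sum.inl x, Sum.inl y)
          rw [h5]
      · left; left
        refine ⟨x, Set.mem_univ _, ?_⟩
        rw [h2 x y hxy]
      · left; left
        refine ⟨y, Set.mem_univ _, ?_⟩
        rw [h2 y x hxy.symm, Sym2.eq_swap]
      · right
        exact ⟨s(x, y), Set.mem_univ _, rfl⟩
  have c1 : S1.ncard ≤ m * a := by
    refine (Set.ncard_image_le (Set.toFinite _)).trans ?_
    rw [Set.ncard_univ, Nat.card_eq_fintype_card, Fintype.card_prod, Fintype.card_fin,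
      Fintype.card_fin]
  have c2 : S2.ncard ≤ m * T.card := by
    refine (Set.ncard_image_le (Set.toFinite _)).trans ?_
    rw [Set.ncard_coe_finset, Finset.card_product, Finset.card_univ, Fintype.card_fin]
  have c3 : S3.ncard ≤ Nat.card (Sym2 C) := by
    refine (Set.ncard_image_le (Set.toFinite _)).trans ?_
    rw [Set.ncard_univ]
  have c4 : G.edgeSet.ncard ≤ m * a + m * T.card + Nat.card (Sym2 C) := by
    refine (Set.ncard_le_ncard h3 (Set.toFinite _)).trans ?_
    refine (Set.ncard_union_le _ _).trans (Nat.add_le_add ?_ c3)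
    exact (Set.ncard_union_le _ _).trans (Nat.add_le_add c1 c2)
  have c5 : 2 * (m * a + m * T.card) = (a + 1) * (a * m) := by
    have h5 : 2 * (m * a + m * T.card) = 2 * (m * a) + m * (2 * T.card) := by ring
    rw [h5, hTc]
    rcases Nat.eq_zero_or_pos a with h0 | h0
    · rw [h0]; simp
    · obtain ⟨b, rfl⟩ : ∃ b, a = b + 1 := ⟨a - 1, by omega⟩
      rw [Nat.add_sub_cancel]
      ring
  omega

/-- edges at a vertex -/
theorem card_ed_at (H : SimpleGraph (Fin k)) (u : Fin k) :
    ((ed H).filter (fun e => u ∉ e)).card + (nb H u).card = (ed H).card := by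
  classical
  have h1 : ((ed H).filter (fun e => u ∈ e)) = (nb H u).image (fun x => s(u, x)) := by
    ext e
    rw [Finset.mem_filter, Finset.mem_image, mem_ed]
    constructor
    · rintro ⟨h1, h2⟩
      induction e using Sym2.ind with
      | h x y =>
        rw [Sym2.mem_iff] at h2
        rcases h2 with rfl | rfl
        · exact ⟨y, mem_nb.2 h1, rfl⟩
        · exact ⟨x, mem_nb.2 (SimpleGraph.Adj.symm h1), Sym2.eq_swap⟩
    · rintro ⟨x, hx, rfl⟩
      exact ⟨mem_nb.1 hx, by simp⟩
  have h2 : ((ed H).filter (fun e => u ∈ e)).card = (nb H u).card := by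
    rw [h1, Finset.card_image_of_injective]
    intro x y h
    exact Sym2.congr_right.1 h
  have h3 := Finset.card_filter_add_card_filter_not (s := ed H) (fun e => u ∈ e)
  omega

theorem card_ed_at2 (H : SimpleGraph (Fin k)) {u v : Fin k} (huv : H.Adj u v) :
    ((ed H).filter (fun e => u ∉ e ∧ v ∉ e)).card + (nb H u).card + (nb H v).card =
      (ed H).card + 1 := by
  classical
  have h1 : ((ed H).filter (fun e => u ∉ e ∧ v ∈ e)) =
      ((nb H v).erase u).image (fun x => s(v, x)) := by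
    ext e
    rw [Finset.mem_filter, Finset.mem_image, mem_ed]
    constructor
    · rintro ⟨h1, h2, h3⟩
      induction e using Sym2.ind with
      | h x y =>
        rw [Sym2.mem_iff] at h2 h3
        push Not at h2
        rcases h3 with rfl | rfl
        · exact ⟨y, Finset.mem_erase.2 ⟨Ne.symm h2.2, mem_nb.2 h1⟩, rfl⟩
        · exact ⟨x, Finset.mem_erase.2 ⟨Ne.symm h2.1, mem_nb.2 (SimpleGraph.Adj.symm h1)⟩,
            Sym2.eq_swap⟩
    · rintro ⟨x, hx, rfl⟩
      rw [Finset.mem_erase, mem_nb] at hx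
      refine ⟨hx.2, ?_, by simp⟩
      rw [Sym2.mem_iff]
      push Not
      exact ⟨huv.ne, Ne.symm hx.1⟩
  have h2 : ((ed H).filter (fun e => u ∉ e ∧ v ∈ e)).card + 1 = (nb H v).card := by
    rw [h1, Finset.card_image_of_injective]
    · exact Finset.card_erase_add_one (mem_nb.2 huv.symm)
    · intro x y h
      exact Sym2.congr_right.1 h
  have h3 := Finset.card_filter_add_card_filter_not (s := (ed H).filter (fun e => u ∉ e))
    (fun e => v ∈ e)
  rw [Finset.filter_filter, Finset.filter_filter] at h3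
  have h4 := card_ed_at H u
  omega

theorem ncard_edgeSet (H : SimpleGraph (Fin k)) : H.edgeSet.ncard = (ed H).card := by
  classical
  rw [← Set.ncard_coe_finset]
  congr 1
  ext e
  rw [Finset.mem_coe, mem_ed]

end Pool.Agent.Helper29.ML
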