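import Pool.Agent.Helper29.ML.B2
import Pool.Agent.Helper29.ML.Wind

/-! The petal construction: edges at windmill vertices in a colour which is new there
(MP_e4665f_co). -/

set_option autoImplicit false

namespace Pool.Agent.Helper29.ML

open SimpleGraph Pool.Agent.Helper28.RS Pool.Agent.Helper3.RT

variable {k : ℕ}

namespace Pat

variable {P : Pat k} (B : Blob P) (m : ℕ)

/-- a petal copy which avoids the colour `c` -/
private theorem exists_j3 (P : Pat k) (c : ℕ) :
    ∃ j, ∀ e, e ≠ s(P.w, P.v) → 2 * P.col j e ≠ c := by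
  by_cases h : ∃ e0 : Sym2 (Fin k), 2 * Pool.Agent.Helper3.RT.Pat.beta e0 = c
  · obtain ⟨e0, rfl⟩ := h
    refine ⟨some e0, fun e he h1 => ?_⟩
    have h3 : P.col (some e0) e = Pool.Agent.Helper3.RT.Pat.beta e0 := by omega
    unfold col at h3
    split_ifs at h3 with h2
    · exact Pool.Agent.Helper3.RT.Pat.beta_pos _ h3.symm
    · exact h2 (Or.inr (by rw [Pool.Agent.Helper3.RT.Pat.beta_inj h3]))
  · refine ⟨none, fun e he h1 => ?_⟩
    unfold col at h1
    rw [if_neg (by
      rintro (h2 | h2)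
      · exact he h2
      · cases h2)] at h1
    exact h ⟨e, h1⟩

private theorem col_inj3 {j : Option (Sym2 (Fin k))} {e e' : Sym2 (Fin k)}
    (he : e ≠ s(P.w, P.v)) (he' : e' ≠ s(P.w, P.v)) (h : P.col j e = P.col j e') : e = e' := by
  unfold col at h
  split_ifs at h with h1 h2 h2
  · rcases h1 with h1 | h1
    · exact absurd h1 he
    · rcases h2 with h2 | h2
      · exact absurd h2 he'
      · rw [h1] at h2
        exact Option.some.inj h2
  · exact absurd h.symm (Pool.Agent.Helper3.RT.Pat.beta_pos _)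
  · exact absurd h (Pool.Agent.Helper3.RT.Pat.beta_pos _)
  · exact Pool.Agent.Helper3.RT.Pat.beta_inj h

/-- the blades of the leaves of `w` -/
private theorem exists_pi3 (hm : k + 3 ≤ m) (x : Fin m × Fin P.a) (t : Vx P m B.s) (c : ℕ) :
    ∃ π : Fin k → Fin m, Function.Injective π ∧ ∀ y, π y ≠ x.1 ∧
      (∀ s, t ≠ Sum.inl (π y, s)) ∧
      chi B m s(Sum.inr Core.hub, Sum.inl (π y, x.2)) ≠ c := by
  classical
  let A1 : Finset (Fin m) := Finset.univ.filter (fun i => ∃ s, t = Sum.inl (i, s))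
  let A2 : Finset (Fin m) := Finset.univ.filter
    (fun i => chi B m s(Sum.inr Core.hub, Sum.inl (i, x.2)) = c)
  have h1 : A1.card ≤ 1 := by
    rw [Finset.card_le_one]
    intro a ha b hb
    rw [Finset.mem_filter] at ha hb
    obtain ⟨_, s, hs⟩ := ha
    obtain ⟨_, s', hs'⟩ := hb
    have h2 := Sum.inl.inj (hs.symm.trans hs')
    exact congrArg Prod.fst h2
  have hF : ∀ i : Fin m, chi B m s(Sum.inr Core.hub, Sum.inl (i, x.2)) =
      2 * idx B m s(Sum.inr Core.hub, Sum.inl (i, x.2)) + 1 := by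
    intro i
    exact chi_F B m (x := Sum.inr Core.hub) (y := Sum.inl (i, x.2)) trivial
  have h2 : A2.card ≤ 1 := by
    rw [Finset.card_le_one]
    intro a ha b hb
    rw [Finset.mem_filter] at ha hb
    have h3 := ha.2.trans hb.2.symm
    rw [hF, hF] at h3
    have h4 := idx_inj B m (e := s(Sum.inr Core.hub, Sum.inl (a, x.2)))
      (e' := s(Sum.inr Core.hub, Sum.inl (b, x.2))) (by omega)
    rw [Sym2.congr_right] at h4
    exact congrArg Prod.fst (Sum.inl.inj h4)
  let S : Finset (Fin m) := Finset.univ \ ({x.1} ∪ A1 ∪ A2)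
  have h3 : ({x.1} ∪ A1 ∪ A2).card ≤ 3 := by
    refine (Finset.card_union_le _ _).trans ?_
    have := Finset.card_union_le {x.1} A1
    rw [Finset.card_singleton] at this
    omega
  have h4 : S.card + ({x.1} ∪ A1 ∪ A2).card = m := by
    show (Finset.univ \ ({x.1} ∪ A1 ∪ A2) : Finset (Fin m)).card + _ = m
    rw [Finset.card_sdiff_add_card_eq_card (Finset.subset_univ _), Finset.card_univ,
      Fintype.card_fin]
  have h5 : Fintype.card (Fin k) ≤ Fintype.card S := by
    rw [Fintype.card_fin, Fintype.card_coe]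
    omega
  obtain ⟨g⟩ := Function.Embedding.nonempty_of_card_le h5
  refine ⟨fun x => (g x : Fin m), fun x y h => g.injective (Subtype.ext h), fun y => ?_⟩
  have h6 := (g y).2
  have h7 : ((g y : S) : Fin m) ∉ ({x.1} ∪ A1 ∪ A2 : Finset (Fin m)) := (Finset.mem_sdiff.1 h6).2
  rw [Finset.mem_union, Finset.mem_union, Finset.mem_singleton] at h7
  push Not at h7
  refine ⟨h7.1.1, fun s h => h7.1.2 ?_, fun h => h7.2 ?_⟩
  · exact Finset.mem_filter.2 ⟨Finset.mem_univ _, s, h⟩
  · exact Finset.mem_filter.2 ⟨Finset.mem_univ _, h⟩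

/-- the kinds of vertices -/
private theorem kinds3 (P : Pat k) (y : Fin k) : y = P.w ∨ y = P.v ∨ y = P.l ∨
    (y ∈ lf P.H P.v ∧ y ≠ P.l) ∨ y ∈ lf P.H P.w ∨ P.isN y ∨ P.isF y := by
  by_cases h1 : y = P.w
  · exact Or.inl h1
  · by_cases h2 : y = P.v
    · exact Or.inr (Or.inl h2)
    · by_cases h3 : y = P.l
      · exact Or.inr (Or.inr (Or.inl h3))
      · by_cases h4 : y ∈ lf P.H P.v
        · exact Or.inr (Or.inr (Or.inr (Or.inl ⟨h4, h3⟩)))
        · by_cases h5 : y ∈ lf P.H P.w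
          · exact Or.inr (Or.inr (Or.inr (Or.inr (Or.inl h5))))
          · by_cases h6 : 1 < (nb P.H y).card
            · exact Or.inr (Or.inr (Or.inr (Or.inr (Or.inr (Or.inl ⟨⟨h1, h2, h4, h5⟩, h6⟩)))))
            · exact Or.inr (Or.inr (Or.inr (Or.inr (Or.inr (Or.inr ⟨⟨h1, h2, h4, h5⟩, h6⟩)))))

/-- the kinds of edges -/
private theorem classify3 (hO : P.Ok) {e : Sym2 (Fin k)} (he : e ∈ P.H.edgeSet) :
    e = s(P.w, P.v) ∨ e = s(P.v, P.l) ∨ (∃ y ∈ lf P.H P.v, y ≠ P.l ∧ e = s(P.v, y)) ∨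
    (∃ y ∈ lf P.H P.w, e = s(P.w, y)) ∨
    (∃ y, P.isN y ∧ P.H.Adj P.w y ∧ e = s(P.w, y)) ∨
    (∃ y y', P.isN y ∧ P.isN y' ∧ P.H.Adj y y' ∧ e = s(y, y')) ∨
    (∃ y y', P.isN y ∧ P.isF y' ∧ P.H.Adj y y' ∧ e = s(y, y')) := by
  have wcase : ∀ b, P.H.Adj P.w b → s(P.w, b) = s(P.w, P.v) ∨
      (∃ y ∈ lf P.H P.w, s(P.w, b) = s(P.w, y)) ∨
      (∃ y, P.isN y ∧ P.H.Adj P.w y ∧ s(P.w, b) = s(P.w, y)) := by
    intro b hb
    rcases kinds3 P b with h | h | h | h | h | h | h
    · exact absurd h.symm hb.ne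
    · rw [h]
      exact Or.inl rfl
    · exfalso
      rw [h] at hb
      exact hO.adj_wv.ne (Fold.leaf_unique (x := P.l) (by rw [hO.cl]; omega) hb.symm
        hO.adj_vl.symm)
    · exfalso
      have h1 := mem_lf.1 h.1
      exact hO.adj_wv.ne (Fold.leaf_unique (x := b) (by omega) hb.symm h1.1.symm)
    · exact Or.inr (Or.inl ⟨b, h, rfl⟩)
    · exact Or.inr (Or.inr ⟨b, h, hb, rfl⟩)
    · exfalso
      apply h.1.2.2.2
      have h1 : (nb P.H b).card = 1 := by
        have h2 := h.2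
        rcases hO.deg b with h3 | h3
        · exact h3
        · have := hO.ha
          omega
      exact mem_lf.2 ⟨hb, h1⟩
  have vcase : ∀ b, P.H.Adj P.v b → s(P.v, b) = s(P.w, P.v) ∨ s(P.v, b) = s(P.v, P.l) ∨
      (∃ y ∈ lf P.H P.v, y ≠ P.l ∧ s(P.v, b) = s(P.v, y)) := by
    intro b hb
    rcases hO.nv b hb with h | h
    · rw [h, Sym2.eq_swap]
      exact Or.inl rfl
    · by_cases h1 : b = P.l
      · rw [h1]
        exact Or.inr (Or.inl rfl)
      · exact Or.inr (Or.inr ⟨b, mem_lf.2 ⟨hb, h⟩, h1, rfl⟩)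
  have leafF : ∀ y, P.isF y → (nb P.H y).card = 1 := by
    intro y h
    have h2 := h.2
    rcases hO.deg y with h3 | h3
    · exact h3
    · have := hO.ha
      omega
  -- a vertex adjacent to a leaf of `v` is `v`, to a leaf of `w` is `w`
  have lv : ∀ a b, a ∈ lf P.H P.v → P.H.Adj a b → b = P.v := by
    intro a b ha hab
    rw [mem_lf] at ha
    exact Fold.leaf_unique (by omega) hab ha.1.symm
  have lw : ∀ a b, a ∈ lf P.H P.w → P.H.Adj a b → b = P.w := by
    intro a b ha hab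
    rw [mem_lf] at ha
    exact Fold.leaf_unique (by omega) hab ha.1.symm
  have W : ∀ b, P.H.Adj P.w b → (s(P.w, b) = s(P.w, P.v) ∨ s(P.w, b) = s(P.v, P.l) ∨
      (∃ y ∈ lf P.H P.v, y ≠ P.l ∧ s(P.w, b) = s(P.v, y)) ∨
      (∃ y ∈ lf P.H P.w, s(P.w, b) = s(P.w, y)) ∨
      (∃ y, P.isN y ∧ P.H.Adj P.w y ∧ s(P.w, b) = s(P.w, y)) ∨
      (∃ y y', P.isN y ∧ P.isN y' ∧ P.H.Adj y y' ∧ s(P.w, b) = s(y, y')) ∨
      (∃ y y', P.isN y ∧ P.isF y' ∧ P.H.Adj y y' ∧ s(P.w, b) = s(y, y'))) := by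
    intro b hb
    rcases wcase b hb with h | h | h
    · exact Or.inl h
    · exact Or.inr (Or.inr (Or.inr (Or.inl h)))
    · exact Or.inr (Or.inr (Or.inr (Or.inr (Or.inl h))))
  have Vc : ∀ b, P.H.Adj P.v b → (s(P.v, b) = s(P.w, P.v) ∨ s(P.v, b) = s(P.v, P.l) ∨
      (∃ y ∈ lf P.H P.v, y ≠ P.l ∧ s(P.v, b) = s(P.v, y)) ∨
      (∃ y ∈ lf P.H P.w, s(P.v, b) = s(P.w, y)) ∨
      (∃ y, P.isN y ∧ P.H.Adj P.w y ∧ s(P.v, b) = s(P.w, y)) ∨
      (∃ y y', P.isN y ∧ P.isN y' ∧ P.H.Adj y y' ∧ s(P.v, b) = s(y, y')) ∨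
      (∃ y y', P.isN y ∧ P.isF y' ∧ P.H.Adj y y' ∧ s(P.v, b) = s(y, y'))) := by
    intro b hb
    rcases vcase b hb with h | h | h
    · exact Or.inl h
    · exact Or.inr (Or.inl h)
    · exact Or.inr (Or.inr (Or.inl h))
  have notv : ∀ a, P.H.Adj a P.v → ¬ P.isY a := by
    intro a ha hY
    rcases hO.nv a ha.symm with h | h
    · exact hY.1 h
    · exact hY.2.2.1 (mem_lf.2 ⟨ha.symm, h⟩)
  induction e using Sym2.ind with
  | h a b =>
    have hab : P.H.Adj a b := he
    rcases kinds3 P a with h | h | h | h | h | h | h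
    · rw [h] at hab ⊢
      exact W b hab
    · rw [h] at hab ⊢
      exact Vc b hab
    · rw [h] at hab ⊢
      rw [lv P.l b hO.l_mem hab, Sym2.eq_swap]
      exact Or.inr (Or.inl rfl)
    · have h1 := lv a b h.1 hab
      rw [h1] at hab ⊢
      rw [Sym2.eq_swap]
      exact Vc a hab.symm
    · have h1 := lw a b h hab
      rw [h1] at hab ⊢
      rw [Sym2.eq_swap]
      exact W a hab.symm
    · rcases kinds3 P b with h' | h' | h' | h' | h' | h' | h'
      · rw [h'] at hab ⊢
        rw [Sym2.eq_swap]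
        exact W a hab.symm
      · rw [h'] at hab
        exact absurd h.1 (notv a hab)
      · rw [h'] at hab
        exact absurd (lv P.l a hO.l_mem hab.symm) h.1.2.1
      · exact absurd (lv b a h'.1 hab.symm) h.1.2.1
      · exact absurd (lw b a h' hab.symm) h.1.1
      · exact Or.inr (Or.inr (Or.inr (Or.inr (Or.inr (Or.inl ⟨a, b, h, h', hab, rfl⟩)))))
      · exact Or.inr (Or.inr (Or.inr (Or.inr (Or.inr (Or.inr ⟨a, b, h, h', hab, rfl⟩)))))
    · rcases kinds3 P b with h' | h' | h' | h' | h' | h' | h'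
      · rw [h'] at hab ⊢
        rw [Sym2.eq_swap]
        exact W a hab.symm
      · rw [h'] at hab
        exact absurd h.1 (notv a hab)
      · rw [h'] at hab
        exact absurd (lv P.l a hO.l_mem hab.symm) h.1.2.1
      · exact absurd (lv b a h'.1 hab.symm) h.1.2.1
      · exact absurd (lw b a h' hab.symm) h.1.1
      · rw [Sym2.eq_swap]
        exact Or.inr (Or.inr (Or.inr (Or.inr (Or.inr (Or.inr ⟨b, a, h', h, hab.symm, rfl⟩)))))
      · exact absurd (leafF b h') (fun h1 => hO.ll hab (leafF a h) h1)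

/-- piece `ML-B3`. Proof (an adaptation of `Helper3.RT.Pat.satA`): the copy is `v` at `inl x`, `w` at
`hub`, `l` at `t`, the other `a - 1` leaves of `v` at the other `a - 1` vertices of the blade of `x`, the
leaves of `w` at vertices `inl (i', 0)` in pairwise different blades, different from the blade of `x` and of
`t`, such that the colour of `hub -- inl (i', 0)` is not `c`; `y ∈ Y` non-leaf at `pet j b y`, leaf at
`clo j b y t'` (`a - 1 > 0`), with `b` chosen so that `t` is not used and `j` chosen so that the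
colour `c` is not used (`j = some e0` if `c = 2 * beta e0`, else `none`). -/
theorem satA (hO : P.Ok) (hm : k + 3 ≤ m) (x : Fin m × Fin P.a) (t : Vx P m B.s)
    (ht : t ≠ Sum.inl x) (hna : ¬ (G B m).Adj (Sum.inl x) t) {c : ℕ}
    (hc : ∀ y, (G B m).Adj (Sum.inl x) y → chi B m s(Sum.inl x, y) ≠ c) :
    Rb P.H (G B m ⊔ fromEdgeSet {s(Sum.inl x, t)})
      (Function.update (chi B m) s(Sum.inl x, t) c) := by
  classical
  obtain ⟨j, hj⟩ := exists_j3 P c
  obtain ⟨π, hπ, hπ2⟩ := exists_pi3 B m hm x t c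
  obtain ⟨b, hb1, hb2⟩ : ∃ b : Bool, (∀ j' y, t ≠ Sum.inr (Core.pet j' b y)) ∧
      (∀ j' y t', t ≠ Sum.inr (Core.clo j' b y t')) := by
    rcases t with t | t
    · exact ⟨true, fun _ _ h => (by cases h), fun _ _ _ h => (by cases h)⟩
    · cases t with
      | hub => exact ⟨true, fun _ _ h => (by cases h), fun _ _ _ h => (by cases h)⟩
      | blob t => exact ⟨true, fun _ _ h => (by cases h), fun _ _ _ h => (by cases h)⟩
      | pet j' b' y =>
        refine ⟨!b', fun j1 y1 h => ?_, fun j1 y1 t1 h => (by cases h)⟩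
        have h1 := Sum.inr.inj h
        rw [Core.pet.injEq] at h1
        exact absurd h1.2.1 (by cases b' <;> simp)
      | clo j' b' y t' =>
        refine ⟨!b', fun j1 y1 h => (by cases h), fun j1 y1 t1 h => ?_⟩
        have h1 := Sum.inr.inj h
        rw [Core.clo.injEq] at h1
        exact absurd h1.2.1 (by cases b' <;> simp)
  have hhub : t ≠ Sum.inr Core.hub := by
    rintro rfl
    exact hna (Or.inl trivial)
  have hbl : ∀ s, t ≠ Sum.inl (x.1, s) := by
    intro s h
    rw [h] at hna ht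
    exact hna (Or.inl ⟨rfl, fun h1 => ht (congrArg Sum.inl h1.symm)⟩)
  have ha1 : 0 < P.a - 1 := by
    have := hO.ha
    omega
  obtain ⟨σ, hσ, hσ2⟩ := exists_inj_avoid (α := Fin k)
    (((lf P.H P.v).erase P.l : Finset (Fin k)) : Set (Fin k)) (N := P.a) (by
      rw [Set.ncard_coe_finset, Finset.card_erase_add_one hO.l_mem, card_lf_v hO]) x.2
  have hk : Nonempty (Fin k) := ⟨P.w⟩
  have hwv := hO.adj_wv.ne
  have hvl := hO.adj_vl.ne
  have hwl := hO.wl
  obtain ⟨f, hf⟩ : ∃ f : Fin k → Vx P m B.s, f = fun y => if y = P.w then Sum.inr Core.hub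
    else if y = P.v then Sum.inl x else if y = P.l then t else if y ∈ lf P.H P.v then
    Sum.inl (x.1, σ y) else if y ∈ lf P.H P.w then Sum.inl (π y, x.2) else
    if h : P.isN y then Sum.inr (Core.pet j b ⟨y, h⟩) else
    if h : P.isF y then Sum.inr (Core.clo j b ⟨y, h⟩ ⟨0, ha1⟩) else Sum.inr Core.hub := ⟨_, rfl⟩
  have fw : f P.w = Sum.inr Core.hub := by rw [hf]; exact if_pos rfl
  have fv : f P.v = Sum.inl x := by
    rw [hf]
    simp only [if_neg (Ne.symm hwv), if_true]
  have fl : f P.l = t := by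
    rw [hf]
    simp only [if_neg (Ne.symm hwl), if_neg (Ne.symm hvl), if_true]
  have flv : ∀ y ∈ lf P.H P.v, y ≠ P.l → f y = Sum.inl (x.1, σ y) := by
    intro y hy h3
    have h1 : y ≠ P.w := by
      rintro rfl
      exact hO.w_not _ hy
    have h2 : y ≠ P.v := by
      rintro rfl
      exact hO.v_not _ hy
    rw [hf]
    simp only [if_neg h1, if_neg h2, if_neg h3, if_pos hy]
  have flw : ∀ y ∈ lf P.H P.w, f y = Sum.inl (π y, x.2) := by
    intro y hy
    have h1 : y ≠ P.w := by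
      rintro rfl
      exact hO.w_not _ hy
    have h2 : y ≠ P.v := by
      rintro rfl
      exact hO.v_not _ hy
    have h4 : y ∉ lf P.H P.v := by
      intro h4
      rw [mem_lf] at hy h4
      exact hwv (Fold.leaf_unique (by omega) hy.1.symm h4.1.symm)
    have h3 : y ≠ P.l := by
      rintro rfl
      exact h4 hO.l_mem
    rw [hf]
    simp only [if_neg h1, if_neg h2, if_neg h3, if_neg h4, if_pos hy]
  have hYl : ∀ y, P.isY y → y ≠ P.l := by
    rintro y hy rfl
    exact hy.2.2.1 hO.l_mem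
  have fN : ∀ y (h : P.isN y), f y = Sum.inr (Core.pet j b ⟨y, h⟩) := by
    intro y h
    rw [hf]
    simp only [if_neg h.1.1, if_neg h.1.2.1, if_neg (hYl y h.1), if_neg h.1.2.2.1,
      if_neg h.1.2.2.2, dif_pos h]
  have fF : ∀ y (h : P.isF y), f y = Sum.inr (Core.clo j b ⟨y, h⟩ ⟨0, ha1⟩) := by
    intro y h
    have h1 : ¬ P.isN y := fun h1 => h.2 h1.2
    rw [hf]
    simp only [if_neg h.1.1, if_neg h.1.2.1, if_neg (hYl y h.1), if_neg h.1.2.2.1,
      if_neg h.1.2.2.2, dif_neg h1, dif_pos h]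
  -- a left inverse
  have hinj : Function.Injective f := by
    let g0 : (Fin m × Fin P.a) → Fin k := fun z => if z = x then P.v else
      if z.1 = x.1 then Function.invFunOn σ
        (((lf P.H P.v).erase P.l : Finset (Fin k)) : Set (Fin k)) z.2
      else Function.invFun π z.1
    let g1 : Core P B.s → Fin k := fun z => match z with
      | .hub => P.w
      | .pet _ _ y => y
      | .clo _ _ y _ => y
      | .blob _ => P.w
    let g : Vx P m B.s → Fin k := fun z => if z = t then P.l else Sum.elim g0 g1 z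
    have hg : Function.LeftInverse g f := by
      intro y
      rcases kinds3 P y with h | h | h | h | h | h | h
      · rw [h, fw]
        show (if _ then _ else _) = _
        rw [if_neg (Ne.symm hhub)]
        rfl
      · rw [h, fv]
        show (if _ then _ else _) = _
        rw [if_neg (Ne.symm ht)]
        show g0 x = _
        exact if_pos rfl
      · rw [h, fl]
        exact if_pos rfl
      · rw [flv y h.1 h.2]
        show (if _ then _ else _) = _
        rw [if_neg (Ne.symm (hbl _))]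
        show g0 (x.1, σ y) = _
        have hy : y ∈ (((lf P.H P.v).erase P.l : Finset (Fin k)) : Set (Fin k)) := by
          rw [Finset.mem_coe, Finset.mem_erase]
          exact ⟨h.2, h.1⟩
        show (if _ then _ else if _ then _ else _) = _
        rw [if_neg, if_pos rfl]
        · exact hσ.leftInvOn_invFunOn hy
        · intro h1
          exact hσ2 y hy (congrArg Prod.snd h1)
      · rw [flw y h]
        show (if _ then _ else _) = _
        rw [if_neg (Ne.symm ((hπ2 y).2.1 _))]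
        show (if _ then _ else if _ then _ else _) = _
        rw [if_neg, if_neg]
        · exact Function.leftInverse_invFun hπ y
        · exact (hπ2 y).1
        · intro h1
          exact (hπ2 y).1 (congrArg Prod.fst h1)
      · rw [fN y h]
        show (if _ then _ else _) = _
        rw [if_neg (Ne.symm (hb1 _ _))]
        rfl
      · rw [fF y h]
        show (if _ then _ else _) = _
        rw [if_neg (Ne.symm (hb2 _ _ _))]
        rfl
    exact hg.injective
  have hYwv : ∀ y, P.isY y → s(P.w, y) ≠ s(P.w, P.v) := by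
    intro y hy h
    rw [Sym2.congr_right] at h
    exact hy.2.1 h
  have hYYwv : ∀ y y', P.isY y → P.isY y' → s(y, y') ≠ s(P.w, P.v) := by
    intro y y' hy hy' h
    rw [Sym2.eq_iff] at h
    rcases h with ⟨h, _⟩ | ⟨h, _⟩
    · exact hy.1 h
    · exact hy.2.1 h
  have keyF : ∀ (e : Sym2 (Fin k)) (y y' : Fin k), e = s(y, y') → F B m (f y) (f y') →
      chi B m s(f y, f y') ≠ c → (G B m).Adj (f y) (f y') ∧
      ((e = s(P.v, P.l) ∧ chi B m s(f y, f y') = c) ∨
        (chi B m s(f y, f y') ≠ c ∧ chi B m s(f y, f y') = 2 * idx B m (e.map f) + 1) ∨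
        (chi B m s(f y, f y') ≠ c ∧ e ≠ s(P.w, P.v) ∧ chi B m s(f y, f y') = 2 * P.col j e)) := by
    intro e y y' he hF hne
    refine ⟨Or.inl hF, Or.inr (Or.inl ⟨hne, ?_⟩)⟩
    rw [he, Sym2.map_mk]
    exact chi_F B m hF
  have keyE : ∀ (e : Sym2 (Fin k)) (y y' : Fin k), e = s(y, y') → e ≠ s(P.w, P.v) →
      E B m (f y) (f y') (P.col j e) → (G B m).Adj (f y) (f y') ∧
      ((e = s(P.v, P.l) ∧ chi B m s(f y, f y') = c) ∨
        (chi B m s(f y, f y') ≠ c ∧ chi B m s(f y, f y') = 2 * idx B m (e.map f) + 1) ∨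
        (chi B m s(f y, f y') ≠ c ∧ e ≠ s(P.w, P.v) ∧ chi B m s(f y, f y') = 2 * P.col j e)) := by
    intro e y y' he hne hE
    have h1 := chi_E B m hE
    refine ⟨Or.inr ⟨_, hE⟩, Or.inr (Or.inr ⟨?_, hne, h1⟩)⟩
    rw [h1]
    exact hj e hne
  refine mkRb (f := f) (a0 := P.v) (b0 := P.l) (Ne.symm ht) hinj fv fl
    (fun e n => (e = s(P.v, P.l) ∧ n = c) ∨ (n ≠ c ∧ n = 2 * idx B m (e.map f) + 1) ∨
      (n ≠ c ∧ e ≠ s(P.w, P.v) ∧ n = 2 * P.col j e)) (Or.inl ⟨rfl, rfl⟩) ?_ ?_
  · intro e he hne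
    rcases classify3 hO he with h | h | ⟨y, hy, hyl, h⟩ | ⟨y, hy, h⟩ | ⟨y, hy, hwy, h⟩ |
      ⟨y, y', hy, hy', hyy, h⟩ | ⟨y, y', hy, hy', hyy, h⟩
    · refine ⟨P.w, P.v, h, keyF e P.w P.v h ?_ ?_⟩
      · rw [fw, fv]
        exact trivial
      · rw [fw, fv, Sym2.eq_swap]
        exact hc _ (Or.inl trivial)
    · exact absurd h hne
    · have hF : F B m (Sum.inl x) (Sum.inl (x.1, σ y)) := by
        refine ⟨rfl, fun h1 => ?_⟩
        have hy' : y ∈ (((lf P.H P.v).erase P.l : Finset (Fin k)) : Set (Fin k)) := by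
          rw [Finset.mem_coe, Finset.mem_erase]
          exact ⟨hyl, hy⟩
        exact hσ2 y hy' (congrArg Prod.snd h1).symm
      refine ⟨P.v, y, h, keyF e P.v y h ?_ ?_⟩
      · rw [fv, flv y hy hyl]
        exact hF
      · rw [fv, flv y hy hyl]
        exact hc _ (Or.inl hF)
    · refine ⟨P.w, y, h, keyF e P.w y h ?_ ?_⟩
      · rw [fw, flw y hy]
        exact trivial
      · rw [fw, flw y hy]
        exact (hπ2 y).2.2
    · have h1 : e ≠ s(P.w, P.v) := by
        rw [h]
        exact hYwv y hy.1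
      refine ⟨P.w, y, h, keyE e P.w y h h1 ?_⟩
      rw [fw, fN y hy, h]
      exact ⟨hwy, rfl⟩
    · have h1 : e ≠ s(P.w, P.v) := by
        rw [h]
        exact hYYwv y y' hy.1 hy'.1
      refine ⟨y, y', h, keyE e y y' h h1 ?_⟩
      rw [fN y hy, fN y' hy', h]
      exact ⟨rfl, rfl, hyy, rfl⟩
    · have h1 : e ≠ s(P.w, P.v) := by
        rw [h]
        exact hYYwv y y' hy.1 hy'.1
      refine ⟨y, y', h, keyE e y y' h h1 ?_⟩
      rw [fN y hy, fF y' hy', h]
      exact ⟨rfl, rfl, hyy, rfl⟩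
  · rintro e e' n (⟨h1, h2⟩ | ⟨h1, h2⟩ | ⟨h1, h2, h2'⟩) (⟨h3, h4⟩ | ⟨h3, h4⟩ | ⟨h3, h4, h4'⟩)
    · rw [h1, h3]
    · exact absurd h2 h3
    · exact absurd h2 h3
    · exact absurd h4 h1
    · have h5 := idx_inj B m (e := e.map f) (e' := e'.map f) (by omega)
      exact Sym2.map.injective hinj h5
    · omega
    · exact absurd h4 h1
    · omega
    · have h5 : P.col j e = P.col j e' := by omega
      exact col_inj3 h2 h4 h5

end Pat

end Pool.Agent.Helper29.ML
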