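import Pool.Agent.Helper29.ML.B1

/-! The petal construction: the vertices of the petals and of the blob are universal
(MP_e4665f_co). -/

set_option autoImplicit false

namespace Pool.Agent.Helper29.ML

open SimpleGraph Pool.Agent.Helper28.RS Pool.Agent.Helper3.RT

variable {k : ℕ}

namespace Pat

variable {P : Pat k} (B : Blob P) (m : ℕ)

private theorem wl4 (hO : P.Ok) : P.w ≠ P.l := by
  intro h
  have h1 := hO.nlw
  rw [h, hO.cl] at h1
  omega

private theorem w_ne4 (hO : P.Ok) (a : Fin k) : s(P.w, a) ≠ s(P.v, P.l) := by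
  intro h
  rw [Sym2.eq_iff] at h
  rcases h with ⟨h, _⟩ | ⟨h, _⟩
  · exact hO.adj_wv.ne h
  · exact wl4 hO h

private theorem nl4 (hO : P.Ok) : ∀ x, P.H.Adj P.l x → x = P.v := by
  intro x hx
  have h := hO.cl
  exact Fold.leaf_unique (by omega) hx hO.adj_vl.symm

private theorem beta_inj4 {e e' : Sym2 (Fin k)}
    (h : Pool.Agent.Helper3.RT.Pat.beta e = Pool.Agent.Helper3.RT.Pat.beta e') : e = e' :=
  Pool.Agent.Helper3.RT.Pat.beta_inj h

private theorem name_inj4 {e e' : Sym2 (Fin k)}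
    (h : (if e = s(P.w, P.v) then 0 else Pool.Agent.Helper3.RT.Pat.beta e) =
      (if e' = s(P.w, P.v) then 0 else Pool.Agent.Helper3.RT.Pat.beta e')) : e = e' := by
  split_ifs at h with h1 h2 h2
  · rw [h1, h2]
  · exact absurd h.symm (Pool.Agent.Helper3.RT.Pat.beta_pos _)
  · exact absurd h (Pool.Agent.Helper3.RT.Pat.beta_pos _)
  · exact beta_inj4 h

private theorem col_inj4 {j : Option (Sym2 (Fin k))} {e e' : Sym2 (Fin k)}
    (he : e ≠ s(P.w, P.v)) (he' : e' ≠ s(P.w, P.v)) (h : P.col j e = P.col j e') : e = e' := by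
  unfold col at h
  split_ifs at h with h1 h2 h2
  · rcases h1 with h1 | h1
    · exact absurd h1 he
    · rcases h2 with h2 | h2
      · exact absurd h2 he'
      · rw [h1] at h2
        exact Option.some.inj h2
  · exact absurd h.symm (Pool.Agent.Helper3.RT.Pat.beta_pos _)
  · exact absurd h (Pool.Agent.Helper3.RT.Pat.beta_pos _)
  · exact beta_inj4 h

private theorem mem_er4 {a b : Fin k} (h : P.H.Adj a b) (hne : s(a, b) ≠ s(P.v, P.l)) :
    s(a, b) ∈ (ed P.H).erase s(P.v, P.l) := by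
  rw [Finset.mem_erase, mem_ed]
  exact ⟨hne, h⟩

private theorem zero4 (hO : P.Ok) : 0 ∈ P.S0 := by
  unfold S0
  rw [Finset.mem_image]
  exact ⟨_, mem_er4 hO.adj_wv (w_ne4 hO _), if_pos rfl⟩

private theorem card_S04 (hO : P.Ok) : P.S0.card + 1 = (ed P.H).card := by
  unfold S0
  rw [Finset.card_image_of_injective]
  · exact Finset.card_erase_add_one (mem_ed.2 hO.adj_vl)
  · intro e e' h
    exact name_inj4 h

/-- the edges which do not contain `v` -/
private noncomputable def rest4 (P : Pat k) : Finset (Sym2 (Fin k)) := by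
  classical
  exact (ed P.H).filter (fun e => P.v ∉ e)

private theorem mem_rest4 {e : Sym2 (Fin k)} : e ∈ rest4 P ↔ e ∈ P.H.edgeSet ∧ P.v ∉ e := by
  classical
  unfold rest4
  rw [Finset.mem_filter, mem_ed]

private theorem card_rest4 (hO : P.Ok) : (rest4 P).card + (P.a + 1) ≤ (ed P.H).card := by
  classical
  have h1 : ((nb P.H P.v).image (fun x => s(P.v, x))).card = P.a + 1 := by
    rw [Finset.card_image_of_injective, hO.cv]
    intro x y h
    exact Sym2.congr_right.1 h
  rw [← h1, ← Finset.card_union_of_disjoint]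
  · refine Finset.card_le_card ?_
    intro e he
    rw [Finset.mem_union] at he
    rcases he with he | he
    · rw [mem_rest4] at he
      exact mem_ed.2 he.1
    · rw [Finset.mem_image] at he
      obtain ⟨x, hx, rfl⟩ := he
      exact mem_ed.2 (mem_nb.1 hx)
  · rw [Finset.disjoint_left]
    intro e he he'
    rw [Finset.mem_image] at he'
    obtain ⟨x, _, rfl⟩ := he'
    rw [mem_rest4] at he
    exact he.2 (by simp)

/-- an injective colouring of the remaining edges which avoids `a` colours -/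
private theorem exists_g4 (hO : P.Ok) (A : Finset ℕ) (hA : A.card ≤ P.a) :
    ∃ g : Sym2 (Fin k) → {n : ℕ // n ∈ P.S0}, (∀ e ∈ rest4 P, ∀ e' ∈ rest4 P,
      g e = g e' → e = e') ∧ ∀ e ∈ rest4 P, (g e : ℕ) ∉ A := by
  classical
  have h1 : (rest4 P).card ≤ (P.S0 \ A).card := by
    have h2 := card_rest4 hO
    have h3 := card_S04 hO
    have h4 := Finset.le_card_sdiff A P.S0
    omega
  have h2 : Fintype.card (rest4 P) ≤ Fintype.card (P.S0 \ A : Finset ℕ) := by
    rw [Fintype.card_coe, Fintype.card_coe]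
    exact h1
  obtain ⟨φ⟩ := Function.Embedding.nonempty_of_card_le h2
  refine ⟨fun e => if h : e ∈ rest4 P then
    ⟨(φ ⟨e, h⟩ : ℕ), (Finset.mem_sdiff.1 (φ ⟨e, h⟩).2).1⟩ else ⟨0, zero4 hO⟩, ?_, ?_⟩
  · intro e he e' he' h
    simp only [dif_pos he, dif_pos he', Subtype.mk.injEq] at h
    have h3 := φ.injective (Subtype.ext h)
    exact congrArg Subtype.val h3
  · intro e he
    simp only [dif_pos he]
    exact (Finset.mem_sdiff.1 (φ ⟨e, he⟩).2).2

private theorem adj_E4 {x y : Vx P m B.s} {n : ℕ} (h : E B m x y n) : (G B m).Adj x y :=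
  Or.inr ⟨n, h⟩

private theorem blob4 {t t' : Fin B.s} (h : t ≠ t') :
    E B m (.inr (.blob t)) (.inr (.blob t')) (B.ω s(t, t') : ℕ) := ⟨h, rfl⟩

private theorem mem_lfv4 (hO : P.Ok) {x : Fin k} (h : P.H.Adj P.v x) (hx : x ≠ P.w) :
    x ∈ lf P.H P.v := by
  rcases hO.nv x h with h1 | h1
  · exact absurd h1 hx
  · exact mem_lf.2 ⟨h, h1⟩

private theorem lfv_uni4 {x y : Fin k} (hx : x ∈ lf P.H P.v) (h : P.H.Adj x y) : y = P.v := by
  rw [mem_lf] at hx
  exact Fold.leaf_unique (by omega) h hx.1.symm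

private theorem w_notlf4 (hO : P.Ok) : P.w ∉ lf P.H P.v := by
  intro h
  have h1 := (mem_lf.1 h).2
  have h2 := hO.nlw
  omega

private theorem card_lf4 (hO : P.Ok) : ((lf P.H P.v).erase P.l).card + 1 = P.a := by
  classical
  have h1 : lf P.H P.v = (nb P.H P.v).erase P.w := by
    ext x
    rw [Finset.mem_erase, mem_nb, mem_lf]
    constructor
    · rintro ⟨h1, h2⟩
      refine ⟨?_, h1⟩
      rintro rfl
      have := hO.nlw
      omega
    · rintro ⟨h1, h2⟩
      rcases hO.nv x h2 with h3 | h3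
      · exact absurd h3 h1
      · exact ⟨h2, h3⟩
  have h2 : P.l ∈ lf P.H P.v := mem_lf.2 ⟨hO.adj_vl, hO.cl⟩
  rw [Finset.card_erase_add_one h2, h1]
  have h3 := Finset.card_erase_add_one (mem_nb.2 hO.adj_wv.symm)
  rw [hO.cv] at h3
  omega

/-- the kinds of edges, seen from `v` -/
private theorem kinds4 (hO : P.Ok) {e : Sym2 (Fin k)} (he : e ∈ P.H.edgeSet)
    (hne : e ≠ s(P.v, P.l)) : e = s(P.v, P.w) ∨ (∃ x ∈ (lf P.H P.v).erase P.l, e = s(P.v, x)) ∨
      e ∈ rest4 P := by
  classical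
  by_cases hv : P.v ∈ e
  · obtain ⟨x, rfl⟩ := Sym2.mem_iff_exists.1 hv
    have hx : P.H.Adj P.v x := he
    by_cases h1 : x = P.w
    · left
      rw [h1]
    · right
      left
      refine ⟨x, ?_, rfl⟩
      rw [Finset.mem_erase]
      refine ⟨?_, mem_lfv4 hO hx h1⟩
      rintro rfl
      exact hne rfl
  · right
    right
    exact mem_rest4.2 ⟨he, hv⟩

/-- `c` plays `v`, the leaves are at the places `lam`, the rest is in the blob -/
private theorem place4 (hO : P.Ok) (c : Core P B.s) (lam : Fin k → Core P B.s) (n0 : ℕ)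
    (hc : ∀ t, c ≠ Core.blob t)
    (hl1 : ∀ x ∈ (lf P.H P.v).erase P.l, ∀ t, lam x ≠ Core.blob t)
    (hl2 : ∀ x ∈ (lf P.H P.v).erase P.l, lam x ≠ c)
    (hl3 : ∀ x ∈ (lf P.H P.v).erase P.l, ∀ x' ∈ (lf P.H P.v).erase P.l,
      lam x = lam x' → x = x')
    (h0 : E B m (.inr c) (.inr (.blob B.t0)) n0)
    (hadj : ∀ x ∈ (lf P.H P.v).erase P.l, (G B m).Adj (.inr c) (.inr (lam x)))
    (hd : ∀ x ∈ (lf P.H P.v).erase P.l, chi B m s(.inr c, .inr (lam x)) ≠ 2 * n0)
    (hd2 : ∀ x ∈ (lf P.H P.v).erase P.l, ∀ x' ∈ (lf P.H P.v).erase P.l,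
      chi B m s(.inr c, .inr (lam x)) = chi B m s(.inr c, .inr (lam x')) → x = x') :
    Uni P.H ((G B m).comap Sum.inr) (fun d => chi B m (d.map Sum.inr)) c := by
  classical
  obtain ⟨A, hA⟩ : ∃ A : Finset ℕ, A = insert n0
      (((lf P.H P.v).erase P.l).image (fun x => chi B m s(.inr c, .inr (lam x)) / 2)) := ⟨_, rfl⟩
  have hAc : A.card ≤ P.a := by
    have h9 := card_lf4 hO
    rw [hA]
    refine (Finset.card_insert_le _ _).trans ?_
    have h10 := Finset.card_image_le (s := (lf P.H P.v).erase P.l)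
      (f := fun x => chi B m s(.inr c, .inr (lam x)) / 2)
    omega
  obtain ⟨g, hg1, hg2⟩ := exists_g4 hO A hAc
  obtain ⟨f0, hf1, hf2, hf3⟩ := B.hω g P.w B.t0
  obtain ⟨f, hf⟩ : ∃ f : Fin k → Core P B.s, f = fun x => if x = P.v then c else
    if x ∈ lf P.H P.v then lam x else Core.blob (f0 x) := ⟨_, rfl⟩
  have fv : f P.v = c := by rw [hf]; exact if_pos rfl
  have vlf : P.v ∉ lf P.H P.v := fun h => (mem_lf.1 h).1.ne rfl
  have flf : ∀ x ∈ lf P.H P.v, f x = lam x := by
    intro x hx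
    have h1 : x ≠ P.v := by
      rintro rfl
      exact vlf hx
    rw [hf]
    simp only [if_neg h1, if_pos hx]
  have fo : ∀ x, x ≠ P.v → x ∉ lf P.H P.v → f x = Core.blob (f0 x) := by
    intro x h1 h2
    rw [hf]
    simp only [if_neg h1, if_neg h2]
  have fw : f P.w = Core.blob B.t0 := by
    rw [fo P.w hO.adj_wv.ne (w_notlf4 hO), hf2]
  have hrest : ∀ e ∈ rest4 P, ∃ x y, e = s(x, y) ∧ x ≠ y ∧ f x = Core.blob (f0 x) ∧
      f y = Core.blob (f0 y) := by
    intro e he
    rw [mem_rest4] at he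
    induction e using Sym2.ind with
    | h x y =>
      have hxy : P.H.Adj x y := he.1
      have h1 := he.2
      rw [Sym2.mem_iff, not_or] at h1
      refine ⟨x, y, rfl, hxy.ne, fo x (Ne.symm h1.1) ?_, fo y (Ne.symm h1.2) ?_⟩
      · intro h
        exact h1.2 (lfv_uni4 h hxy).symm
      · intro h
        exact h1.1 (lfv_uni4 h hxy.symm).symm
  -- adjacency and colours of the copy
  have kadj : ∀ e ∈ P.H.edgeSet, e ≠ s(P.v, P.l) →
      (e.map f).map Sum.inr ∈ (G B m).edgeSet := by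
    intro e he hne
    rcases kinds4 hO he hne with h | ⟨x, hx, h⟩ | h
    · rw [h, Sym2.map_mk, Sym2.map_mk, fv, fw]
      exact adj_E4 B m h0
    · rw [h, Sym2.map_mk, Sym2.map_mk, fv, flf x (Finset.mem_of_mem_erase hx)]
      exact hadj x hx
    · obtain ⟨x, y, h1, h2, h3, h4⟩ := hrest e h
      rw [h1, Sym2.map_mk, Sym2.map_mk, h3, h4]
      exact adj_E4 B m (blob4 B m (fun h => h2 (hf1 h)))
  have cvw : chi B m ((s(P.v, P.w).map f).map Sum.inr) = 2 * n0 := by
    rw [Sym2.map_mk, Sym2.map_mk, fv, fw]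
    exact chi_E B m h0
  have cvx : ∀ x ∈ (lf P.H P.v).erase P.l, chi B m ((s(P.v, x).map f).map Sum.inr) =
      chi B m s(.inr c, .inr (lam x)) := by
    intro x hx
    rw [Sym2.map_mk, Sym2.map_mk, fv, flf x (Finset.mem_of_mem_erase hx)]
  have cre : ∀ e ∈ rest4 P, chi B m ((e.map f).map Sum.inr) = 2 * (g e : ℕ) := by
    intro e he
    obtain ⟨x, y, h1, h2, h3, h4⟩ := hrest e he
    rw [h1, Sym2.map_mk, Sym2.map_mk, h3, h4, chi_E B m (blob4 B m (fun h => h2 (hf1 h))),
      hf3 x y h2]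
  refine ⟨P.l, P.v, f, hO.adj_vl, nl4 hO, fv, ?_, ?_, ?_⟩
  · intro x y hx hy h
    by_cases h1 : x = P.v
    · by_cases h2 : y = P.v
      · rw [h1, h2]
      · by_cases h3 : y ∈ lf P.H P.v
        · rw [h1, fv, flf y h3] at h
          exact absurd h.symm (hl2 y (Finset.mem_erase.2 ⟨hy, h3⟩))
        · rw [h1, fv, fo y h2 h3] at h
          exact absurd h (hc _)
    · by_cases h4 : x ∈ lf P.H P.v
      · by_cases h2 : y = P.v
        · rw [h2, fv, flf x h4] at h
          exact absurd h (hl2 x (Finset.mem_erase.2 ⟨hx, h4⟩))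
        · by_cases h3 : y ∈ lf P.H P.v
          · rw [flf x h4, flf y h3] at h
            exact hl3 x (Finset.mem_erase.2 ⟨hx, h4⟩) y (Finset.mem_erase.2 ⟨hy, h3⟩) h
          · rw [flf x h4, fo y h2 h3] at h
            exact absurd h (hl1 x (Finset.mem_erase.2 ⟨hx, h4⟩) _)
      · by_cases h2 : y = P.v
        · rw [h2, fv, fo x h1 h4] at h
          exact absurd h.symm (hc _)
        · by_cases h3 : y ∈ lf P.H P.v
          · rw [fo x h1 h4, flf y h3] at h
            exact absurd h.symm (hl1 y (Finset.mem_erase.2 ⟨hy, h3⟩) _)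
          · rw [fo x h1 h4, fo y h2 h3, Core.blob.injEq] at h
            exact hf1 h
  · intro x y hx hy h
    have hne : s(x, y) ≠ s(P.v, P.l) := by
      intro h1
      rw [Sym2.eq_iff] at h1
      rcases h1 with ⟨_, h1⟩ | ⟨h1, _⟩
      · exact hy h1
      · exact hx h1
    exact kadj s(x, y) h hne
  · intro e₁ h₁ e₂ h₂ n₁ n₂ h
    have h' : chi B m ((e₁.map f).map Sum.inr) = chi B m ((e₂.map f).map Sum.inr) := h
    rcases kinds4 hO h₁ n₁ with k1 | ⟨x, hx, k1⟩ | k1 <;>
      rcases kinds4 hO h₂ n₂ with k2 | ⟨y, hy, k2⟩ | k2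
    · rw [k1, k2]
    · rw [k1, k2, cvw, cvx y hy] at h'
      exact absurd h'.symm (hd y hy)
    · rw [k1, cvw, cre e₂ k2] at h'
      exfalso
      apply hg2 e₂ k2
      rw [hA, show (g e₂ : ℕ) = n0 by omega]
      exact Finset.mem_insert_self _ _
    · rw [k1, k2, cvw, cvx x hx] at h'
      exact absurd h' (hd x hx)
    · rw [k1, k2, cvx x hx, cvx y hy] at h'
      rw [k1, k2, hd2 x hx y hy h']
    · rw [k1, cvx x hx, cre e₂ k2] at h'
      exfalso
      apply hg2 e₂ k2
      rw [hA]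
      refine Finset.mem_insert_of_mem (Finset.mem_image.2 ⟨x, hx, ?_⟩)
      rw [h']
      omega
    · rw [k2, cvw, cre e₁ k1] at h'
      exfalso
      apply hg2 e₁ k1
      rw [hA, show (g e₁ : ℕ) = n0 by omega]
      exact Finset.mem_insert_self _ _
    · rw [k2, cvx y hy, cre e₁ k1] at h'
      exfalso
      apply hg2 e₁ k1
      rw [hA]
      refine Finset.mem_insert_of_mem (Finset.mem_image.2 ⟨y, hy, ?_⟩)
      rw [← h']
      omega
    · rw [cre e₁ k1, cre e₂ k2] at h'
      exact hg1 e₁ k1 e₂ k2 (Subtype.ext (by omega))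

/-- piece `ML-B4a`: `blob t` plays `v`, everything else in the blob with `Blob.hω`, the `e(H) - 1`
edges other than `s(v, l)` in the `e(H) - 1` different colours of `S0` (`e ↦ if e = s(w, v) then 0 else
beta e`). -/
theorem uni_blob (hO : P.Ok) (t : Fin B.s) : Uni P.H ((G B m).comap Sum.inr)
    (fun d => chi B m (d.map Sum.inr)) (Core.blob t) := by
  classical
  obtain ⟨g, hg⟩ : ∃ g : Sym2 (Fin k) → {n : ℕ // n ∈ P.S0}, ∀ e ∈ P.H.edgeSet,
      e ≠ s(P.v, P.l) → (g e : ℕ) =
        (if e = s(P.w, P.v) then 0 else Pool.Agent.Helper3.RT.Pat.beta e) := by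
    refine ⟨fun e => if h : e ∈ (ed P.H).erase s(P.v, P.l) then
      ⟨(if e = s(P.w, P.v) then 0 else Pool.Agent.Helper3.RT.Pat.beta e),
        Finset.mem_image.2 ⟨e, h, rfl⟩⟩ else ⟨0, zero4 hO⟩, ?_⟩
    intro e he hne
    have h : e ∈ (ed P.H).erase s(P.v, P.l) := Finset.mem_erase.2 ⟨hne, mem_ed.2 he⟩
    simp only [dif_pos h]
  obtain ⟨f0, hf1, hf2, hf3⟩ := B.hω g P.v t
  have key : ∀ e ∈ P.H.edgeSet, (e.map (fun x => (Core.blob (f0 x) : Core P B.s))).map Sum.inr ∈
      (G B m).edgeSet ∧ (e ≠ s(P.v, P.l) →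
      chi B m ((e.map (fun x => (Core.blob (f0 x) : Core P B.s))).map Sum.inr) =
        2 * (if e = s(P.w, P.v) then 0 else Pool.Agent.Helper3.RT.Pat.beta e)) := by
    intro e he
    induction e using Sym2.ind with
    | h x y =>
      have hxy : x ≠ y := SimpleGraph.Adj.ne he
      have h1 := blob4 B m (fun h => hxy (hf1 h) : f0 x ≠ f0 y)
      refine ⟨adj_E4 B m h1, fun hne => ?_⟩
      rw [← hg _ he hne, ← hf3 x y hxy]
      exact chi_E B m h1
  refine ⟨P.l, P.v, fun x => Core.blob (f0 x), hO.adj_vl, nl4 hO, by beta_reduce; rw [hf2],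
    ?_, ?_, ?_⟩
  · intro x y _ _ h
    rw [Core.blob.injEq] at h
    exact hf1 h
  · intro x y _ _ h
    exact (key s(x, y) h).1
  · intro e₁ h₁ e₂ h₂ n₁ n₂ h
    have h' : chi B m ((e₁.map (fun x => (Core.blob (f0 x) : Core P B.s))).map Sum.inr) =
      chi B m ((e₂.map (fun x => (Core.blob (f0 x) : Core P B.s))).map Sum.inr) := h
    rw [(key e₁ h₁).2 n₁, (key e₂ h₂).2 n₂] at h'
    exact name_inj4 (P := P) (by omega)

/-- piece `ML-B4b`: `pet j b y` plays `v`, `blob t0` plays `w` (colour `entcol j y`), `a - 1` leaves of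
`v` other than `l` are placed at neighbours of `pet j b y` in the petal: it has at least `a + 1`
neighbours in the petal or `hub` (`y` is a non-leaf; a leaf neighbour `y'` gives `clo j b y' 0`; no
neighbour of `y` is `v` or a leaf at `v` or `w`), joined in different colours `col j s(y, y')`, at most one of
them equal to `entcol j y`. The rest of `H` (without `v` and its leaves) is placed in the blob, rooted with
`w` at `t0`, in different colours of `S0` not yet used (`Blob.hω`; exactly `e(H) - 1` colours are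
available). All colours of the copy are in `S0`, all its edges of type `E`. -/
theorem uni_pet (hO : P.Ok) (hB : P.Bri) (j : Option (Sym2 (Fin k))) (b : Bool)
    (y : {y : Fin k // P.isN y}) : Uni P.H ((G B m).comap Sum.inr)
    (fun d => chi B m (d.map Sum.inr)) (Core.pet j b y) := by
  classical
  have ha := hO.ha
  obtain ⟨y, hy⟩ := y
  have hyw : y ≠ P.w := hy.1.1
  have hyv : y ≠ P.v := hy.1.2.1
  -- neighbours
  obtain ⟨N, hN⟩ : ∃ N : Fin k → Core P B.s, N = fun y' => if y' = P.w then Core.hub else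
    if h : P.isN y' then Core.pet j b ⟨y', h⟩ else
    if h : P.isF y' then Core.clo j b ⟨y', h⟩ ⟨0, by omega⟩ else Core.hub := ⟨_, rfl⟩
  have kind : ∀ y', P.H.Adj y y' → y' = P.w ∨ P.isN y' ∨ P.isF y' := by
    intro y' h
    by_cases h1 : y' = P.w
    · exact Or.inl h1
    · right
      have hY : P.isY y' := by
        refine ⟨h1, ?_, ?_, ?_⟩
        · rintro rfl
          rcases hO.nv y h.symm with h2 | h2
          · exact hyw h2
          · have := hy.2
            omega
        · intro h2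
          exact hyv (lfv_uni4 h2 h.symm)
        · intro h2
          rw [mem_lf] at h2
          exact hyw (Fold.leaf_unique (by omega) h.symm h2.1.symm)
      by_cases h2 : 1 < (nb P.H y').card
      · exact Or.inl ⟨hY, h2⟩
      · exact Or.inr ⟨hY, h2⟩
  have Nw : N P.w = Core.hub := by rw [hN]; exact if_pos rfl
  have NN : ∀ y' (h : P.isN y'), N y' = Core.pet j b ⟨y', h⟩ := by
    intro y' h
    rw [hN]
    simp only [if_neg h.1.1, dif_pos h]
  have NF : ∀ y' (h : P.isF y'), N y' = Core.clo j b ⟨y', h⟩ ⟨0, by omega⟩ := by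
    intro y' h
    have h1 : ¬ P.isN y' := fun h1 => h.2 h1.2
    rw [hN]
    simp only [if_neg h.1.1, dif_neg h1, dif_pos h]
  have NE : ∀ y', P.H.Adj y y' → E B m (.inr (.pet j b ⟨y, hy⟩)) (.inr (N y'))
      (P.col j s(y, y')) := by
    intro y' h
    rcases kind y' h with h1 | h1 | h1
    · rw [h1, Nw]
      rw [h1] at h
      exact ⟨h.symm, by rw [Sym2.eq_swap]⟩
    · rw [NN y' h1]
      exact ⟨rfl, rfl, h, rfl⟩
    · rw [NF y' h1]
      exact ⟨rfl, rfl, h, rfl⟩
  have Nb : ∀ y', ∀ t, N y' ≠ Core.blob t := by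
    intro y' t
    rw [hN]
    beta_reduce
    split_ifs <;> simp
  have Ninj : ∀ y', P.H.Adj y y' → ∀ y'', P.H.Adj y y'' → N y' = N y'' → y' = y'' := by
    intro y' h y'' h' he
    rcases kind y' h with h1 | h1 | h1 <;> rcases kind y'' h' with h2 | h2 | h2
    · rw [h1, h2]
    · rw [h1, Nw, NN y'' h2] at he
      cases he
    · rw [h1, Nw, NF y'' h2] at he
      cases he
    · rw [h2, Nw, NN y' h1] at he
      cases he
    · rw [NN y' h1, NN y'' h2, Core.pet.injEq] at he
      exact congrArg Subtype.val he.2.2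
    · rw [NN y' h1, NF y'' h2] at he
      cases he
    · rw [h2, Nw, NF y' h1] at he
      cases he
    · rw [NF y' h1, NN y'' h2] at he
      cases he
    · rw [NF y' h1, NF y'' h2, Core.clo.injEq] at he
      exact congrArg Subtype.val he.2.2.1
  have Nne : ∀ y', P.H.Adj y y' → N y' ≠ Core.pet j b ⟨y, hy⟩ := by
    intro y' h he
    have h1 := NE y' h
    rw [he] at h1
    exact E_irrefl B m h1
  have hcol : ∀ y' y'', P.col j s(y, y') = P.col j s(y, y'') → y' = y'' := by
    intro y' y'' h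
    have hne : ∀ z, s(y, z) ≠ s(P.w, P.v) := by
      intro z h1
      rw [Sym2.eq_iff] at h1
      rcases h1 with ⟨h1, _⟩ | ⟨h1, _⟩
      · exact hyw h1
      · exact hyv h1
    exact Sym2.congr_right.1 (col_inj4 (hne _) (hne _) h)
  -- choice of the neighbours
  have h1 : ((lf P.H P.v).erase P.l).card ≤
      ((nb P.H y).filter (fun y' => P.col j s(y, y') ≠ P.entcol j y)).card := by
    have h2 := card_lf4 hO
    have h3 : P.a + 1 ≤ (nb P.H y).card := by
      rcases hO.deg y with h | h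
      · have := hy.2
        omega
      · exact h
    have h4 : ((nb P.H y).filter (fun y' => ¬ P.col j s(y, y') ≠ P.entcol j y)).card ≤ 1 := by
      rw [Finset.card_le_one]
      intro z hz z' hz'
      rw [Finset.mem_filter, not_not] at hz hz'
      exact hcol z z' (hz.2.trans hz'.2.symm)
    have h5 := Finset.card_filter_add_card_filter_not (s := nb P.H y)
      (fun y' => P.col j s(y, y') ≠ P.entcol j y)
    omega
  have h2 : Fintype.card ((lf P.H P.v).erase P.l) ≤
      Fintype.card ((nb P.H y).filter (fun y' => P.col j s(y, y') ≠ P.entcol j y) :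
        Finset (Fin k)) := by
    rw [Fintype.card_coe, Fintype.card_coe]
    exact h1
  obtain ⟨φ⟩ := Function.Embedding.nonempty_of_card_le h2
  obtain ⟨ι, hι⟩ : ∃ ι : Fin k → Fin k, ∀ x (h : x ∈ (lf P.H P.v).erase P.l),
      ι x = (φ ⟨x, h⟩ : Fin k) := by
    refine ⟨fun x => if h : x ∈ (lf P.H P.v).erase P.l then (φ ⟨x, h⟩ : Fin k) else y, ?_⟩
    intro x h
    simp only [dif_pos h]
  have ιm : ∀ x ∈ (lf P.H P.v).erase P.l, P.H.Adj y (ι x) ∧
      P.col j s(y, ι x) ≠ P.entcol j y := by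
    intro x h
    rw [hι x h]
    have h3 := (φ ⟨x, h⟩).2
    rw [Finset.mem_filter, mem_nb] at h3
    exact h3
  have ιi : ∀ x ∈ (lf P.H P.v).erase P.l, ∀ x' ∈ (lf P.H P.v).erase P.l, ι x = ι x' →
      x = x' := by
    intro x h x' h' he
    rw [hι x h, hι x' h'] at he
    exact congrArg Subtype.val (φ.injective (Subtype.ext he))
  refine place4 B m hO (Core.pet j b ⟨y, hy⟩) (fun x => N (ι x)) (P.entcol j y)
    (fun t => by simp) (fun x _ t => Nb _ t) (fun x hx => Nne _ (ιm x hx).1) ?_ ⟨rfl, rfl⟩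
    (fun x hx => adj_E4 B m (NE _ (ιm x hx).1)) ?_ ?_
  · intro x hx x' hx' h
    exact ιi x hx x' hx' (Ninj _ (ιm x hx).1 _ (ιm x' hx').1 h)
  · intro x hx h
    rw [chi_E B m (NE _ (ιm x hx).1)] at h
    exact (ιm x hx).2 (by omega)
  · intro x hx x' hx' h
    rw [chi_E B m (NE _ (ιm x hx).1), chi_E B m (NE _ (ιm x' hx').1)] at h
    exact ιi x hx x' hx' (hcol _ _ (by omega))

/-- connection to `w` -/
private theorem exists_ent4 (hO : P.Ok) {y : Fin k} (hy : y ≠ P.w) :
    ∃ a, P.H.Adj P.w a ∧ P.H0.Reachable a y := by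
  have h1 : ∀ x, Relation.ReflTransGen P.H.Adj P.w x → x = P.w ∨
      ∃ a, P.H.Adj P.w a ∧ P.H0.Reachable a x := by
    intro x hx
    induction hx with
    | refl => exact Or.inl rfl
    | @tail x z _ hxz ih =>
      by_cases hz : z = P.w
      · exact Or.inl hz
      · right
        by_cases hxw : x = P.w
        · rw [hxw] at hxz
          exact ⟨z, hxz, SimpleGraph.Reachable.refl z⟩
        · rcases ih with ih | ⟨a, ha, hr⟩
          · exact absurd ih hxw
          · refine ⟨a, ha, hr.trans ?_⟩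
            have h2 : P.H0.Adj x z := ⟨hxz, hxw, hz⟩
            exact h2.reachable
  have h2 := hO.conn.preconnected P.w y
  rw [SimpleGraph.reachable_iff_reflTransGen] at h2
  rcases h1 y h2 with h | h
  · exact absurd h hy
  · exact h

private theorem reach_v4 (hO : P.Ok) {y : Fin k} (h : P.H0.Reachable P.v y) :
    y = P.v ∨ y ∈ lf P.H P.v := by
  rw [SimpleGraph.reachable_iff_reflTransGen] at h
  induction h with
  | refl => exact Or.inl rfl
  | @tail x z _ hxz ih =>
    have hxz' : P.H.Adj x z ∧ x ≠ P.w ∧ z ≠ P.w := hxz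
    rcases ih with rfl | ih
    · exact Or.inr (mem_lfv4 hO hxz'.1 hxz'.2.2)
    · exact Or.inl (lfv_uni4 ih hxz'.1)

private theorem entcol4 (hO : P.Ok) {y : Fin k} (hy : P.isY y) (j : Option (Sym2 (Fin k))) :
    ∃ a, P.H.Adj P.w a ∧ a ≠ P.v ∧ P.entcol j y = P.col j s(P.w, a) := by
  classical
  have hex := exists_ent4 hO hy.1
  refine ⟨hex.choose, hex.choose_spec.1, ?_, ?_⟩
  · intro h
    have h1 := hex.choose_spec.2
    rw [h] at h1
    rcases reach_v4 hO h1 with h2 | h2
    · exact hy.2.1 h2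
    · exact hy.2.2.1 h2
  · unfold entcol
    rw [dif_pos hex]

/-- piece `ML-B4c`: `clo j b y t` plays `v`, `blob t0` plays `w` (colour `entcol j y`), the leaves of
`v` other than `l`: one at the parent `pet j b p` (`p` the neighbour of the leaf `y`, colour
`col j s(p, y)`, different from `entcol j y`: by connectedness some neighbour `a' ≠ v` of `w` reaches
`y` in `H0`, and `s(p, y) ≠ s(w, a')` since `p ≠ w ≠ y`; `p` is a non-leaf, `isN p`), `a - 2` at the mates `clo j b y t'`, `t' ≠ t`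
(private colours). The rest of `H` in the blob, in colours of `S0` different from these two. -/
theorem uni_clo (hO : P.Ok) (hB : P.Bri) (j : Option (Sym2 (Fin k))) (b : Bool)
    (y : {y : Fin k // P.isF y}) (t : Fin (P.a - 1)) : Uni P.H ((G B m).comap Sum.inr)
    (fun d => chi B m (d.map Sum.inr)) (Core.clo j b y t) := by
  classical
  have ha := hO.ha
  obtain ⟨y, hy⟩ := y
  have hyw : y ≠ P.w := hy.1.1
  have hyv : y ≠ P.v := hy.1.2.1
  -- the parent
  obtain ⟨p, hp⟩ : ∃ p, P.H.Adj y p := by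
    have h := Fold.nb_pos hO.conn hyw
    rw [Finset.card_pos] at h
    obtain ⟨p, hp⟩ := h
    exact ⟨p, mem_nb.1 hp⟩
  have hy1 : (nb P.H y).card = 1 := by
    have h1 := Fold.nb_pos hO.conn hyw
    have h2 := hy.2
    omega
  have hpw : p ≠ P.w := by
    rintro rfl
    exact hy.1.2.2.2 (mem_lf.2 ⟨hp.symm, hy1⟩)
  have hpv : p ≠ P.v := by
    rintro rfl
    exact hy.1.2.2.1 (mem_lf.2 ⟨hp.symm, hy1⟩)
  have hk : 3 ≤ k := by
    have h1 : ({P.w, P.v, P.l} : Finset (Fin k)).card = 3 := by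
      rw [Finset.card_insert_of_notMem, Finset.card_insert_of_notMem, Finset.card_singleton]
      · rw [Finset.mem_singleton]
        exact hO.adj_vl.ne
      · rw [Finset.mem_insert, Finset.mem_singleton, not_or]
        exact ⟨hO.adj_wv.ne, wl4 hO⟩
    have h2 := Finset.card_le_univ ({P.w, P.v, P.l} : Finset (Fin k))
    rw [Fintype.card_fin] at h2
    omega
  have hpN : P.isN p := by
    refine ⟨⟨hpw, hpv, ?_, ?_⟩, ?_⟩
    · intro h
      exact hyv (lfv_uni4 h hp.symm)
    · intro h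
      rw [mem_lf] at h
      exact hyw (Fold.leaf_unique (by omega) hp.symm h.1.symm)
    · by_contra h
      have h1 := Fold.nb_pos hO.conn hpw
      exact leaf_leaf hk hO.conn hp hy1 (by omega)
  have hpE : E B m (.inr (.clo j b ⟨y, hy⟩ t)) (.inr (.pet j b ⟨p, hpN⟩)) (P.col j s(y, p)) :=
    ⟨rfl, rfl, hp, rfl⟩
  have hpc : P.col j s(y, p) ≠ P.entcol j y := by
    intro h
    obtain ⟨a, ha1, ha2, ha3⟩ := entcol4 hO hy.1 j
    rw [ha3] at h
    have h1 := col_inj4 (P := P) ?_ ?_ h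
    · rw [Sym2.eq_iff] at h1
      rcases h1 with ⟨h1, _⟩ | ⟨_, h1⟩
      · exact hyw h1
      · exact hpw h1
    · intro h2
      rw [Sym2.eq_iff] at h2
      rcases h2 with ⟨h2, _⟩ | ⟨h2, _⟩
      · exact hyw h2
      · exact hyv h2
    · intro h2
      rw [Sym2.congr_right] at h2
      exact ha2 h2
  -- the mates
  have hmF : ∀ t', t ≠ t' → F B m (.inr (.clo j b ⟨y, hy⟩ t)) (.inr (.clo j b ⟨y, hy⟩ t')) :=
    fun t' h => ⟨rfl, rfl, rfl, h⟩
  obtain ⟨ψ, hψ⟩ : ∃ ψ : Fin k → Fin (P.a - 1), ∀ x ∈ (lf P.H P.v).erase P.l,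
      ∀ x' ∈ (lf P.H P.v).erase P.l, ψ x = ψ x' → x = x' := by
    have h1 := card_lf4 hO
    have h2 : Fintype.card ((lf P.H P.v).erase P.l) ≤ Fintype.card (Fin (P.a - 1)) := by
      rw [Fintype.card_coe, Fintype.card_fin]
      omega
    obtain ⟨φ⟩ := Function.Embedding.nonempty_of_card_le h2
    refine ⟨fun x => if h : x ∈ (lf P.H P.v).erase P.l then φ ⟨x, h⟩ else t, ?_⟩
    intro x h x' h' he
    simp only [dif_pos h, dif_pos h'] at he
    exact congrArg Subtype.val (φ.injective he)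
  obtain ⟨lam, hlam⟩ : ∃ lam : Fin k → Core P B.s, lam = fun x => if ψ x = t then
    Core.pet j b ⟨p, hpN⟩ else Core.clo j b ⟨y, hy⟩ (ψ x) := ⟨_, rfl⟩
  have lam1 : ∀ x, ψ x = t → lam x = Core.pet j b ⟨p, hpN⟩ := by
    intro x h
    rw [hlam]
    exact if_pos h
  have lam2 : ∀ x, ψ x ≠ t → lam x = Core.clo j b ⟨y, hy⟩ (ψ x) := by
    intro x h
    rw [hlam]
    exact if_neg h
  refine place4 B m hO (Core.clo j b ⟨y, hy⟩ t) lam (P.entcol j y)
    (fun t' => by simp) ?_ ?_ ?_ ⟨rfl, rfl⟩ ?_ ?_ ?_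
  · intro x _ t'
    by_cases h : ψ x = t
    · rw [lam1 x h]
      simp
    · rw [lam2 x h]
      simp
  · intro x _ h0
    by_cases h : ψ x = t
    · rw [lam1 x h] at h0
      cases h0
    · rw [lam2 x h, Core.clo.injEq] at h0
      exact h h0.2.2.2
  · intro x hx x' hx' h0
    by_cases h : ψ x = t
    · by_cases h' : ψ x' = t
      · exact hψ x hx x' hx' (h.trans h'.symm)
      · rw [lam1 x h, lam2 x' h'] at h0
        cases h0
    · by_cases h' : ψ x' = t
      · rw [lam2 x h, lam1 x' h'] at h0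
        cases h0
      · rw [lam2 x h, lam2 x' h', Core.clo.injEq] at h0
        exact hψ x hx x' hx' h0.2.2.2
  · intro x _
    by_cases h : ψ x = t
    · rw [lam1 x h]
      exact adj_E4 B m hpE
    · rw [lam2 x h]
      exact Or.inl (hmF _ (Ne.symm h))
  · intro x _ h0
    by_cases h : ψ x = t
    · rw [lam1 x h, chi_E B m hpE] at h0
      exact hpc (by omega)
    · rw [lam2 x h, chi_F B m (hmF _ (Ne.symm h))] at h0
      omega
  · intro x hx x' hx' h0
    by_cases h : ψ x = t
    · by_cases h' : ψ x' = t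
      · exact hψ x hx x' hx' (h.trans h'.symm)
      · rw [lam1 x h, lam2 x' h', chi_E B m hpE, chi_F B m (hmF _ (Ne.symm h'))] at h0
        omega
    · by_cases h' : ψ x' = t
      · rw [lam2 x h, lam1 x' h', chi_E B m hpE, chi_F B m (hmF _ (Ne.symm h))] at h0
        omega
      · rw [lam2 x h, lam2 x' h', chi_F B m (hmF _ (Ne.symm h)),
          chi_F B m (hmF _ (Ne.symm h'))] at h0
        have h1 := idx_inj B m (by omega :
          idx B m s(.inr (.clo j b ⟨y, hy⟩ t), .inr (.clo j b ⟨y, hy⟩ (ψ x))) =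
          idx B m s(.inr (.clo j b ⟨y, hy⟩ t), .inr (.clo j b ⟨y, hy⟩ (ψ x'))))
        rw [Sym2.congr_right, Sum.inr.injEq, Core.clo.injEq] at h1
        exact hψ x hx x' hx' h1.2.2.2

end Pat

end Pool.Agent.Helper29.ML
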