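import Pool.Agent.Helper3.RT.Complete
import Pool.Agent.Helper29.ML.B2
import Pool.Agent.Helper29.ML.B3
import Pool.Agent.Helper29.ML.B4

/-! The petal construction: the upper bound (MP_e4665f_co). -/

set_option autoImplicit false

namespace Pool.Agent.Helper29.ML

open SimpleGraph Pool.Agent.Helper28.RS Pool.Agent.Helper3.RT

variable {k : ℕ}

namespace Pat

variable {P : Pat k}

/-- windmill vertices have no palette edges -/
private theorem b5_wind (B : Blob P) {m : ℕ} {x : Fin m × Fin P.a} {y : Vx P m B.s}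
    (h : (G B m).Adj (Sum.inl x) y) :
    F B m (Sum.inl x) y ∧ chi B m s(Sum.inl x, y) = 2 * idx B m s(Sum.inl x, y) + 1 := by
  have h1 : F B m (Sum.inl x) y := by
    rcases h with h | ⟨n, h⟩
    · exact h
    · exact absurd h id
  exact ⟨h1, chi_F B m h1⟩

/-- the hub is adjacent to the windmill -/
private theorem b5_hub (B : Blob P) {m : ℕ} (x : Fin m × Fin P.a) :
    (G B m).Adj (Sum.inl x) (Sum.inr Core.hub) := Or.inl trivial

/-- piece `ML-B5a`: all missing edges at windmill vertices are saturated. Proof: `hub` is adjacent. If `c`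
is not a colour at `inl x`: `satA`. Otherwise `c = 2 * idx e + 1` for an edge `e` at `inl x`; if
`t = inl x'`, then `c` is not a colour at `inl x'` (`idx_inj`; `x`, `x'` are in different blades): `satA`
from the other side; if `t = inr t'`: `Uni.rb_add` with `σ = Sum.inr` and `uni_blob`, `uni_pet`,
`uni_clo`. -/
theorem sat_wind (hO : P.Ok) (hB : P.Bri) (B : Blob P) {m : ℕ} (hm : k + 3 ≤ m)
    (x : Fin m × Fin P.a) (t : Vx P m B.s) (ht : t ≠ Sum.inl x)
    (hna : ¬ (G B m).Adj (Sum.inl x) t) (c : ℕ) :
    Rb P.H (G B m ⊔ fromEdgeSet {s(Sum.inl x, t)})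
      (Function.update (chi B m) s(Sum.inl x, t) c) := by
  by_cases hc : ∀ y, (G B m).Adj (Sum.inl x) y → chi B m s(Sum.inl x, y) ≠ c
  · exact satA B m hO hm x t ht hna hc
  · push Not at hc
    obtain ⟨y, hy, hyc⟩ := hc
    obtain ⟨_, hy2⟩ := b5_wind B hy
    rcases t with x' | t'
    · have h1 : ∀ y', (G B m).Adj (Sum.inl x') y' → chi B m s(Sum.inl x', y') ≠ c := by
        intro y' hy' hc'
        obtain ⟨_, hy3⟩ := b5_wind B hy'
        have h2 : idx B m s(Sum.inl x', y') = idx B m s(Sum.inl x, y) := by omega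
        have h3 := idx_inj B m h2
        rcases Sym2.eq_iff.1 h3 with ⟨h4, _⟩ | ⟨_, h5⟩
        · exact ht h4
        · rw [h5] at hy'
          exact hna hy'.symm
      have h2 := satA B m hO hm x' (Sum.inl x) (Ne.symm ht) (fun h => hna h.symm) h1
      rw [Sym2.eq_swap]
      exact h2
    · have hU : Uni P.H ((G B m).comap Sum.inr) (fun d => chi B m (d.map Sum.inr)) t' := by
        cases t' with
        | hub => exact absurd (b5_hub B x) hna
        | pet j b y => exact uni_pet B m hO hB j b y
        | clo j b y t => exact uni_clo B m hO hB j b y t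
        | blob t => exact uni_blob B m hO t
      refine hU.rb_add (G' := G B m) (χ' := chi B m) Sum.inr Sum.inr_injective (Sum.inl x)
        (fun v => Sum.inr_ne_inl) (fun u v h => h) (fun d₁ _ d₂ _ h => h) ?_
      intro d hd hdc
      induction d using Sym2.ind with
      | h u v =>
        rw [Sym2.map_mk] at hdc
        have hd1 : (G B m).Adj (Sum.inr u) (Sum.inr v) := hd
        rcases hd1 with h | ⟨n, h⟩
        · rw [chi_F B m h] at hdc
          have h2 : idx B m s(Sum.inr u, Sum.inr v) = idx B m s(Sum.inl x, y) := by omega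
          have h3 := idx_inj B m h2
          rcases Sym2.eq_iff.1 h3 with ⟨h4, _⟩ | ⟨_, h5⟩
          · exact Sum.inr_ne_inl h4
          · exact Sum.inr_ne_inl h5
        · rw [chi_E B m h] at hdc
          omega

/-- piece `ML-B5b`: the bounds. `Helper3.RT.complete` with `F` = all pairs of the bounded part; the
number of edges is at most `m * a + m * (a * (a - 1) / 2) + card (Sym2 (Core P s))`. -/
theorem good (hO : P.Ok) (hB : P.Bri) (hN : P.Nex) (B : Blob P) {m : ℕ} (hm : k + 3 ≤ m) :
    ∃ r, 2 * r ≤ (P.a + 1) * (P.a * m) + 2 * Nat.card (Sym2 (Core P B.s)) ∧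
      Good P.H (P.a * m + Nat.card (Core P B.s)) r := by
  classical
  have : Fintype (Core P B.s) := Fintype.ofFinite _
  let F' : Set (Sym2 (Vx P m B.s)) :=
    Set.range (fun e : Sym2 (Core P B.s) => e.map (Sum.inr : Core P B.s → Vx P m B.s))
  obtain ⟨G', χ', h1, h2⟩ := complete (H := P.H) (free B m hO hB hN) F' (by
    intro x y hxy hadj hF col
    rcases x with i | c
    · exact sat_wind hO hB B hm i y (Ne.symm hxy) hadj col
    · rcases y with i | c'
      · have h3 := sat_wind hO hB B hm i (Sum.inr c) hxy (fun h => hadj h.symm) col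
        rw [Sym2.eq_swap]
        exact h3
      · exact absurd ⟨s(c, c'), rfl⟩ hF)
  have h3 : G'.edgeSet ⊆ (Set.range (fun i : Fin m × Fin P.a =>
      (s(Sum.inl i, Sum.inr Core.hub) : Sym2 (Vx P m B.s))) ∪
      Set.range (fun p : Fin m × {e : Sym2 (Fin P.a) // ¬ e.IsDiag} =>
        ((p.2.1.map (fun q => Sum.inl (p.1, q))) : Sym2 (Vx P m B.s)))) ∪ F' := by
    intro e he
    rcases h1 he with h4 | h4
    · induction e using Sym2.ind with
      | h x y =>
        have h5 : (G B m).Adj x y := h4
        rcases x with i | c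
        · have h6 := (b5_wind B h5).1
          rcases y with i' | c'
          · obtain ⟨h7, h8⟩ : i.1 = i'.1 ∧ i ≠ i' := h6
            refine Or.inl (Or.inr ⟨(i.1, ⟨s(i.2, i'.2), ?_⟩), ?_⟩)
            · rw [Sym2.mk_isDiag_iff]
              intro h9
              exact h8 (Prod.ext h7 h9)
            · show Sym2.map _ s(i.2, i'.2) = _
              rw [Sym2.map_mk]
              rw [show (i.1, i'.2) = i' from Prod.ext h7 rfl]
          · cases c' with
            | hub => exact Or.inl (Or.inl ⟨i, rfl⟩)
            | pet j b y => exact absurd h6 id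
            | clo j b y t => exact absurd h6 id
            | blob t => exact absurd h6 id
        · rcases y with i' | c'
          · have h6 := (b5_wind B h5.symm).1
            cases c with
            | hub =>
              refine Or.inl (Or.inl ⟨i', ?_⟩)
              exact Sym2.eq_swap
            | pet j b y => exact absurd h6 id
            | clo j b y t => exact absurd h6 id
            | blob t => exact absurd h6 id
          · exact Or.inr ⟨s(c, c'), rfl⟩
    · exact Or.inr h4
  have h4 : G'.edgeSet.ncard ≤ (m * P.a + m * (P.a.choose 2)) +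
      Nat.card (Sym2 (Core P B.s)) := by
    refine (Set.ncard_le_ncard h3 (Set.toFinite _)).trans ((Set.ncard_union_le _ _).trans ?_)
    refine Nat.add_le_add ((Set.ncard_union_le _ _).trans (Nat.add_le_add ?_ ?_)) ?_
    · rw [← Set.image_univ]
      refine (Set.ncard_image_le (Set.toFinite _)).trans ?_
      rw [Set.ncard_univ, Nat.card_eq_fintype_card, Fintype.card_prod, Fintype.card_fin,
        Fintype.card_fin]
    · rw [← Set.image_univ]
      refine (Set.ncard_image_le (Set.toFinite _)).trans ?_
      rw [Set.ncard_univ, Nat.card_eq_fintype_card, Fintype.card_prod, Fintype.card_fin,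
        Sym2.card_subtype_not_diag, Fintype.card_fin]
    · show (Set.range _).ncard ≤ _
      rw [← Set.image_univ]
      refine (Set.ncard_image_le (Set.toFinite _)).trans ?_
      rw [Set.ncard_univ]
  have h7 : Fintype.card (Vx P m B.s) = P.a * m + Nat.card (Core P B.s) := by
    rw [Fintype.card_sum, Fintype.card_prod, Fintype.card_fin, Fintype.card_fin,
      Nat.card_eq_fintype_card, mul_comm]
  have h8 := h2.good
  rw [h7] at h8
  refine ⟨(m * P.a + m * (P.a.choose 2)) + Nat.card (Sym2 (Core P B.s)), ?_, ?_⟩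
  · have h9 : 2 * P.a.choose 2 = P.a * (P.a - 1) := by
      rw [Nat.choose_two_right, Nat.two_mul_div_two_of_even (Nat.even_mul_pred_self _)]
    obtain ⟨b, hb⟩ : ∃ b, P.a = b + 1 := ⟨P.a - 1, by have := hO.ha; omega⟩
    rw [hb] at h9 ⊢
    rw [Nat.add_sub_cancel] at h9
    have h10 : 2 * (m * (b + 1) + m * (b + 1).choose 2) = (b + 1 + 1) * ((b + 1) * m) := by
      have : 2 * (m * (b + 1) + m * (b + 1).choose 2) =
          2 * m * (b + 1) + m * (2 * (b + 1).choose 2) := by ring
      rw [this, h9]
      ring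
    rw [mul_add, h10]
  · obtain ⟨G2, χ2, h5, h6⟩ := h8
    exact ⟨G2, χ2, h5.trans h4, h6⟩

/-- piece `ML-B5c`: blobs of all large sizes, from `exists_blob` with `C = {n // n ∈ P.S0}` (it
contains `0`) and `Q = Unit` -/
theorem exists_Blob (hO : P.Ok) : ∃ s0, ∀ s, s0 ≤ s → ∃ B : Blob P, B.s = s := by
  classical
  have h0 : 0 ∈ P.S0 := by
    unfold S0
    rw [Finset.mem_image]
    refine ⟨s(P.w, P.v), ?_, if_pos rfl⟩
    rw [Finset.mem_erase]
    refine ⟨?_, mem_ed.2 hO.adj_wv⟩
    intro h
    rcases Sym2.eq_iff.1 h with ⟨h1, _⟩ | ⟨h1, _⟩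
    · exact hO.adj_wv.ne h1
    · have h2 := hO.nlw
      have h3 := hO.cl
      rw [h1] at h2
      omega
  have : Nonempty {n : ℕ // n ∈ P.S0} := ⟨⟨0, h0⟩⟩
  obtain ⟨s0, hs0⟩ := exists_blob {n : ℕ // n ∈ P.S0} Unit k
  refine ⟨max s0 1, fun s hs => ?_⟩
  obtain ⟨ω, κ, _, h1⟩ := hs0 s ((le_max_left _ _).trans hs)
  have hpos : 0 < s := lt_of_lt_of_le Nat.one_pos ((le_max_right _ _).trans hs)
  refine ⟨⟨s, ⟨0, hpos⟩, ω, fun χ i0 x => ?_⟩, rfl⟩
  obtain ⟨f, hf1, hf2, _, hf4⟩ := h1 χ (fun _ => ()) i0 x rfl
  exact ⟨f, hf1, hf2, hf4⟩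

/-- the number of vertices of the bounded part -/
private theorem b5_card (s : ℕ) : Nat.card (Core P s) = Nat.card (Core P 0) + s := by
  have e : Core P s ≃ Core P 0 ⊕ Fin s :=
    { toFun := fun c => match c with
        | .hub => .inl .hub
        | .pet j b y => .inl (.pet j b y)
        | .clo j b y t => .inl (.clo j b y t)
        | .blob t => .inr t
      invFun := fun c => match c with
        | .inl .hub => .hub
        | .inl (.pet j b y) => .pet j b y
        | .inl (.clo j b y t) => .clo j b y t
        | .inl (.blob t) => t.elim0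
        | .inr t => .blob t
      left_inv := fun c => by cases c <;> rfl
      right_inv := fun c => by
        rcases c with c | c
        · cases c with
          | hub => rfl
          | pet j b y => rfl
          | clo j b y t => rfl
          | blob t => exact t.elim0
        · rfl }
  rw [Nat.card_congr e, Nat.card_sum, Nat.card_eq_fintype_card (α := Fin s), Fintype.card_fin]

/-- piece `ML-B5d`: the upper bound; `Nat.card (Core P s) = K + s` with `K` independent of `s`, so every
large `n` is `a * m + K + s` with `s0 ≤ s < s0 + a`. -/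
theorem upper (hO : P.Ok) (hB : P.Bri) (hN : P.Nex) :
    ∃ C : ℕ, ∀ n, 2 * rsat P.H n ≤ (P.a + 1) * n + C := by
  classical
  obtain ⟨s0, hs0⟩ := exists_Blob hO
  set K := Nat.card (Core P 0) with hK
  set N0 := P.a * (k + 3) + K + s0 with hN0
  refine ⟨2 * (∑ i ∈ Finset.range N0, rsat P.H i) +
    2 * (∑ i ∈ Finset.range P.a, Nat.card (Sym2 (Core P (s0 + i)))), fun n => ?_⟩
  by_cases hn : n < N0
  · have h1 : rsat P.H n ≤ ∑ i ∈ Finset.range N0, rsat P.H i :=
      Finset.single_le_sum (f := fun i => rsat P.H i) (fun _ _ => Nat.zero_le _)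
        (Finset.mem_range.2 hn)
    omega
  · have ha : 0 < P.a := lt_of_lt_of_le Nat.zero_lt_two hO.ha
    set q := n - K - s0 with hq
    have hmod := Nat.mod_lt q ha
    have hdiv := Nat.div_add_mod q P.a
    obtain ⟨B, hBs⟩ := hs0 (s0 + q % P.a) (Nat.le_add_right _ _)
    have hm : k + 3 ≤ q / P.a := by
      rw [Nat.le_div_iff_mul_le ha, mul_comm]
      omega
    obtain ⟨r, hr1, hr2⟩ := good hO hB hN B hm
    have hcard := b5_card (P := P) B.s
    rw [hBs] at hcard hr1 hr2
    have hn2 : P.a * (q / P.a) + Nat.card (Core P (s0 + q % P.a)) = n := by omega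
    rw [hn2] at hr2
    have h1 := hr2.rsat_le
    have h2 : Nat.card (Sym2 (Core P (s0 + q % P.a))) ≤
        ∑ i ∈ Finset.range P.a, Nat.card (Sym2 (Core P (s0 + i))) :=
      Finset.single_le_sum (f := fun i => Nat.card (Sym2 (Core P (s0 + i))))
        (fun _ _ => Nat.zero_le _) (Finset.mem_range.2 hmod)
    have h3 : (P.a + 1) * (P.a * (q / P.a)) ≤ (P.a + 1) * n :=
      Nat.mul_le_mul_left _ (by omega)
    omega

end Pat

end Pool.Agent.Helper29.ML
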