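import Mathlib

/-! Coloured complete graphs which contain every small coloured complete graph at every vertex
(MP_e4665f_co). -/

set_option autoImplicit false

namespace Pool.Agent.Helper29.ML

section base

variable {C : Type} {k : ℕ}

/-- the index of a vertex of the cube -/
abbrev Ix (C : Type) (k : ℕ) : Type := (Sym2 (Fin k) → C) × Fin k

/-- pairs of the cube which carry a prescribed colour -/
def pr (D : Set (Ix C k)) (χ : Sym2 (Fin k) → C) (i j : Fin k) : Prop :=
  i ≠ j ∧ D = {(χ, i), (χ, j)}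

theorem pr_unique {D : Set (Ix C k)} {χ χ' : Sym2 (Fin k) → C} {i j i' j' : Fin k}
    (h : pr D χ i j) (h' : pr D χ' i' j') : χ = χ' ∧ s(i, j) = s(i', j') := by
  have he : ({(χ, i), (χ, j)} : Set (Ix C k)) = {(χ', i'), (χ', j')} := h.2.symm.trans h'.2
  have h1 : (χ, i) ∈ ({(χ', i'), (χ', j')} : Set (Ix C k)) := by rw [← he]; simp
  have h2 : (χ, j) ∈ ({(χ', i'), (χ', j')} : Set (Ix C k)) := by rw [← he]; simp
  simp only [Set.mem_insert_iff, Set.mem_singleton_iff, Prod.mk.injEq] at h1 h2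
  rcases h1 with ⟨h3, h1⟩ | ⟨h3, h1⟩
  · rcases h2 with ⟨_, h2⟩ | ⟨_, h2⟩
    · exact absurd (h1.trans h2.symm) h.1
    · exact ⟨h3, by rw [h1, h2]⟩
  · rcases h2 with ⟨_, h2⟩ | ⟨_, h2⟩
    · exact ⟨h3, by rw [h1, h2, Sym2.eq_swap]⟩
    · exact absurd (h1.trans h2.symm) h.1

open Classical in
/-- the colour of a pair of the cube -/
noncomputable def dcol [Nonempty C] (D : Set (Ix C k)) : C :=
  if h : ∃ χ i j, pr D χ i j then h.choose s(h.choose_spec.choose, h.choose_spec.choose_spec.choose)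
  else Classical.arbitrary C

theorem dcol_eq [Nonempty C] {D : Set (Ix C k)} {χ : Sym2 (Fin k) → C} {i j : Fin k}
    (h : pr D χ i j) : dcol D = χ s(i, j) := by
  have hex : ∃ χ i j, pr D χ i j := ⟨χ, i, j, h⟩
  unfold dcol
  rw [dif_pos hex]
  obtain ⟨h1, h2⟩ := pr_unique hex.choose_spec.choose_spec.choose_spec h
  rw [h2, h1]

end base

theorem exists_base (C Q : Type) [Nonempty C] (k : ℕ) :
    ∃ (ω : Sym2 (Set (Ix C k) × Q) → C),
      ∀ (χ : Sym2 (Fin k) → C) (κ' : Fin k → Q) (i0 : Fin k) (x : Set (Ix C k) × Q), x.2 = κ' i0 →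
        ∃ f : Fin k → Set (Ix C k) × Q, Function.Injective f ∧ f i0 = x ∧ (∀ i, (f i).2 = κ' i) ∧
          ∀ i j, i ≠ j → ω s(f i, f j) = χ s(i, j) := by
  refine ⟨Sym2.lift ⟨fun p q => dcol (symmDiff p.1 q.1), fun p q => congrArg dcol (symmDiff_comm _ _)⟩, ?_⟩
  intro χ κ' i0 x hx
  have hs : ∀ i j : Fin k, symmDiff (symmDiff x.1 (symmDiff {(χ, i0)} {(χ, i)}))
      (symmDiff x.1 (symmDiff {(χ, i0)} {(χ, j)})) =
      symmDiff ({(χ, i)} : Set (Ix C k)) {(χ, j)} := by
    intro i j
    rw [symmDiff_symmDiff_symmDiff_comm, symmDiff_self, bot_symmDiff,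
      symmDiff_symmDiff_symmDiff_comm, symmDiff_self, bot_symmDiff]
  have hp : ∀ i j : Fin k, i ≠ j →
      pr (symmDiff ({(χ, i)} : Set (Ix C k)) {(χ, j)}) χ i j := by
    intro i j hij
    refine ⟨hij, ?_⟩
    rw [Disjoint.symmDiff_eq_sup]
    · rfl
    · rw [Set.disjoint_singleton]
      intro h
      exact hij (Prod.mk.inj h).2
  refine ⟨fun i => (symmDiff x.1 (symmDiff {(χ, i0)} {(χ, i)}), κ' i), ?_, ?_, fun i => rfl, ?_⟩
  · intro i j h
    by_contra hij
    have h1 := (Prod.mk.inj h).1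
    have h2 := hs i j
    rw [h1, symmDiff_self] at h2
    have h3 := (hp i j hij).2
    rw [← h2] at h3
    have h4 : (χ, i) ∈ (⊥ : Set (Ix C k)) := by rw [h3]; simp
    exact h4
  · simp only [symmDiff_self, symmDiff_bot]
    rw [← hx]
  · intro i j hij
    show dcol (symmDiff _ _) = _
    rw [hs i j]
    exact dcol_eq (hp i j hij)

/-- for all large `s` some coloured complete graph on `s` coloured vertices contains every coloured
complete graph on `k` coloured vertices, with an arbitrary vertex at an arbitrary place -/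
theorem exists_blob (C Q : Type) [Finite C] [Nonempty C] [Finite Q] [Nonempty Q] (k : ℕ) :
    ∃ s0 : ℕ, ∀ s, s0 ≤ s → ∃ (ω : Sym2 (Fin s) → C) (κ : Fin s → Q),
      (∀ q : Q, ∃ x, κ x = q) ∧
      ∀ (χ : Sym2 (Fin k) → C) (κ' : Fin k → Q) (i0 : Fin k) (x : Fin s), κ x = κ' i0 →
        ∃ f : Fin k → Fin s, Function.Injective f ∧ f i0 = x ∧ (∀ i, κ (f i) = κ' i) ∧
          ∀ i j, i ≠ j → ω s(f i, f j) = χ s(i, j) := by
  classical
  obtain ⟨ω, hω⟩ := exists_base C Q k
  refine ⟨Nat.card (Set (Ix C k) × Q), fun s hs => ?_⟩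
  have hcard : Nat.card (Set (Ix C k) × Q) ≤ Nat.card (Fin s) := by
    rw [Nat.card_eq_fintype_card (α := Fin s), Fintype.card_fin]
    exact hs
  obtain ⟨e⟩ : Nonempty ((Set (Ix C k) × Q) ↪ Fin s) := by
    have h1 := Finite.equivFin (Set (Ix C k) × Q)
    exact ⟨h1.toEmbedding.trans (Fin.castLEEmb hs)⟩
  have hinv : ∀ b, Function.invFun e (e b) = b := Function.leftInverse_invFun e.injective
  refine ⟨fun d => ω (d.map (Function.invFun e)), fun x => (Function.invFun e x).2, ?_, ?_⟩
  · intro q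
    refine ⟨e (∅, q), ?_⟩
    show (Function.invFun e (e (∅, q))).2 = q
    rw [hinv]
  · intro χ κ' i0 x hx
    obtain ⟨f, hf1, hf2, hf3, hf4⟩ := hω χ κ' i0 (Function.invFun e x) hx
    have key : ∀ i, Function.invFun e (if i = i0 then x else e (f i)) = f i := by
      intro i
      by_cases hi : i = i0
      · rw [if_pos hi, hi, hf2]
      · rw [if_neg hi, hinv]
    refine ⟨fun i => if i = i0 then x else e (f i), ?_, if_pos rfl, ?_, ?_⟩
    · intro i j h
      apply hf1
      rw [← key i, ← key j]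
      exact congrArg _ h
    · intro i
      simp only [key]
      exact hf3 i
    · intro i j hij
      show ω s(Function.invFun e (if i = i0 then x else e (f i)),
        Function.invFun e (if j = i0 then x else e (f j))) = χ s(i, j)
      rw [key, key]
      exact hf4 i j hij

end Pool.Agent.Helper29.ML
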