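import Pool.Agent.Helper29.ML.Wind
import Pool.Agent.Helper29.ML.B1

/-! The counting construction: a hub with a windmill and one universal blob (MP_e4665f_co). -/

set_option autoImplicit false

namespace Pool.Agent.Helper29.ML

open SimpleGraph Pool.Agent.Helper28.RS Pool.Agent.Helper3.RT

variable {k : ℕ}

/-- the non-leaves adjacent to a vertex -/
noncomputable def nl {V : Type*} [Fintype V] [DecidableEq V] (H : SimpleGraph V) (x : V) :
    Finset V := (nb H x).filter (fun y => 1 < (nb H y).card)

theorem mem_nl {V : Type*} [Fintype V] [DecidableEq V] {H : SimpleGraph V} {x y : V} :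
    y ∈ nl H x ↔ H.Adj x y ∧ 1 < (nb H y).card := by
  simp [nl, mem_nb]

namespace Pat

variable (P : Pat k)

/-- the balance condition: no vertex with at most as many non-leaf neighbours as `w` has a degree
larger than `deg w + a - 2` -/
def Bal : Prop := ∀ x, (nl P.H x).card ≤ (nl P.H P.w).card →
  (nb P.H x).card + 2 ≤ (nb P.H P.w).card + P.a

/-- the vertices -/
abbrev Vc (P : Pat k) (m s : ℕ) : Type := (Fin m × Fin P.a) ⊕ Option (Fin s)

variable {P} {m s N β : ℕ}

/-- the construction -/
def cD (P : Pat k) (m : ℕ) (ω : Sym2 (Fin s) → Fin N) (κ : Fin s → Fin β) : Pal (Vc P m s) where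
  E
    | .inr none, .inr (some t), n => n = κ t
    | .inr (some t), .inr none, n => n = κ t
    | .inr (some t), .inr (some t'), n => t ≠ t' ∧ n = β + (ω s(t, t') : ℕ)
    | _, _, _ => False
  F
    | .inl _, .inr none => True
    | .inr none, .inl _ => True
    | .inl x, .inl y => x.1 = y.1 ∧ x ≠ y
    | _, _ => False
  Es := by
    rintro (x | (_ | x)) (y | (_ | y)) n h <;> simp only at h ⊢
    · exact h
    · exact h
    · exact ⟨h.1.symm, by rw [h.2, Sym2.eq_swap]⟩
  Fs := by
    rintro (x | (_ | x)) (y | (_ | y)) h <;> simp only at h ⊢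
    exact ⟨h.1.symm, h.2.symm⟩
  ef := by
    rintro (x | (_ | x)) (y | (_ | y)) n h <;> simp only [not_false_eq_true] at h ⊢
  Ei := by
    rintro (x | (_ | x)) n h <;> simp only at h
    exact h.1 rfl
  Fi := by
    rintro (x | (_ | x)) h <;> simp only at h
    exact h.2 rfl
  Ef := by
    rintro (x | (_ | x)) (y | (_ | y)) n n' h h' <;> simp only at h h'
    · rw [h, h']
    · rw [h, h']
    · rw [h.2, h'.2]

variable (ω : Sym2 (Fin s) → Fin N) (κ : Fin s → Fin β)

/-- the neighbours of a windmill vertex -/
theorem cNbrInl {x : Fin m × Fin P.a} {y : Vc P m s} (h : (cD P m ω κ).G.Adj (Sum.inl x) y) :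
    y = Sum.inr none ∨ ∃ t, t ≠ x.2 ∧ y = Sum.inl (x.1, t) := by
  rcases h with h | ⟨n, h⟩
  · rcases y with y | (_ | y)
    · right
      have h1 : x.1 = y.1 ∧ x ≠ y := h
      refine ⟨y.2, fun h2 => h1.2 (Prod.ext h1.1 h2.symm), ?_⟩
      rw [h1.1]
    · exact Or.inl rfl
    · exact absurd h id
  · rcases y with y | (_ | y)
    · exact absurd h id
    · exact absurd h id
    · exact absurd h id

section free

variable {f : Fin k → Vc P m s}

/-- the role of a windmill vertex is a leaf -/
theorem cLeafInl (hO : P.Ok) (hf : IsRb P.H (cD P m ω κ).G (cD P m ω κ).chi f) {x : Fin k}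
    {p : Fin m × Fin P.a} (hx : f x = Sum.inl p) : (nb P.H x).card = 1 := by
  classical
  rcases hO.deg x with h | h
  · exact h
  · exfalso
    have h1 : (nb P.H x).card ≤ (insert (Sum.inr none : Vc P m s)
        ((Finset.univ.erase p.2).image fun t => (Sum.inl (p.1, t) : Vc P m s))).card := by
      refine Finset.card_le_card_of_injOn f ?_ (fun a _ b _ h => hf.1 h)
      intro y hy
      rw [Finset.mem_coe, mem_nb] at hy
      have h2 := hf.2.1 x y hy
      rw [hx] at h2
      rw [Finset.mem_coe, Finset.mem_insert, Finset.mem_image]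
      rcases cNbrInl ω κ h2 with h3 | ⟨t, h3, h4⟩
      · exact Or.inl h3
      · exact Or.inr ⟨t, Finset.mem_erase.2 ⟨h3, Finset.mem_univ _⟩, h4.symm⟩
    have h2 := Finset.card_insert_le (Sum.inr none : Vc P m s)
        ((Finset.univ.erase p.2).image fun t => (Sum.inl (p.1, t) : Vc P m s))
    have h3 : ((Finset.univ.erase p.2).image fun t => (Sum.inl (p.1, t) : Vc P m s)).card ≤
        (Finset.univ.erase p.2 : Finset (Fin P.a)).card := Finset.card_image_le
    have h4 : (Finset.univ.erase p.2 : Finset (Fin P.a)).card + 1 = P.a := by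
      rw [Finset.card_erase_add_one (Finset.mem_univ _), Finset.card_univ, Fintype.card_fin]
    omega

theorem cThreeLe (hO : P.Ok) : 3 ≤ k := by
  classical
  have h1 : ({P.w, P.v, P.l} : Finset (Fin k)).card = 3 := by
    have h2 : P.w ≠ P.l := by
      intro h
      have h3 := hO.nlw
      rw [h, hO.cl] at h3
      omega
    rw [Finset.card_insert_of_notMem, Finset.card_insert_of_notMem, Finset.card_singleton]
    · rw [Finset.mem_singleton]
      exact hO.adj_vl.ne
    · rw [Finset.mem_insert, Finset.mem_singleton]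
      push Not
      exact ⟨hO.adj_wv.ne, h2⟩
  have h3 := Finset.card_le_univ ({P.w, P.v, P.l} : Finset (Fin k))
  rw [h1, Fintype.card_fin] at h3
  exact h3

/-- a windmill vertex in a copy is a leaf at the hub -/
theorem cNbrLeaf (hO : P.Ok) (hf : IsRb P.H (cD P m ω κ).G (cD P m ω κ).chi f) {x y : Fin k}
    {p : Fin m × Fin P.a} (hx : f x = Sum.inl p) (hxy : P.H.Adj x y) : f y = Sum.inr none := by
  have h1 := cLeafInl ω κ hO hf hx
  have h2 := hf.2.1 x y hxy
  rw [hx] at h2
  rcases cNbrInl ω κ h2 with h3 | ⟨t, _, h4⟩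
  · exact h3
  · exact absurd (cLeafInl ω κ hO hf h4) fun h5 => leaf_leaf (cThreeLe hO) hO.conn hxy h1 h5

/-- there is no rainbow copy -/
theorem cfree (hO : P.Ok) {r : Fin k}
    (hr : ∀ x, (nl P.H x).card ≤ β → (nb P.H x).card ≤ (nb P.H r).card)
    (hN : N + (nb P.H r).card + 1 = (ed P.H).card) :
    ¬ Rb P.H (cD P m ω κ).G (cD P m ω κ).chi := by
  classical
  rintro ⟨f, hf'⟩
  have hf : IsRb P.H (cD P m ω κ).G (cD P m ω κ).chi f := hf'
  -- edges in the blob
  have hblob : ∀ S : Finset (Sym2 (Fin k)), S ⊆ ed P.H →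
      (∀ e ∈ S, ∃ x y t t', e = s(x, y) ∧ f x = Sum.inr (some t) ∧ f y = Sum.inr (some t')) →
      S.card ≤ N := by
    intro S hS h
    have h1 : S.card ≤ ((Finset.univ : Finset (Fin N)).image
        fun n : Fin N => 2 * (β + (n : ℕ))).card := by
      refine Finset.card_le_card_of_injOn (fun e => (cD P m ω κ).chi (e.map f)) ?_ ?_
      · intro e he
        obtain ⟨x, y, t, t', rfl, hx, hy⟩ := h e he
        have hxy : P.H.Adj x y := mem_ed.1 (hS he)
        rw [Finset.mem_coe, Finset.mem_image]
        refine ⟨ω s(t, t'), Finset.mem_univ _, ?_⟩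
        have h2 : (cD P m ω κ).E (f x) (f y) (β + (ω s(t, t') : ℕ)) := by
          rw [hx, hy]
          refine ⟨?_, rfl⟩
          rintro rfl
          exact hxy.ne (hf.1 (hx.trans hy.symm))
        exact ((cD P m ω κ).chi_E h2).symm
      · intro e he e' he' h2
        exact hf.2.2 e (mem_ed.1 (hS he)) e' (mem_ed.1 (hS he')) h2
    refine h1.trans (Finset.card_image_le.trans ?_)
    rw [Finset.card_univ, Fintype.card_fin]
  by_cases hub : ∃ u, f u = Sum.inr none
  · obtain ⟨u, hu⟩ := hub
    -- non-leaf neighbours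
    have h1 : (nl P.H u).card ≤ β := by
      have h2 : ∀ y ∈ nl P.H u, ∃ t, f y = Sum.inr (some t) := by
        intro y hy
        rw [mem_nl] at hy
        rcases hfy : f y with p | (_ | t)
        · have := cLeafInl ω κ hO hf hfy
          omega
        · exact absurd (hf.1 (hfy.trans hu.symm)) hy.1.ne'
        · exact ⟨t, rfl⟩
      have h3 : (nl P.H u).card ≤ ((Finset.univ : Finset (Fin β)).image
          fun n : Fin β => 2 * (n : ℕ)).card := by
        refine Finset.card_le_card_of_injOn (fun y => (cD P m ω κ).chi s(f u, f y)) ?_ ?_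
        · intro y hy
          obtain ⟨t, ht⟩ := h2 y hy
          have e1 : (cD P m ω κ).E (f u) (f y) (κ t) := by
            rw [hu, ht]
            rfl
          rw [Finset.mem_coe, Finset.mem_image]
          exact ⟨κ t, Finset.mem_univ _, ((cD P m ω κ).chi_E e1).symm⟩
        · intro y hy y' hy' h4
          rw [Finset.mem_coe] at hy hy'
          exact Sym2.congr_right.1
            (hf.2.2 s(u, y) (mem_nl.1 hy).1 s(u, y') (mem_nl.1 hy').1 h4)
      refine h3.trans (Finset.card_image_le.trans ?_)
      rw [Finset.card_univ, Fintype.card_fin]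
    have h2 := hr u h1
    have h3 := card_ed_at P.H u
    have h4 := hblob ((ed P.H).filter (fun e => u ∉ e)) (Finset.filter_subset _ _) (by
      intro e he
      rw [Finset.mem_filter, mem_ed] at he
      induction e using Sym2.ind with
      | h x y =>
        obtain ⟨hxy, hne⟩ := he
        have hxy' : P.H.Adj x y := hxy
        rw [Sym2.mem_iff] at hne
        push Not at hne
        have key : ∀ z z', P.H.Adj z z' → u ≠ z → u ≠ z' → ∃ t, f z = Sum.inr (some t) := by
          intro z z' hz h5 h6
          rcases hfz : f z with p | (_ | t)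
          · have := cNbrLeaf ω κ hO hf hfz hz
            exact absurd (hf.1 (hu.trans this.symm)) h6
          · exact absurd (hf.1 (hu.trans hfz.symm)) h5
          · exact ⟨t, rfl⟩
        obtain ⟨t, ht⟩ := key x y hxy' hne.1 hne.2
        obtain ⟨t', ht'⟩ := key y x hxy'.symm hne.2 hne.1
        exact ⟨x, y, t, t', rfl, ht, ht'⟩)
    omega
  · push Not at hub
    have h4 := hblob (ed P.H) le_rfl (by
      intro e he
      rw [mem_ed] at he
      induction e using Sym2.ind with
      | h x y =>
        have hxy' : P.H.Adj x y := he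
        have key : ∀ z z', P.H.Adj z z' → ∃ t, f z = Sum.inr (some t) := by
          intro z z' hz
          rcases hfz : f z with p | (_ | t)
          · exact absurd (cNbrLeaf ω κ hO hf hfz hz) (hub z')
          · exact absurd hfz (hub z)
          · exact ⟨t, rfl⟩
        obtain ⟨t, ht⟩ := key x y hxy'
        obtain ⟨t', ht'⟩ := key y x hxy'.symm
        exact ⟨x, y, t, t', rfl, ht, ht'⟩)
    omega

end free

end Pat

end Pool.Agent.Helper29.ML
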