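import Pool.Agent.Helper29.ML.C1

/-! The counting construction: saturation (MP_e4665f_co). -/

set_option autoImplicit false

namespace Pool.Agent.Helper29.ML

open SimpleGraph Pool.Agent.Helper28.RS Pool.Agent.Helper3.RT

variable {k : ℕ}

theorem exists_pi2 {m : ℕ} (hm : k + 3 ≤ m) (i i' : Fin m) (bad : Fin m → Prop)
    (hbad : ∀ i₁ i₂, bad i₁ → bad i₂ → i₁ = i₂) :
    ∃ π : Fin k → Fin m, Function.Injective π ∧ ∀ x, π x ≠ i ∧ π x ≠ i' ∧ ¬ bad (π x) := by
  classical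
  let A2 : Finset (Fin m) := Finset.univ.filter bad
  have h2 : A2.card ≤ 1 := by
    rw [Finset.card_le_one]
    intro a ha b hb
    rw [Finset.mem_filter] at ha hb
    exact hbad a b ha.2 hb.2
  let S : Finset (Fin m) := Finset.univ \ ({i} ∪ {i'} ∪ A2)
  have h3 : (({i} ∪ {i'} ∪ A2 : Finset (Fin m))).card ≤ 3 := by
    refine (Finset.card_union_le _ _).trans ?_
    have := Finset.card_union_le ({i} : Finset (Fin m)) {i'}
    rw [Finset.card_singleton, Finset.card_singleton] at this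
    omega
  have h4 : S.card + ({i} ∪ {i'} ∪ A2 : Finset (Fin m)).card = m := by
    show (Finset.univ \ ({i} ∪ {i'} ∪ A2) : Finset (Fin m)).card + _ = m
    rw [Finset.card_sdiff_add_card_eq_card (Finset.subset_univ _), Finset.card_univ,
      Fintype.card_fin]
  have h5 : Fintype.card (Fin k) ≤ Fintype.card S := by
    rw [Fintype.card_fin, Fintype.card_coe]
    omega
  obtain ⟨g⟩ := Function.Embedding.nonempty_of_card_le h5
  refine ⟨fun x => (g x : Fin m), fun x y h => g.injective (Subtype.ext h), fun x => ?_⟩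
  have h6 := (g x).2
  have h7 : ((g x : S) : Fin m) ∉ ({i} ∪ {i'} ∪ A2 : Finset (Fin m)) := (Finset.mem_sdiff.1 h6).2
  rw [Finset.mem_union, Finset.mem_union, Finset.mem_singleton, Finset.mem_singleton] at h7
  push Not at h7
  exact ⟨h7.1.1, h7.1.2, fun h => h7.2 (Finset.mem_filter.2 ⟨Finset.mem_univ _, h⟩)⟩

namespace Pat

variable {P : Pat k} {m s N β : ℕ} (ω : Sym2 (Fin s) → Fin N) (κ : Fin s → Fin β)

/-- the shape of the copies -/
def cf (R : Fin k) (A : Finset (Fin k)) (τ : Fin k → Fin m × Fin P.a) (f0 : Fin k → Fin s)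
    (z : Fin k) : Vc P m s :=
  if z = R then Sum.inr none else if z ∈ A then Sum.inl (τ z) else Sum.inr (some (f0 z))

theorem build {R : Fin k} {A : Finset (Fin k)} {τ : Fin k → Fin m × Fin P.a} {f0 : Fin k → Fin s}
    {χ' : Sym2 (Fin k) → Fin N} {c : ℕ} {a0 b0 : Fin k} (hRA : R ∉ A) (hτ : Set.InjOn τ A)
    (h0 : Function.Injective f0) (hω : ∀ i j, i ≠ j → ω s(f0 i, f0 j) = χ' s(i, j))
    (hab : a0 ≠ b0) {x y : Vc P m s} (hx : cf R A τ f0 a0 = x) (hy : cf R A τ f0 b0 = y)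
    (e1 : ∀ z ∈ A, P.H.Adj R z → s(R, z) ≠ s(a0, b0) →
      (cD P m ω κ).chi s(Sum.inr none, Sum.inl (τ z)) ≠ c)
    (e2 : ∀ z ∈ A, ∀ z' ∈ A, P.H.Adj z z' → s(z, z') ≠ s(a0, b0) → (τ z).1 = (τ z').1 ∧
      (cD P m ω κ).chi s(Sum.inl (τ z), Sum.inl (τ z')) ≠ c)
    (e3 : ∀ z, z ∉ A → P.H.Adj R z → s(R, z) ≠ s(a0, b0) → 2 * (κ (f0 z) : ℕ) ≠ c)
    (e3' : ∀ z z', z ∉ A → z' ∉ A → P.H.Adj R z → P.H.Adj R z' → κ (f0 z) = κ (f0 z') → z = z')
    (e4 : ∀ e ∈ P.H.edgeSet, R ∉ e → (∀ z ∈ A, z ∉ e) → e ≠ s(a0, b0) →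
      2 * (β + (χ' e : ℕ)) ≠ c)
    (e4' : ∀ e ∈ P.H.edgeSet, ∀ e' ∈ P.H.edgeSet, R ∉ e → R ∉ e' → (∀ z ∈ A, z ∉ e) →
      (∀ z ∈ A, z ∉ e') → e ≠ s(a0, b0) → e' ≠ s(a0, b0) → χ' e = χ' e' → e = e')
    (e5 : ∀ z ∈ A, ∀ z', z' ∉ A → z' ≠ R → P.H.Adj z z' → s(z, z') = s(a0, b0)) :
    Rb P.H ((cD P m ω κ).G ⊔ fromEdgeSet {s(x, y)})
      (Function.update (cD P m ω κ).chi s(x, y) c) := by
  classical
  have fR : cf R A τ f0 R = Sum.inr none := if_pos rfl
  have fA : ∀ z ∈ A, cf R A τ f0 z = Sum.inl (τ z) := by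
    intro z hz
    have h1 : z ≠ R := by
      rintro rfl
      exact hRA hz
    unfold cf
    rw [if_neg h1, if_pos hz]
  have fB : ∀ z, z ∉ A → z ≠ R → cf R A τ f0 z = Sum.inr (some (f0 z)) := by
    intro z hz h1
    unfold cf
    rw [if_neg h1, if_neg hz]
  have hinj : Function.Injective (cf R A τ f0) := by
    intro z z' h
    by_cases hz : z = R
    · by_cases hz' : z' = R
      · rw [hz, hz']
      · rw [hz, fR] at h
        by_cases h1 : z' ∈ A
        · rw [fA z' h1] at h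
          exact absurd h (by simp)
        · rw [fB z' h1 hz'] at h
          exact absurd h (by simp)
    · by_cases hz' : z' = R
      · rw [hz', fR] at h
        by_cases h1 : z ∈ A
        · rw [fA z h1] at h
          exact absurd h (by simp)
        · rw [fB z h1 hz] at h
          exact absurd h (by simp)
      · by_cases h1 : z ∈ A
        · by_cases h2 : z' ∈ A
          · rw [fA z h1, fA z' h2] at h
            exact hτ h1 h2 (Sum.inl.inj h)
          · rw [fA z h1, fB z' h2 hz'] at h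
            exact absurd h (by simp)
        · by_cases h2 : z' ∈ A
          · rw [fB z h1 hz, fA z' h2] at h
            exact absurd h (by simp)
          · rw [fB z h1 hz, fB z' h2 hz'] at h
            exact h0 (Option.some.inj (Sum.inr.inj h))
  have hxy : x ≠ y := by
    rw [← hx, ← hy]
    exact fun h => hab (hinj h)
  -- edges at `R`
  have atR : ∀ z, P.H.Adj R z → s(R, z) ≠ s(a0, b0) →
      (cD P m ω κ).G.Adj (cf R A τ f0 R) (cf R A τ f0 z) ∧
      ((s(R, z) = s(a0, b0) ∧ (cD P m ω κ).chi s(cf R A τ f0 R, cf R A τ f0 z) = c) ∨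
      (∃ p q, (cD P m ω κ).F p q ∧ s(R, z).map (cf R A τ f0) = s(p, q) ∧
        (cD P m ω κ).chi s(cf R A τ f0 R, cf R A τ f0 z) = 2 * (cD P m ω κ).idx s(p, q) + 1 ∧
        (cD P m ω κ).chi s(cf R A τ f0 R, cf R A τ f0 z) ≠ c) ∨
      (∃ y, y ∉ A ∧ P.H.Adj R y ∧ s(R, z) = s(R, y) ∧
        (cD P m ω κ).chi s(cf R A τ f0 R, cf R A τ f0 z) = 2 * (κ (f0 y) : ℕ) ∧
        2 * (κ (f0 y) : ℕ) ≠ c) ∨
      (R ∉ s(R, z) ∧ (∀ y ∈ A, y ∉ s(R, z)) ∧ s(R, z) ∈ P.H.edgeSet ∧ s(R, z) ≠ s(a0, b0) ∧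
        (cD P m ω κ).chi s(cf R A τ f0 R, cf R A τ f0 z) = 2 * (β + (χ' s(R, z) : ℕ)) ∧
        2 * (β + (χ' s(R, z) : ℕ)) ≠ c)) := by
    intro z hz hne
    by_cases h1 : z ∈ A
    · have h2 : (cD P m ω κ).F (Sum.inr none) (Sum.inl (τ z)) := trivial
      rw [fR, fA z h1]
      refine ⟨Or.inl h2, Or.inr (Or.inl ⟨_, _, h2, ?_, (cD P m ω κ).chi_F h2, e1 z h1 hz hne⟩)⟩
      rw [Sym2.map_mk, fR, fA z h1]
    · have h2 : (cD P m ω κ).E (Sum.inr none) (Sum.inr (some (f0 z))) (κ (f0 z)) := rfl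
      rw [fR, fB z h1 hz.ne']
      exact ⟨Or.inr ⟨_, h2⟩, Or.inr (Or.inr (Or.inl ⟨z, h1, hz, rfl, (cD P m ω κ).chi_E h2,
        e3 z h1 hz hne⟩))⟩
  refine mkRb hxy hinj hx hy (fun e n => (e = s(a0, b0) ∧ n = c) ∨
    (∃ p q, (cD P m ω κ).F p q ∧ e.map (cf R A τ f0) = s(p, q) ∧
      n = 2 * (cD P m ω κ).idx s(p, q) + 1 ∧ n ≠ c) ∨
    (∃ y, y ∉ A ∧ P.H.Adj R y ∧ e = s(R, y) ∧ n = 2 * (κ (f0 y) : ℕ) ∧
      2 * (κ (f0 y) : ℕ) ≠ c) ∨
    (R ∉ e ∧ (∀ y ∈ A, y ∉ e) ∧ e ∈ P.H.edgeSet ∧ e ≠ s(a0, b0) ∧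
      n = 2 * (β + (χ' e : ℕ)) ∧ 2 * (β + (χ' e : ℕ)) ≠ c)) (Or.inl ⟨rfl, rfl⟩) ?_ ?_
  · intro e he hne
    induction e using Sym2.ind with
    | h z z' =>
      have hzz : P.H.Adj z z' := he
      by_cases hz : z = R
      · subst hz
        obtain ⟨h1, h2⟩ := atR z' hzz hne
        exact ⟨z, z', rfl, h1, h2⟩
      · by_cases hz' : z' = R
        · subst hz'
          rw [Sym2.eq_swap] at hne ⊢
          obtain ⟨h1, h2⟩ := atR z hzz.symm hne
          exact ⟨z', z, rfl, h1, h2⟩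
        · by_cases h1 : z ∈ A
          · by_cases h2 : z' ∈ A
            · obtain ⟨h3, h4⟩ := e2 z h1 z' h2 hzz hne
              have h5 : (cD P m ω κ).F (Sum.inl (τ z)) (Sum.inl (τ z')) :=
                ⟨h3, fun h => hzz.ne (hτ h1 h2 h)⟩
              refine ⟨z, z', rfl, ?_⟩
              rw [fA z h1, fA z' h2]
              refine ⟨Or.inl h5, Or.inr (Or.inl ⟨_, _, h5, ?_, (cD P m ω κ).chi_F h5, h4⟩)⟩
              rw [Sym2.map_mk, fA z h1, fA z' h2]
            · exact absurd (e5 z h1 z' h2 hz' hzz) hne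
          · by_cases h2 : z' ∈ A
            · exact absurd (e5 z' h2 z h1 hz hzz.symm) (by rwa [Sym2.eq_swap])
            · refine ⟨z, z', rfl, ?_⟩
              rw [fB z h1 hz, fB z' h2 hz']
              have h3 : (cD P m ω κ).E (Sum.inr (some (f0 z))) (Sum.inr (some (f0 z')))
                  (β + (χ' s(z, z') : ℕ)) := ⟨fun h => hzz.ne (h0 h), by rw [hω z z' hzz.ne]⟩
              have h4 : R ∉ s(z, z') := by
                rw [Sym2.mem_iff]
                push Not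
                exact ⟨Ne.symm hz, Ne.symm hz'⟩
              have h5 : ∀ y ∈ A, y ∉ s(z, z') := by
                intro y hy h
                rw [Sym2.mem_iff] at h
                rcases h with rfl | rfl
                · exact h1 hy
                · exact h2 hy
              exact ⟨Or.inr ⟨_, h3⟩, Or.inr (Or.inr (Or.inr ⟨h4, h5, he, hne,
                (cD P m ω κ).chi_E h3, e4 _ he h4 h5 hne⟩))⟩
  · intro e e' n h h'
    rcases h with ⟨a1, a2⟩ | ⟨p, q, _, a1, a2, a3⟩ | ⟨u, a1, a2, a3, a4, a5⟩ |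
      ⟨a1, a2, a3, a4, a5, a6⟩ <;>
    rcases h' with ⟨b1, b2⟩ | ⟨p', q', _, b1, b2, b3⟩ | ⟨u', b1, b2, b3, b4, b5⟩ |
      ⟨b1, b2, b3, b4, b5, b6⟩
    · rw [a1, b1]
    · exact absurd a2 b3
    · exact absurd (b4.symm.trans a2) b5
    · exact absurd (b5.symm.trans a2) b6
    · exact absurd b2 a3
    · have h1 : (cD P m ω κ).idx s(p, q) = (cD P m ω κ).idx s(p', q') := by omega
      have h2 := (cD P m ω κ).idx_inj h1
      exact Sym2.map.injective hinj (a1.trans (h2.trans b1.symm))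
    · omega
    · omega
    · exact absurd (a4.symm.trans b2) a5
    · omega
    · have h1 : κ (f0 u) = κ (f0 u') := by
        apply Fin.ext
        omega
      rw [a3, b3, e3' u u' a1 b1 a2 b2 h1]
    · have h1 := (κ (f0 u)).isLt
      omega
    · exact absurd (a5.symm.trans b2) a6
    · omega
    · have h1 := (κ (f0 u')).isLt
      omega
    · have h1 : χ' e = χ' e' := by
        apply Fin.ext
        omega
      exact e4' e a3 e' b3 a1 b1 a2 b2 a4 b4 h1

end Pat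

end Pool.Agent.Helper29.ML
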