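import Pool.Agent.Helper29.ML.C2

/-! The counting construction: saturation at windmill vertices (MP_e4665f_co). -/

set_option autoImplicit false

namespace Pool.Agent.Helper29.ML

open SimpleGraph Pool.Agent.Helper28.RS Pool.Agent.Helper3.RT

variable {k : ℕ}

namespace Pat

variable {P : Pat k} {m s N β : ℕ} (ω : Sym2 (Fin s) → Fin N) (κ : Fin s → Fin β)

/-- the property of the blob -/
def BP (k : ℕ) (ω : Sym2 (Fin s) → Fin N) (κ : Fin s → Fin β) : Prop :=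
  ∀ (χ : Sym2 (Fin k) → Fin N) (κ' : Fin k → Fin β) (i0 : Fin k) (x : Fin s), κ x = κ' i0 →
    ∃ f : Fin k → Fin s, Function.Injective f ∧ f i0 = x ∧ (∀ i, κ (f i) = κ' i) ∧
      ∀ i j, i ≠ j → ω s(f i, f j) = χ s(i, j)

theorem Ok.cLeafNbr (hO : P.Ok) {x y : Fin k} (hx : P.H.Adj P.l x) (hy : P.H.Adj P.l y) :
    x = y := Fold.leaf_unique (by have := hO.cl; omega) hx hy

theorem Ok.cLNbr (hO : P.Ok) {x : Fin k} (hx : P.H.Adj P.l x) : x = P.v :=
  hO.cLeafNbr hx hO.adj_vl.symm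

theorem Ok.cNlv (hO : P.Ok) : 1 < (nb P.H P.v).card := by
  have h1 := hO.cv
  have h2 := hO.ha
  omega

theorem cLfNbr {H : SimpleGraph (Fin k)} {x y z : Fin k} (h : y ∈ lf H x) (hz : H.Adj y z) :
    z = x := by
  rw [mem_lf] at h
  exact Fold.leaf_unique (by omega) hz h.1.symm

theorem Ok.cCardLfv (hO : P.Ok) : (lf P.H P.v).card = P.a := by
  have h1 : nb P.H P.v = insert P.w (lf P.H P.v) := by
    ext x
    rw [mem_nb, Finset.mem_insert, mem_lf]
    constructor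
    · intro h
      rcases hO.nv x h with h1 | h1
      · exact Or.inl h1
      · exact Or.inr ⟨h, h1⟩
    · rintro (rfl | h)
      · exact hO.adj_wv.symm
      · exact h.1
  have h2 : P.w ∉ lf P.H P.v := by
    intro h
    have h3 := (mem_lf.1 h).2
    have h4 := hO.nlw
    omega
  have h3 := hO.cv
  rw [h1, Finset.card_insert_of_notMem h2] at h3
  omega

/-- blob vertices are universal -/
theorem sat_b (hO : P.Ok) (hm : k + 3 ≤ m) (hω : BP k ω κ) {r : Fin k} (hrv : r ≠ P.v)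
    (hrn : 1 < (nb P.H r).card) (hrβ : (nl P.H r).card ≤ β) (hN0 : 0 < N)
    (hN : N + (nb P.H r).card + 1 = (ed P.H).card) (x : Fin m × Fin P.a) (X : Fin s) {c : ℕ}
    (hc : c % 2 = 1) :
    Rb P.H ((cD P m ω κ).G ⊔ fromEdgeSet {s(Sum.inl x, Sum.inr (some X))})
      (Function.update (cD P m ω κ).chi s(Sum.inl x, Sum.inr (some X)) c) := by
  classical
  have hβ : 0 < β := (Fin.pos (κ X))
  have hrl : r ≠ P.l := by
    rintro rfl
    have := hO.cl
    omega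
  have ha0 : 0 < P.a := by have := hO.ha; omega
  obtain ⟨π, hπ, hπ2⟩ := exists_pi2 hm x.1 x.1
    (fun i => (cD P m ω κ).chi s(Sum.inr none, Sum.inl (i, ⟨0, ha0⟩)) = c) (by
      intro i₁ i₂ h₁ h₂
      have f₁ : (cD P m ω κ).F (Sum.inr none) (Sum.inl (i₁, ⟨0, ha0⟩)) := trivial
      have f₂ : (cD P m ω κ).F (Sum.inr none) (Sum.inl (i₂, ⟨0, ha0⟩)) := trivial
      rw [(cD P m ω κ).chi_F f₁] at h₁
      rw [(cD P m ω κ).chi_F f₂] at h₂
      have h3 := (cD P m ω κ).idx_inj (e := s(Sum.inr none, Sum.inl (i₁, ⟨0, ha0⟩)))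
        (e' := s(Sum.inr none, Sum.inl (i₂, ⟨0, ha0⟩))) (by omega)
      rw [Sym2.congr_right] at h3
      exact (Prod.mk.inj (Sum.inl.inj h3)).1)
  -- colours
  obtain ⟨κ₁, hκ₁⟩ := exists_inj ((nl P.H r : Finset (Fin k)) : Set (Fin k)) hβ (by
    rw [Set.ncard_coe_finset]
    exact hrβ)
  obtain ⟨χ', hχ⟩ := exists_inj ((((ed P.H).filter (fun e => r ∉ e)).erase s(P.v, P.l) :
    Finset (Sym2 (Fin k))) : Set (Sym2 (Fin k))) hN0 (by
      rw [Set.ncard_coe_finset]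
      have h1 := card_ed_at P.H r
      have h2 : s(P.v, P.l) ∈ (ed P.H).filter (fun e => r ∉ e) := by
        rw [Finset.mem_filter, mem_ed, Sym2.mem_iff]
        push Not
        exact ⟨hO.adj_vl, hrv, hrl⟩
      have h3 := Finset.card_erase_add_one h2
      omega)
  obtain ⟨f0, h0, hX, hκ, hω0⟩ := hω χ' (fun z => Equiv.swap (κ₁ P.v) (κ X) (κ₁ z)) P.v X
    (Equiv.swap_apply_left _ _).symm
  set A : Finset (Fin k) := insert P.l (lf P.H r) with hA
  have hAc : ∀ z ∈ A, z = P.l ∨ (z ≠ P.l ∧ z ∈ lf P.H r) := by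
    intro z hz
    rw [hA, Finset.mem_insert] at hz
    by_cases h : z = P.l
    · exact Or.inl h
    · exact Or.inr ⟨h, hz.resolve_left h⟩
  set τ : Fin k → Fin m × Fin P.a := fun z => if z = P.l then x else (π z, ⟨0, ha0⟩) with hτd
  have τl : τ P.l = x := if_pos rfl
  have τn : ∀ z, z ≠ P.l → τ z = (π z, ⟨0, ha0⟩) := fun z hz => if_neg hz
  have hlA : P.l ∈ A := Finset.mem_insert_self _ _
  have hvA : P.v ∉ A := by
    intro h
    rcases hAc _ h with h1 | ⟨_, h1⟩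
    · exact hO.adj_vl.ne h1
    · have h2 := (mem_lf.1 h1).2
      have h3 := hO.cNlv
      omega
  have hAleaf : ∀ z ∈ A, (nb P.H z).card = 1 := by
    intro z hz
    rcases hAc z hz with rfl | ⟨_, h⟩
    · exact hO.cl
    · exact (mem_lf.1 h).2
  have hnotA : ∀ z, z ∉ A → P.H.Adj r z → z ∈ nl P.H r := by
    intro z hz hrz
    rw [mem_nl]
    refine ⟨hrz, ?_⟩
    by_contra h
    apply hz
    rw [hA, Finset.mem_insert]
    right
    rw [mem_lf]
    refine ⟨hrz, ?_⟩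
    rcases hO.deg z with h1 | h1
    · exact h1
    · have := hO.ha
      omega
  have hS : ∀ e ∈ P.H.edgeSet, r ∉ e → e ≠ s(P.l, P.v) →
      e ∈ ((((ed P.H).filter (fun e => r ∉ e)).erase s(P.v, P.l) :
        Finset (Sym2 (Fin k))) : Set (Sym2 (Fin k))) := by
    intro e he hr hne
    rw [Finset.mem_coe, Finset.mem_erase, Finset.mem_filter, mem_ed]
    rw [Sym2.eq_swap] at hne
    exact ⟨hne, he, hr⟩
  refine build ω κ (R := r) (A := A) (τ := τ) (f0 := f0) (χ' := χ') (a0 := P.l) (b0 := P.v) ?_ ?_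
    h0 hω0 hO.adj_vl.ne' ?_ ?_ ?_ ?_ ?_ ?_ ?_ ?_ ?_
  · intro h
    rcases hAc r h with h1 | ⟨_, h1⟩
    · exact hrl h1
    · exact (mem_lf.1 h1).1.ne rfl
  · intro z hz z' hz' h
    rcases hAc z hz with h1 | ⟨h1, _⟩ <;> rcases hAc z' hz' with h2 | ⟨h2, _⟩
    · rw [h1, h2]
    · rw [h1, τl, τn z' h2] at h
      exact absurd (congrArg Prod.fst h).symm (hπ2 z').1
    · rw [h2, τl, τn z h1] at h
      exact absurd (congrArg Prod.fst h) (hπ2 z).1
    · rw [τn z h1, τn z' h2] at h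
      exact hπ (congrArg Prod.fst h)
  · unfold cf
    rw [if_neg (Ne.symm hrl), if_pos hlA, τl]
  · unfold cf
    rw [if_neg (Ne.symm hrv), if_neg hvA, hX]
  · intro z hz hrz hne
    rcases hAc z hz with rfl | ⟨h1, h2⟩
    · exact absurd (hO.cLNbr hrz.symm) hrv
    · rw [τn z h1]
      exact (hπ2 z).2.2
  · intro z hz z' hz' hzz _
    exact absurd (hAleaf z' hz') fun h => leaf_leaf (cThreeLe hO) hO.conn hzz (hAleaf z hz) h
  · intro z _ _ _
    omega
  · intro z z' hz hz' h1 h2 h3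
    rw [hκ, hκ] at h3
    exact hκ₁ (hnotA z hz h1) (hnotA z' hz' h2) ((Equiv.swap _ _).injective h3)
  · intro e _ _ _ _
    omega
  · intro e he e' he' hr hr' _ _ hne hne' h
    exact hχ (hS e he hr hne) (hS e' he' hr' hne') h
  · intro z hz z' hz' hz'r hzz
    rcases hAc z hz with rfl | ⟨h1, h2⟩
    · rw [hO.cLNbr hzz]
    · exact absurd (cLfNbr h2 hzz) hz'r

/-- windmill vertices in a colour which is new there -/
theorem sat_a (hO : P.Ok) (hm : k + 3 ≤ m) (hω : BP k ω κ) (x0 : Fin s)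
    (hβ : (nl P.H P.w).card ≤ β)
    (hN : ((ed P.H).filter (fun e => P.w ∉ e ∧ P.v ∉ e)).card + 1 ≤ N)
    (x : Fin m × Fin P.a) (t : Vc P m s) (ht : t ≠ Sum.inl x)
    (hna : ¬ (cD P m ω κ).G.Adj (Sum.inl x) t) {c : ℕ}
    (hc : ∀ y, (cD P m ω κ).G.Adj (Sum.inl x) y → (cD P m ω κ).chi s(Sum.inl x, y) ≠ c) :
    Rb P.H ((cD P m ω κ).G ⊔ fromEdgeSet {s(Sum.inl x, t)})
      (Function.update (cD P m ω κ).chi s(Sum.inl x, t) c) := by
  classical
  have ha0 : 0 < P.a := by have := hO.ha; omega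
  have hwl : P.w ≠ P.l := by
    intro h
    have h1 := hO.nlw
    rw [h, hO.cl] at h1
    omega
  have hwv := hO.adj_wv.ne
  have hvl := hO.adj_vl.ne
  obtain ⟨p, X, hP⟩ : ∃ (p : Fin m × Fin P.a) (X : Fin s),
      (t = Sum.inl p ∧ p.1 ≠ x.1) ∨ ((∀ q, t ≠ Sum.inl q) ∧ t = Sum.inr (some X)) := by
    rcases t with p | (_ | X)
    · refine ⟨p, x0, Or.inl ⟨rfl, ?_⟩⟩
      intro h
      exact hna (Or.inl ⟨h.symm, fun h2 => ht (by rw [h2])⟩)
    · exact absurd (Or.inl trivial) hna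
    · exact ⟨x, X, Or.inr ⟨fun q h => by simp at h, rfl⟩⟩
  obtain ⟨π, hπ, hπ2⟩ := exists_pi2 hm x.1 p.1
    (fun i => (cD P m ω κ).chi s(Sum.inr none, Sum.inl (i, ⟨0, ha0⟩)) = c) (by
      intro i₁ i₂ h₁ h₂
      have f₁ : (cD P m ω κ).F (Sum.inr none) (Sum.inl (i₁, ⟨0, ha0⟩)) := trivial
      have f₂ : (cD P m ω κ).F (Sum.inr none) (Sum.inl (i₂, ⟨0, ha0⟩)) := trivial
      rw [(cD P m ω κ).chi_F f₁] at h₁
      rw [(cD P m ω κ).chi_F f₂] at h₂
      have h3 := (cD P m ω κ).idx_inj (e := s(Sum.inr none, Sum.inl (i₁, ⟨0, ha0⟩)))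
        (e' := s(Sum.inr none, Sum.inl (i₂, ⟨0, ha0⟩))) (by omega)
      rw [Sym2.congr_right] at h3
      exact (Prod.mk.inj (Sum.inl.inj h3)).1)
  -- mates
  obtain ⟨μ, hμ, hμ2⟩ := exists_inj_avoid (((lf P.H P.v).erase P.l : Finset (Fin k)) :
    Set (Fin k)) (N := P.a) (by
      rw [Set.ncard_coe_finset, Finset.card_erase_add_one (mem_lf.2 ⟨hO.adj_vl, hO.cl⟩),
        hO.cCardLfv]) x.2
  -- colours at the hub
  have hvnl : P.v ∈ nl P.H P.w := mem_nl.2 ⟨hO.adj_wv, hO.cNlv⟩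
  have hβ0 : 0 < β := by
    have := Finset.card_pos.2 ⟨_, hvnl⟩
    omega
  obtain ⟨q0, hq0⟩ : ∃ q0 : Fin β, ∀ q : Fin β, q ≠ q0 → 2 * (q : ℕ) ≠ c := by
    by_cases h : ∃ q : Fin β, 2 * (q : ℕ) = c
    · obtain ⟨q, hq⟩ := h
      refine ⟨q, fun q' hq' h' => hq' (Fin.ext ?_)⟩
      omega
    · push Not at h
      exact ⟨⟨0, hβ0⟩, fun q _ => h q⟩
  obtain ⟨κ₁, hκ₁, hκ₂⟩ := exists_inj_avoid (((nl P.H P.w).erase P.v : Finset (Fin k)) :
    Set (Fin k)) (N := β) (by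
      rw [Set.ncard_coe_finset, Finset.card_erase_add_one hvnl]
      exact hβ) q0
  -- colours in the blob
  have hN0 : 0 < N := by omega
  obtain ⟨n0, hn0⟩ : ∃ n0 : Fin N, ∀ n : Fin N, n ≠ n0 → 2 * (β + (n : ℕ)) ≠ c := by
    by_cases h : ∃ n : Fin N, 2 * (β + (n : ℕ)) = c
    · obtain ⟨n, hn⟩ := h
      refine ⟨n, fun n' hn' h' => hn' (Fin.ext ?_)⟩
      omega
    · push Not at h
      exact ⟨⟨0, hN0⟩, fun n _ => h n⟩
  obtain ⟨χ', hχ, hχ2⟩ := exists_inj_avoid (((ed P.H).filter (fun e => P.w ∉ e ∧ P.v ∉ e) :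
    Finset (Sym2 (Fin k))) : Set (Sym2 (Fin k))) (N := N) (by
      rw [Set.ncard_coe_finset]
      exact hN) n0
  obtain ⟨f0, h0, hX, hκ, hω0⟩ := hω χ' (fun z => if z = P.l then κ X else κ₁ z) P.l X (by
    simp only [if_true])
  set A : Finset (Fin k) := Finset.univ.filter (fun z => z = P.v ∨ (z ∈ lf P.H P.v ∧ z ≠ P.l) ∨
    z ∈ lf P.H P.w ∨ (z = P.l ∧ t = Sum.inl p)) with hA
  have hAm : ∀ z, z ∈ A ↔ (z = P.v ∨ (z ∈ lf P.H P.v ∧ z ≠ P.l) ∨
    z ∈ lf P.H P.w ∨ (z = P.l ∧ t = Sum.inl p)) := by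
    intro z
    rw [hA, Finset.mem_filter]
    exact ⟨fun h => h.2, fun h => ⟨Finset.mem_univ _, h⟩⟩
  set τ : Fin k → Fin m × Fin P.a := fun z => if z = P.v then x else if z = P.l then p else
    if z ∈ lf P.H P.v then (x.1, μ z) else (π z, ⟨0, ha0⟩) with hτd
  have hvlf : ∀ y, P.v ∉ lf P.H y := by
    intro y h
    have h1 := (mem_lf.1 h).2
    have h2 := hO.cNlv
    omega
  have hwlf : ∀ y, P.w ∉ lf P.H y := by
    intro y h
    have h1 := (mem_lf.1 h).2
    have h2 := hO.nlw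
    omega
  have hllf : P.l ∉ lf P.H P.w := by
    intro h
    exact hwv (hO.cLNbr (mem_lf.1 h).1.symm)
  have τv : τ P.v = x := if_pos rfl
  have τl : τ P.l = p := by
    rw [hτd]
    simp only [if_neg (Ne.symm hvl), if_true]
  have τm : ∀ z, z ∈ lf P.H P.v → z ≠ P.l → τ z = (x.1, μ z) := by
    intro z hz hzl
    have h1 : z ≠ P.v := by
      rintro rfl
      exact hvlf _ hz
    rw [hτd]
    simp only [if_neg h1, if_neg hzl, if_pos hz]
  have hdis : ∀ z, z ∈ lf P.H P.w → z ∉ lf P.H P.v := by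
    intro z hz hz'
    exact hwv (cLfNbr hz' (mem_lf.1 hz).1.symm)
  have τw : ∀ z, z ∈ lf P.H P.w → τ z = (π z, ⟨0, ha0⟩) := by
    intro z hz
    have h1 : z ≠ P.v := by
      rintro rfl
      exact hvlf _ hz
    have h2 : z ≠ P.l := by
      rintro rfl
      exact hllf hz
    rw [hτd]
    simp only [if_neg h1, if_neg h2, if_neg (hdis z hz)]
  have hpx : t = Sum.inl p → p.1 ≠ x.1 := by
    intro h
    rcases hP with h1 | h1
    · exact h1.2
    · exact absurd h (h1.1 p)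
  have hlA : t ≠ Sum.inl p → P.l ∉ A := by
    intro h h1
    rcases (hAm _).1 h1 with h2 | h2 | h2 | h2
    · exact hvl h2.symm
    · exact h2.2 rfl
    · exact hllf h2
    · exact h h2.2
  have hleafA : ∀ z, P.H.Adj P.w z → z ∉ A → z ∈ (nl P.H P.w).erase P.v := by
    intro z hz hzA
    rw [Finset.mem_erase, mem_nl]
    refine ⟨fun h => hzA ((hAm z).2 (Or.inl h)), hz, ?_⟩
    rcases hO.deg z with h1 | h1
    · exact absurd ((hAm z).2 (Or.inr (Or.inr (Or.inl (mem_lf.2 ⟨hz, h1⟩))))) hzA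
    · have := hO.ha
      omega
  have hnll : ∀ z, z ∈ (nl P.H P.w).erase P.v → z ≠ P.l := by
    rintro z hz rfl
    have h1 := (mem_nl.1 (Finset.mem_of_mem_erase hz)).2
    rw [hO.cl] at h1
    omega
  refine build ω κ (R := P.w) (A := A) (τ := τ) (f0 := f0) (χ' := χ') (a0 := P.v) (b0 := P.l) ?_ ?_
    h0 hω0 hvl ?_ ?_ ?_ ?_ ?_ ?_ ?_ ?_ ?_
  · intro h
    rcases (hAm _).1 h with h2 | h2 | h2 | h2
    · exact hwv h2
    · exact hwlf _ h2.1
    · exact hwlf _ h2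
    · exact hwl h2.1
  · -- injectivity
    intro z hz z' hz' h
    rw [Finset.mem_coe, hAm] at hz hz'
    rcases hz with h1 | h1 | h1 | h1 <;> rcases hz' with h2 | h2 | h2 | h2
    · rw [h1, h2]
    · rw [h1, τv, τm z' h2.1 h2.2] at h
      exact absurd (congrArg Prod.snd h).symm
        (hμ2 z' (Finset.mem_coe.2 (Finset.mem_erase.2 ⟨h2.2, h2.1⟩)))
    · rw [h1, τv, τw z' h2] at h
      exact absurd (congrArg Prod.fst h).symm (hπ2 z').1
    · rw [h1, h2.1, τv, τl] at h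
      exact absurd (congrArg Prod.fst h).symm (hpx h2.2)
    · rw [h2, τv, τm z h1.1 h1.2] at h
      exact absurd (congrArg Prod.snd h)
        (hμ2 z (Finset.mem_coe.2 (Finset.mem_erase.2 ⟨h1.2, h1.1⟩)))
    · rw [τm z h1.1 h1.2, τm z' h2.1 h2.2] at h
      exact hμ (Finset.mem_coe.2 (Finset.mem_erase.2 ⟨h1.2, h1.1⟩))
        (Finset.mem_coe.2 (Finset.mem_erase.2 ⟨h2.2, h2.1⟩)) (congrArg Prod.snd h)
    · rw [τm z h1.1 h1.2, τw z' h2] at h
      exact absurd (congrArg Prod.fst h).symm (hπ2 z').1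
    · rw [h2.1, τm z h1.1 h1.2, τl] at h
      exact absurd (congrArg Prod.fst h).symm (hpx h2.2)
    · rw [h2, τv, τw z h1] at h
      exact absurd (congrArg Prod.fst h) (hπ2 z).1
    · rw [τw z h1, τm z' h2.1 h2.2] at h
      exact absurd (congrArg Prod.fst h) (hπ2 z).1
    · rw [τw z h1, τw z' h2] at h
      exact hπ (congrArg Prod.fst h)
    · rw [h2.1, τw z h1, τl] at h
      exact absurd (congrArg Prod.fst h) (hπ2 z).2.1
    · rw [h1.1, h2, τv, τl] at h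
      exact absurd (congrArg Prod.fst h) (hpx h1.2)
    · rw [h1.1, τl, τm z' h2.1 h2.2] at h
      exact absurd (congrArg Prod.fst h) (hpx h1.2)
    · rw [h1.1, τl, τw z' h2] at h
      exact absurd (congrArg Prod.fst h).symm (hπ2 z').2.1
    · rw [h1.1, h2.1]
  · unfold cf
    rw [if_neg (Ne.symm hwv), if_pos ((hAm _).2 (Or.inl rfl)), τv]
  · unfold cf
    rw [if_neg (Ne.symm hwl)]
    by_cases h : t = Sum.inl p
    · rw [if_pos ((hAm _).2 (Or.inr (Or.inr (Or.inr ⟨rfl, h⟩)))), τl, h]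
    · rw [if_neg (hlA h), hX]
      rcases hP with h1 | h1
      · exact absurd h1.1 h
      · exact h1.2.symm
  · intro z hz hwz _
    rcases (hAm z).1 hz with h2 | h2 | h2 | h2
    · rw [h2, τv, Sym2.eq_swap]
      exact hc _ (Or.inl trivial)
    · exact absurd (cLfNbr h2.1 hwz.symm) hwv
    · rw [τw z h2]
      exact (hπ2 z).2.2
    · rw [h2.1] at hwz
      exact absurd (hO.cLNbr hwz.symm) hwv
  · -- edges inside the windmill
    have key : ∀ z, z ∈ A → P.H.Adj P.v z → s(P.v, z) ≠ s(P.v, P.l) →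
        (τ P.v).1 = (τ z).1 ∧ (cD P m ω κ).chi s(Sum.inl (τ P.v), Sum.inl (τ z)) ≠ c := by
      intro z hz hvz hne
      have hzl : z ≠ P.l := by
        rintro rfl
        exact hne rfl
      have h1 : z ∈ lf P.H P.v := by
        rcases hO.nv z hvz with h1 | h1
        · exfalso
          rcases (hAm z).1 hz with h2 | h2 | h2 | h2
          · exact hvz.ne h2.symm
          · exact hwlf P.v (h1 ▸ h2.1)
          · exact hwlf P.w (h1 ▸ h2)
          · exact hzl h2.1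
        · exact mem_lf.2 ⟨hvz, h1⟩
      rw [τv, τm z h1 hzl]
      refine ⟨rfl, hc _ (Or.inl ⟨rfl, ?_⟩)⟩
      intro h
      exact hμ2 z (Finset.mem_coe.2 (Finset.mem_erase.2 ⟨hzl, h1⟩)) (congrArg Prod.snd h).symm
    have hlf1 : ∀ z, z ∈ A → z ≠ P.v → (nb P.H z).card = 1 := by
      intro z hz hzv
      rcases (hAm z).1 hz with h2 | h2 | h2 | h2
      · exact absurd h2 hzv
      · exact (mem_lf.1 h2.1).2
      · exact (mem_lf.1 h2).2
      · rw [h2.1]
        exact hO.cl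
    intro z hz z' hz' hzz hne
    by_cases h1 : z = P.v
    · rw [h1] at hzz hne ⊢
      exact key z' hz' hzz hne
    · by_cases h2 : z' = P.v
      · rw [h2] at hzz hne ⊢
        rw [Sym2.eq_swap] at hne
        obtain ⟨h3, h4⟩ := key z hz hzz.symm hne
        refine ⟨h3.symm, ?_⟩
        rw [Sym2.eq_swap]
        exact h4
      · exact absurd (hlf1 z' hz' h2) fun h => leaf_leaf (cThreeLe hO) hO.conn hzz (hlf1 z hz h1) h
  · intro z hz hwz _
    have h1 := hleafA z hwz hz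
    rw [hκ]
    simp only [if_neg (hnll z h1)]
    exact hq0 _ (hκ₂ z (Finset.mem_coe.2 h1))
  · intro z z' hz hz' hwz hwz' h
    have h1 := hleafA z hwz hz
    have h2 := hleafA z' hwz' hz'
    rw [hκ, hκ] at h
    simp only [if_neg (hnll z h1), if_neg (hnll z' h2)] at h
    exact hκ₁ (Finset.mem_coe.2 h1) (Finset.mem_coe.2 h2) h
  · intro e he hw hAe _
    refine hn0 _ (hχ2 e ?_)
    rw [Finset.mem_coe, Finset.mem_filter, mem_ed]
    exact ⟨he, hw, hAe _ ((hAm _).2 (Or.inl rfl))⟩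
  · intro e he e' he' hw hw' hAe hAe' _ _ h
    refine hχ ?_ ?_ h
    · rw [Finset.mem_coe, Finset.mem_filter, mem_ed]
      exact ⟨he, hw, hAe _ ((hAm _).2 (Or.inl rfl))⟩
    · rw [Finset.mem_coe, Finset.mem_filter, mem_ed]
      exact ⟨he', hw', hAe' _ ((hAm _).2 (Or.inl rfl))⟩
  · intro z hz z' hz' hz'w hzz
    rcases (hAm z).1 hz with h2 | h2 | h2 | h2
    · rw [h2] at hzz ⊢
      rcases hO.nv z' hzz with h3 | h3
      · exact absurd h3 hz'w
      · have h4 : z' = P.l := by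
          by_contra h5
          exact hz' ((hAm z').2 (Or.inr (Or.inl ⟨mem_lf.2 ⟨hzz, h3⟩, h5⟩)))
        rw [h4]
    · have h3 := cLfNbr h2.1 hzz
      exact absurd ((hAm z').2 (Or.inl h3)) hz'
    · exact absurd (cLfNbr h2 hzz) hz'w
    · rw [h2.1] at hzz
      exact absurd ((hAm z').2 (Or.inl (hO.cLNbr hzz))) hz'

end Pat

end Pool.Agent.Helper29.ML
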