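import Pool.Agent.Helper29.ML.C3

/-! The counting construction: the upper bound (MP_e4665f_co). -/

set_option autoImplicit false

namespace Pool.Agent.Helper29.ML

open SimpleGraph Pool.Agent.Helper28.RS Pool.Agent.Helper3.RT

variable {k : ℕ}

/-- from constructions with `a * m + K + s` vertices to the upper bound -/
theorem upper_of_good {H : SimpleGraph (Fin k)} {a K s0 m0 : ℕ} (ha : 0 < a) (F : ℕ → ℕ)
    (h : ∀ s m, s0 ≤ s → m0 ≤ m → ∃ r, 2 * r ≤ (a + 1) * (a * m) + F s ∧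
      Good H (a * m + (K + s)) r) : ∃ C : ℕ, ∀ n, 2 * rsat H n ≤ (a + 1) * n + C := by
  classical
  set N0 := a * m0 + K + s0 with hN0
  refine ⟨2 * (∑ i ∈ Finset.range N0, rsat H i) + (∑ i ∈ Finset.range a, F (s0 + i)),
    fun n => ?_⟩
  by_cases hn : n < N0
  · have h1 : rsat H n ≤ ∑ i ∈ Finset.range N0, rsat H i :=
      Finset.single_le_sum (f := fun i => rsat H i) (fun _ _ => Nat.zero_le _)
        (Finset.mem_range.2 hn)
    omega
  · set q := n - K - s0 with hq
    have hmod := Nat.mod_lt q ha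
    have hdiv := Nat.div_add_mod q a
    have hm : m0 ≤ q / a := by
      rw [Nat.le_div_iff_mul_le ha, mul_comm]
      omega
    obtain ⟨r, hr1, hr2⟩ := h (s0 + q % a) (q / a) (Nat.le_add_right _ _) hm
    have hn2 : a * (q / a) + (K + (s0 + q % a)) = n := by omega
    rw [hn2] at hr2
    have h1 := hr2.rsat_le
    have h2 : F (s0 + q % a) ≤ ∑ i ∈ Finset.range a, F (s0 + i) :=
      Finset.single_le_sum (f := fun i => F (s0 + i)) (fun _ _ => Nat.zero_le _)
        (Finset.mem_range.2 hmod)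
    have h3 : (a + 1) * (a * (q / a)) ≤ (a + 1) * n := Nat.mul_le_mul_left _ (by omega)
    omega

namespace Pat

variable {P : Pat k}

/-- all missing edges at windmill vertices are saturated -/
theorem sat_c {m s N β : ℕ} {ω : Sym2 (Fin s) → Fin N} {κ : Fin s → Fin β} (hO : P.Ok)
    (hm : k + 3 ≤ m) (hω : BP k ω κ) (x0 : Fin s) {r : Fin k} (hrv : r ≠ P.v)
    (hrn : 1 < (nb P.H r).card) (hrβ : (nl P.H r).card ≤ β) (hN0 : 0 < N)
    (hN : N + (nb P.H r).card + 1 = (ed P.H).card) (hβ : (nl P.H P.w).card ≤ β)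
    (hN' : ((ed P.H).filter (fun e => P.w ∉ e ∧ P.v ∉ e)).card + 1 ≤ N)
    (x : Fin m × Fin P.a) (t : Vc P m s) (ht : t ≠ Sum.inl x)
    (hna : ¬ (cD P m ω κ).G.Adj (Sum.inl x) t) (c : ℕ) :
    Rb P.H ((cD P m ω κ).G ⊔ fromEdgeSet {s(Sum.inl x, t)})
      (Function.update (cD P m ω κ).chi s(Sum.inl x, t) c) := by
  classical
  have hodd : ∀ (p : Fin m × Fin P.a) y, (cD P m ω κ).G.Adj (Sum.inl p) y →
      (cD P m ω κ).chi s(Sum.inl p, y) = 2 * (cD P m ω κ).idx s(Sum.inl p, y) + 1 := by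
    intro p y h
    have h1 : (cD P m ω κ).F (Sum.inl p) y := by
      rcases h with h | ⟨n, h⟩
      · exact h
      · rcases y with y | (_ | y)
        · exact absurd h id
        · exact absurd h id
        · exact absurd h id
    exact (cD P m ω κ).chi_F h1
  by_cases hc : ∀ y, (cD P m ω κ).G.Adj (Sum.inl x) y → (cD P m ω κ).chi s(Sum.inl x, y) ≠ c
  · exact sat_a ω κ hO hm hω x0 hβ hN' x t ht hna hc
  · push Not at hc
    obtain ⟨y, hy, hyc⟩ := hc
    have hy2 := hodd x y hy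
    rcases t with p | (_ | X)
    · have h1 := sat_a ω κ hO hm hω x0 hβ hN' p (Sum.inl x) (Ne.symm ht)
        (fun h => hna h.symm) (c := c) ?_
      · rw [Sym2.eq_swap]
        exact h1
      · intro y' hy' h
        have h2 := hodd p y' hy'
        have h3 := (cD P m ω κ).idx_inj (e := s(Sum.inl x, y)) (e' := s(Sum.inl p, y')) (by omega)
        rcases Sym2.eq_iff.1 h3 with ⟨h4, _⟩ | ⟨_, h4⟩
        · exact ht h4.symm
        · rw [h4] at hy
          exact hna hy
    · exact absurd (Or.inl trivial) hna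
    · exact sat_b ω κ hO hm hω hrv hrn hrβ hN0 hN x X (by omega)

/-- the upper bound for balanced patterns -/
theorem upperC (hO : P.Ok) (hBal : P.Bal) :
    ∃ C : ℕ, ∀ n, 2 * rsat P.H n ≤ (P.a + 1) * n + C := by
  classical
  -- the vertex `r`
  obtain ⟨r, hr1, hr2⟩ := Finset.exists_max_image
    (Finset.univ.filter (fun x => x ≠ P.v ∧ (nl P.H x).card ≤ (nl P.H P.w).card))
    (fun x => (nb P.H x).card)
    ⟨P.w, Finset.mem_filter.2 ⟨Finset.mem_univ _, hO.adj_wv.ne, le_rfl⟩⟩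
  rw [Finset.mem_filter] at hr1
  obtain ⟨_, hrv, hrβ⟩ := hr1
  have hdw : P.a + 1 ≤ (nb P.H P.w).card := by
    have h1 := hO.nlw
    rcases hO.deg P.w with h2 | h2
    · omega
    · exact h2
  have hrw : (nb P.H P.w).card ≤ (nb P.H r).card :=
    hr2 P.w (Finset.mem_filter.2 ⟨Finset.mem_univ _, hO.adj_wv.ne, le_rfl⟩)
  have hmax : ∀ x, (nl P.H x).card ≤ (nl P.H P.w).card →
      (nb P.H x).card ≤ (nb P.H r).card := by
    intro x hx
    by_cases hxv : x = P.v
    · rw [hxv, hO.cv]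
      omega
    · exact hr2 x (Finset.mem_filter.2 ⟨Finset.mem_univ _, hxv, hx⟩)
  have ha := hO.ha
  have hrn : 1 < (nb P.H r).card := by omega
  have hb := hBal r hrβ
  have hE := card_ed_at2 P.H hO.adj_wv
  rw [hO.cv] at hE
  obtain ⟨N, hN⟩ : ∃ N, N + (nb P.H r).card + 1 = (ed P.H).card :=
    ⟨(ed P.H).card - (nb P.H r).card - 1, by omega⟩
  have hN' : ((ed P.H).filter (fun e => P.w ∉ e ∧ P.v ∉ e)).card + 1 ≤ N := by omega
  have hN0 : 0 < N := by omega
  have hvnl : P.v ∈ nl P.H P.w := mem_nl.2 ⟨hO.adj_wv, hO.cNlv⟩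
  have hβ0 : 0 < (nl P.H P.w).card := Finset.card_pos.2 ⟨_, hvnl⟩
  have i1 : Nonempty (Fin N) := ⟨⟨0, hN0⟩⟩
  have i2 : Nonempty (Fin (nl P.H P.w).card) := ⟨⟨0, hβ0⟩⟩
  obtain ⟨s0, hs0⟩ := exists_blob (Fin N) (Fin (nl P.H P.w).card) k
  refine upper_of_good (K := 1) (s0 := s0) (m0 := k + 3) (by omega)
    (fun s => 2 * Nat.card (Sym2 (Option (Fin s)))) ?_
  intro s m hs hm
  obtain ⟨ω, κ, hsur, hω⟩ := hs0 s hs
  obtain ⟨x0, _⟩ := hsur ⟨0, hβ0⟩
  have hfree := cfree (m := m) ω κ hO hmax hN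
  have hsat : Sat P.H (cD P m ω κ).G (cD P m ω κ).chi := by
    refine ⟨hfree, ?_⟩
    intro x y hxy hadj c
    rcases x with x | x
    · exact sat_c hO hm hω x0 hrv hrn hrβ hN0 hN le_rfl hN' x y (Ne.symm hxy) hadj c
    · rcases y with y | y
      · have h1 := sat_c hO hm hω x0 hrv hrn hrβ hN0 hN le_rfl hN' y (Sum.inr x) hxy
          (fun h => hadj h.symm) c
        rw [Sym2.eq_swap]
        exact h1
      · exfalso
        apply hadj
        rcases x with _ | x <;> rcases y with _ | y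
        · exact absurd rfl hxy
        · exact Or.inr ⟨_, rfl⟩
        · exact Or.inr ⟨_, rfl⟩
        · refine Or.inr ⟨_, ?_, rfl⟩
          rintro rfl
          exact hxy rfl
  have hcard := wind_card (cD P m ω κ).G none (by
      intro x y h
      rcases cNbrInl ω κ h with h1 | ⟨t, _, h1⟩
      · exact absurd h1 (by simp)
      · rw [Sum.inl.inj h1]) (by
      intro x c h
      rcases cNbrInl ω κ h with h1 | ⟨t, _, h1⟩
      · exact Sum.inr.inj h1
      · exact absurd h1 (by simp))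
  refine ⟨_, hcard, ?_⟩
  have h1 := hsat.good
  rw [Fintype.card_sum, Fintype.card_prod, Fintype.card_fin, Fintype.card_fin,
    Fintype.card_option, Fintype.card_fin] at h1
  rw [show P.a * m + (1 + s) = m * P.a + (s + 1) by ring]
  exact h1

end Pat

end Pool.Agent.Helper29.ML
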