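import Pool.Agent.Helper29.ML.Amp

/-! Rainbow saturation: existence of the limit for cheap graphs (MP_e4665f_co). -/

set_option autoImplicit false

namespace Pool.Agent.Helper29.ML

open SimpleGraph Pool.Agent.Helper28.RS Pool.Agent.Helper3.RT Filter

variable {k : ℕ} {H : SimpleGraph (Fin k)}

/-- `rsat n` can be amplified -/
def Am (H : SimpleGraph (Fin k)) (n : ℕ) : Prop :=
  ∃ K : ℕ, ∀ N : ℕ, n * rsat H N ≤ rsat H n * N + K

theorem am_of_uni (hk : 3 ≤ k) (hH : H.Connected) {l q : Fin k} (hql : H.Adj q l)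
    (hl : ∀ x, H.Adj l x → x = q) {n : ℕ} (hn : 0 < n) (h : UG H n (rsat H n)) : Am H n := by
  obtain ⟨s0, hs0⟩ := exists_complete hk hH hql hl
  refine ⟨n * ((s0 + n) * (s0 + n)) + n * ∑ i ∈ Finset.range s0, rsat H i, fun N => ?_⟩
  by_cases hN : N < s0
  · have h1 : rsat H N ≤ ∑ i ∈ Finset.range s0, rsat H i :=
      Finset.single_le_sum (f := fun i => rsat H i) (fun _ _ => Nat.zero_le _)
        (Finset.mem_range.2 hN)
    have h2 := Nat.mul_le_mul_left n h1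
    omega
  · obtain ⟨t, s, hts, hs1, hs2⟩ : ∃ t s, N = t * n + s ∧ s0 ≤ s ∧ s ≤ s0 + n := by
      refine ⟨(N - s0) / n, s0 + (N - s0) % n, ?_, by omega, ?_⟩
      · have h1 := Nat.div_add_mod (N - s0) n
        have h2 : (N - s0) / n * n = n * ((N - s0) / n) := mul_comm _ _
        omega
      · have h1 := Nat.mod_lt (N - s0) hn
        omega
    have h1 := (h.mul (by omega) hH (hs0 s hs1) t).good.rsat_le
    rw [← hts] at h1
    have h2 : s * s ≤ (s0 + n) * (s0 + n) := Nat.mul_le_mul hs2 hs2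
    calc n * rsat H N ≤ n * (t * rsat H n + (s0 + n) * (s0 + n)) :=
          Nat.mul_le_mul_left _ (by omega)
      _ = rsat H n * (t * n) + n * ((s0 + n) * (s0 + n)) := by ring
      _ ≤ rsat H n * N + n * ((s0 + n) * (s0 + n)) := by
          refine Nat.add_le_add_right (Nat.mul_le_mul_left _ ?_) _
          omega
      _ ≤ _ := by omega

/-- the dichotomy -/
theorem dich {a : ℕ} (ha : 1 ≤ a) (hk : 3 ≤ k) (hH : H.Connected)
    (hdeg : ∀ x, (nb H x).card = 1 ∨ a + 1 ≤ (nb H x).card) {l q : Fin k} (hql : H.Adj q l)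
    (hl : ∀ x, H.Adj l x → x = q) {n : ℕ} (hn : 0 < n) :
    Am H n ∨ ∃ p : ℕ, p * (p - 1) ≤ 2 * rsat H n ∧
      (a + 1) * n ≤ 2 * rsat H n + (a + 1) * (p + 1) := by
  classical
  obtain ⟨m, hm⟩ := exists_good (H := H) ⟨s(q, l), hql⟩ n
  obtain ⟨G, χ, h1, h2⟩ := rsat_mem hm
  by_cases hU : ∀ y, Uni H G χ y
  · exact Or.inl (am_of_uni hk hH hql hl hn ⟨G, χ, h1.le, h2, hU⟩)
  · push Not at hU
    obtain ⟨z, hz⟩ := hU
    right
    obtain ⟨p, hp1, hp2⟩ := count ha hk hH hdeg h2 hz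
    rw [Fintype.card_fin, h1] at hp2
    rw [h1] at hp1
    exact ⟨p, hp1, hp2⟩

theorem many {A ε : ℝ} (hA : 1 ≤ A) (hε : 0 < ε) : ∃ N1 : ℕ, ∀ n : ℕ, N1 ≤ n → ∀ r p : ℕ,
    (p : ℝ) * (p - 1) ≤ 2 * r → A * n ≤ 2 * r + A * (p + 1) → (A / 2 - ε) * n ≤ r := by
  obtain ⟨N1, hN1⟩ := exists_nat_gt (A * (A + 3) * A / (2 * ε * ε))
  refine ⟨N1 + 1, fun n hn r p h1 h2 => ?_⟩
  by_contra hcon
  push Not at hcon
  have hn1 : (1 : ℝ) ≤ n := by
    have : 1 ≤ n := by omega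
    exact_mod_cast this
  have hnN : (N1 : ℝ) ≤ n := by
    have : N1 ≤ n := by omega
    exact_mod_cast this
  have hA0 : 0 < A := by linarith
  have h3 : 2 * ε * n < A * (p + 1) := by nlinarith
  have h4 : 2 * (r : ℝ) < A * n := by nlinarith
  have h5 : ((p : ℝ) + 1) * (p + 1) / 2 < (A + 3) * n := by nlinarith [sq_nonneg ((p : ℝ) - 2)]
  have hp1 : (0 : ℝ) < p + 1 := by positivity
  have h6 : ((p : ℝ) + 1) * (2 * ε * n) < 2 * A * ((A + 3) * n) := by nlinarith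
  have h7 : ((p : ℝ) + 1) * ε < A * (A + 3) := by
    by_contra h
    push Not at h
    nlinarith
  have h8 : 2 * ε * n * ε < A * (A * (A + 3)) := by nlinarith
  rw [div_lt_iff₀ (by positivity)] at hN1
  have h9 : (N1 : ℝ) * (2 * ε * ε) ≤ n * (2 * ε * ε) :=
    mul_le_mul_of_nonneg_right hnN (by positivity)
  linarith

theorem limit_of_cheap {a : ℕ} (ha : 1 ≤ a) (hk : 3 ≤ k) (hH : H.Connected)
    (hdeg : ∀ x, (nb H x).card = 1 ∨ a + 1 ≤ (nb H x).card) {l q : Fin k} (hql : H.Adj q l)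
    (hl : ∀ x, H.Adj l x → x = q) {ε : ℝ} (hε : 0 < ε)
    (hlow : ∃ᶠ n : ℕ in atTop, (rsat H n : ℝ) ≤ (((a : ℝ) + 1) / 2 - ε) * n) :
    ∃ c : ℝ, c ≤ ((a : ℝ) + 1) / 2 - ε ∧
      Tendsto (fun n : ℕ => (rsat H n : ℝ) / (n : ℝ)) atTop (nhds c) := by
  classical
  have hA : (1 : ℝ) ≤ (a : ℝ) + 1 := by
    have : (0 : ℝ) ≤ a := Nat.cast_nonneg a
    linarith
  -- non-amplifiable numbers
  have hna : ∀ δ : ℝ, 0 < δ → ∃ N1 : ℕ, ∀ n : ℕ, N1 ≤ n → 0 < n → ¬ Am H n →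
      (((a : ℝ) + 1) / 2 - δ) * n ≤ rsat H n := by
    intro δ hδ
    obtain ⟨N1, hN1⟩ := many hA hδ
    refine ⟨N1, fun n hn hn0 ham => ?_⟩
    rcases dich ha hk hH hdeg hql hl hn0 with h | ⟨p, hp1, hp2⟩
    · exact absurd h ham
    · refine hN1 n hn (rsat H n) p ?_ ?_
      · rcases Nat.eq_zero_or_pos p with h0 | h0
        · rw [h0]
          simp
        · have h1 : ((p * (p - 1) : ℕ) : ℝ) ≤ ((2 * rsat H n : ℕ) : ℝ) := by exact_mod_cast hp1
          push_cast [Nat.cast_sub (show 1 ≤ p by omega)] at h1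
          exact h1
      · exact_mod_cast hp2
  let S : Set ℝ := {x | ∃ n : ℕ, 0 < n ∧ Am H n ∧ x = (rsat H n : ℝ) / n}
  have hS0 : ∀ x ∈ S, 0 ≤ x := by
    rintro x ⟨n, _, _, rfl⟩
    positivity
  have hbdd : BddBelow S := ⟨0, hS0⟩
  obtain ⟨n1, hn1, ham1, hr1⟩ : ∃ n : ℕ, 0 < n ∧ Am H n ∧
      (rsat H n : ℝ) ≤ (((a : ℝ) + 1) / 2 - ε) * n := by
    obtain ⟨N1, hN1⟩ := hna (ε / 2) (by linarith)
    obtain ⟨n, hn, hr⟩ := (frequently_atTop.1 hlow) (N1 + 1)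
    have hn0 : (0 : ℝ) < n := by
      have : 0 < n := by omega
      exact_mod_cast this
    refine ⟨n, by omega, ?_, hr⟩
    by_contra ham
    have h1 := hN1 n (by omega) (by omega) ham
    nlinarith
  have hmem1 : (rsat H n1 : ℝ) / n1 ∈ S := ⟨n1, hn1, ham1, rfl⟩
  have hle1 : (rsat H n1 : ℝ) / n1 ≤ ((a : ℝ) + 1) / 2 - ε := by
    rw [div_le_iff₀ (by exact_mod_cast hn1)]
    exact hr1
  have hcle : sInf S ≤ ((a : ℝ) + 1) / 2 - ε := (csInf_le hbdd hmem1).trans hle1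
  refine ⟨sInf S, hcle, ?_⟩
  rw [Metric.tendsto_atTop]
  intro δ hδ
  obtain ⟨x, ⟨n2, hn2, ⟨K, hK⟩, rfl⟩, hx⟩ : ∃ x ∈ S, x < sInf S + δ / 2 :=
    exists_lt_of_csInf_lt ⟨_, hmem1⟩ (by linarith)
  obtain ⟨N1, hN1⟩ := hna ε hε
  obtain ⟨N2, hN2⟩ := exists_nat_gt ((K : ℝ) / (n2 * (δ / 2)))
  refine ⟨N1 + N2 + 1, fun N hN => ?_⟩
  have hN0 : (0 : ℝ) < N := by
    have : 0 < N := by omega
    exact_mod_cast this
  have hn20 : (0 : ℝ) < n2 := by exact_mod_cast hn2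
  have hlo : sInf S ≤ (rsat H N : ℝ) / N := by
    by_cases ham : Am H N
    · exact csInf_le hbdd ⟨N, by omega, ham, rfl⟩
    · have h1 := hN1 N (by omega) (by omega) ham
      rw [le_div_iff₀ hN0]
      nlinarith
  have hup : (rsat H N : ℝ) / N < sInf S + δ := by
    have h1 : (n2 : ℝ) * rsat H N ≤ rsat H n2 * N + K := by exact_mod_cast hK N
    have h2 : (K : ℝ) < N * (n2 * (δ / 2)) := by
      rw [div_lt_iff₀ (by positivity)] at hN2
      have h3 : (N2 : ℝ) ≤ N := by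
        have : N2 ≤ N := by omega
        exact_mod_cast this
      have h4 : (N2 : ℝ) * (n2 * (δ / 2)) ≤ N * (n2 * (δ / 2)) :=
        mul_le_mul_of_nonneg_right h3 (by positivity)
      linarith
    have h3 : (rsat H n2 : ℝ) < (sInf S + δ / 2) * n2 := by
      rwa [div_lt_iff₀ hn20] at hx
    rw [div_lt_iff₀ hN0]
    have h4 : (n2 : ℝ) * rsat H N < n2 * ((sInf S + δ) * N) := by nlinarith
    exact lt_of_mul_lt_mul_left h4 hn20.le
  rw [Real.dist_eq, abs_lt]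
  constructor <;> linarith

/-- an upper bound `(a + 1) n / 2 + O(1)` implies that the limit exists -/
theorem limit_of_upper {a : ℕ} (ha : 1 ≤ a) (hk : 3 ≤ k) (hH : H.Connected)
    (hdeg : ∀ x, (nb H x).card = 1 ∨ a + 1 ≤ (nb H x).card) {l q : Fin k} (hql : H.Adj q l)
    (hl : ∀ x, H.Adj l x → x = q) {C : ℕ} (hC : ∀ n, 2 * rsat H n ≤ (a + 1) * n + C) :
    ∃ c : ℝ, c ≤ ((a : ℝ) + 1) / 2 ∧
      Tendsto (fun n : ℕ => (rsat H n : ℝ) / (n : ℝ)) atTop (nhds c) := by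
  by_cases hlow : ∃ ε : ℝ, 0 < ε ∧
      ∃ᶠ n : ℕ in atTop, (rsat H n : ℝ) ≤ (((a : ℝ) + 1) / 2 - ε) * n
  · obtain ⟨ε, hε, hlow⟩ := hlow
    obtain ⟨c, hc, h⟩ := limit_of_cheap ha hk hH hdeg hql hl hε hlow
    exact ⟨c, by linarith, h⟩
  · refine ⟨((a : ℝ) + 1) / 2, le_rfl, ?_⟩
    push Not at hlow
    rw [Metric.tendsto_atTop]
    intro ε hε
    have h1 := hlow (ε / 2) (by linarith)
    rw [eventually_atTop] at h1
    obtain ⟨N1, hN1⟩ := h1
    obtain ⟨N2, hN2⟩ := exists_nat_gt ((C : ℝ) / ε)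
    refine ⟨N1 + N2 + 1, fun n hn => ?_⟩
    have hn0 : (0 : ℝ) < n := by
      have : 0 < n := by omega
      exact_mod_cast this
    have h2 := hN1 n (by omega)
    have h3 : 2 * (rsat H n : ℝ) ≤ (a + 1) * n + C := by exact_mod_cast hC n
    have h4 : (C : ℝ) < ε * n := by
      rw [div_lt_iff₀ hε] at hN2
      have h5 : (N2 : ℝ) ≤ n := by
        have : N2 ≤ n := by omega
        exact_mod_cast this
      nlinarith
    rw [Real.dist_eq, abs_lt]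
    constructor
    · rw [lt_sub_iff_add_lt, lt_div_iff₀ hn0]
      nlinarith
    · rw [sub_lt_iff_lt_add, div_lt_iff₀ hn0]
      nlinarith

end Pool.Agent.Helper29.ML
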