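import Pool.Agent.Helper3.RT.Bound
import Pool.Agent.Helper29.ML.B5
import Pool.Agent.Helper29.ML.C4
import Pool.Agent.Helper29.ML.Lim

/-! MP_e4665f_co, Q1: the limit exists if the rainbow saturation number is small compared with the
minimum degree of the non-leaves, and for connected graphs with a pendant star of minimum degree. -/

set_option autoImplicit false

namespace Pool.Agent.Helper29.ML.PendMain

/-- The rainbow saturation number `rsat(n, H)`, exactly as in the frozen statement: the least number
of edges of an edge-coloured graph `(G, χ)` on `n` vertices without rainbow copy of `H` such that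
adding any missing edge in any colour creates a rainbow copy of `H`. -/
noncomputable def rsat {k : ℕ} (H : SimpleGraph (Fin k)) (n : ℕ) : ℕ :=
  sInf {m : ℕ | ∃ (G : SimpleGraph (Fin n)) (χ : Sym2 (Fin n) → ℕ),
    G.edgeSet.ncard = m ∧
    (¬ ∃ f : Fin k → Fin n, Function.Injective f ∧
        (∀ u v, H.Adj u v → G.Adj (f u) (f v)) ∧
        ∀ e₁ ∈ H.edgeSet, ∀ e₂ ∈ H.edgeSet,
          χ (e₁.map f) = χ (e₂.map f) → e₁ = e₂) ∧
    ∀ x y : Fin n, x ≠ y → ¬ G.Adj x y → ∀ col : ℕ,
      ∃ f : Fin k → Fin n, Function.Injective f ∧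
        (∀ u v, H.Adj u v →
          (G ⊔ SimpleGraph.fromEdgeSet {s(x, y)}).Adj (f u) (f v)) ∧
        ∀ e₁ ∈ H.edgeSet, ∀ e₂ ∈ H.edgeSet,
          Function.update χ s(x, y) col (e₁.map f) =
            Function.update χ s(x, y) col (e₂.map f) → e₁ = e₂}

/-- the degree of a vertex -/
noncomputable def deg {k : ℕ} (H : SimpleGraph (Fin k)) (x : Fin k) : ℕ :=
  (H.neighborSet x).ncard

/-- the number of leaves (vertices of degree one) adjacent to a vertex -/
noncomputable def leaves {k : ℕ} (H : SimpleGraph (Fin k)) (x : Fin k) : ℕ :=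
  {y : Fin k | H.Adj x y ∧ deg H y = 1}.ncard

/-- the number of vertices adjacent to a vertex which are not leaves -/
noncomputable def inner {k : ℕ} (H : SimpleGraph (Fin k)) (x : Fin k) : ℕ :=
  {y : Fin k | H.Adj x y ∧ deg H y ≠ 1}.ncard

/-- Let `H` be a connected graph with a leaf and at least three vertices in which all vertices which
are not leaves have degree at least `δ`.
(1) If `liminf rsat(n, H) / n < δ / 2`, then `rsat(n, H) / n` converges.
(2) Let `v` be a vertex of degree `δ` all of whose neighbours except `w` are leaves, `w` not a leaf.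
Assume that (a) every vertex `x` with at most as many non-leaf neighbours as `w` has degree
`deg x ≤ deg w + δ - 3` (so `δ ≥ 3`), or (b) every edge at `w` is a bridge and there is no path `w u b` such that `b` is
not a leaf, all neighbours of `b` except `u` are leaves, and `u` is adjacent to at least
`leaves w + deg b - 1` leaves. Then `rsat(n, H) ≤ δ n / 2 + O(1)`, and `rsat(n, H) / n` converges. -/
theorem result (k : ℕ) (hk : 3 ≤ k) (H : SimpleGraph (Fin k)) (hconn : H.Connected) (δ : ℕ)
    (hδ : 2 ≤ δ) (hdeg : ∀ x, deg H x = 1 ∨ δ ≤ deg H x) (hleaf : ∃ x, deg H x = 1) :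
    ((∃ ε : ℝ, 0 < ε ∧ ∃ᶠ n : ℕ in Filter.atTop, (rsat H n : ℝ) ≤ ((δ : ℝ) / 2 - ε) * n) →
      ∃ c : ℝ, c < (δ : ℝ) / 2 ∧
        Filter.Tendsto (fun n : ℕ => (rsat H n : ℝ) / (n : ℝ)) Filter.atTop (nhds c)) ∧
    (∀ w v, H.Adj w v → deg H w ≠ 1 → deg H v = δ →
      (∀ x, H.Adj v x → x ≠ w → deg H x = 1) →
      ((∀ x, inner H x ≤ inner H w → deg H x + 3 ≤ deg H w + δ) ∨
        ((∀ y, H.Adj w y → H.IsBridge s(w, y)) ∧
          ∀ u b, H.Adj w u → H.Adj u b → b ≠ w → deg H b ≠ 1 →
            (∀ x, H.Adj b x → x ≠ u → deg H x = 1) →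
            leaves H u < leaves H w + (deg H b - 1))) →
      (∃ C : ℕ, ∀ n : ℕ, 2 * rsat H n ≤ δ * n + C) ∧
      ∃ c : ℝ, c ≤ (δ : ℝ) / 2 ∧
        Filter.Tendsto (fun n : ℕ => (rsat H n : ℝ) / (n : ℝ)) Filter.atTop (nhds c)) := by
  classical
  have hr : ∀ n, rsat H n = Helper28.RS.rsat H n := fun n => rfl
  simp only [hr]
  have hd : ∀ x, deg H x = (Helper3.RT.nb H x).card := by
    intro x
    unfold deg
    rw [← Set.ncard_coe_finset]
    congr 1
    ext y
    rw [Finset.mem_coe, Helper3.RT.mem_nb]
    rfl
  have hpos : ∀ x y, H.Adj x y → 0 < (Helper3.RT.nb H x).card := by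
    intro x y h
    exact Finset.card_pos.2 ⟨y, Helper3.RT.mem_nb.2 h⟩
  have hlea : ∀ x, leaves H x = (Helper3.RT.lf H x).card := by
    intro x
    unfold leaves
    rw [← Set.ncard_coe_finset]
    congr 1
    ext y
    rw [Finset.mem_coe, Helper3.RT.mem_lf, Set.mem_ofPred_eq, hd]
  have hinn : ∀ x, inner H x = (Helper29.ML.nl H x).card := by
    intro x
    unfold inner
    rw [← Set.ncard_coe_finset]
    congr 1
    ext y
    rw [Finset.mem_coe, Helper29.ML.mem_nl, Set.mem_ofPred_eq, hd]
    constructor
    · rintro ⟨h1, h2⟩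
      have h3 := hpos y x h1.symm
      exact ⟨h1, by omega⟩
    · rintro ⟨h1, h2⟩
      exact ⟨h1, by omega⟩
  obtain ⟨a, rfl⟩ : ∃ a, δ = a + 1 := ⟨δ - 1, by omega⟩
  have hdeg' : ∀ x, (Helper3.RT.nb H x).card = 1 ∨ a + 1 ≤ (Helper3.RT.nb H x).card := by
    intro x
    rw [← hd x]
    exact hdeg x
  obtain ⟨l0, hl0⟩ := hleaf
  rw [hd] at hl0
  obtain ⟨q0, hq0⟩ : ∃ q, H.Adj l0 q := by
    obtain ⟨q, hq⟩ := Finset.card_pos.1 (by omega : 0 < (Helper3.RT.nb H l0).card)
    exact ⟨q, Helper3.RT.mem_nb.1 hq⟩
  have hl0' : ∀ x, H.Adj l0 x → x = q0 := fun x hx =>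
    Helper3.RT.Fold.leaf_unique (by omega) hx hq0
  have hcast : (((a + 1 : ℕ) : ℝ)) = (a : ℝ) + 1 := by push_cast; ring
  rw [hcast]
  refine ⟨?_, ?_⟩
  · rintro ⟨ε, hε, hlow⟩
    obtain ⟨c, hc, h⟩ := Helper29.ML.limit_of_cheap (by omega) hk hconn hdeg' hq0.symm hl0' hε hlow
    exact ⟨c, by linarith, h⟩
  · intro w v hwv hw hv hvx hcase
    obtain ⟨l, hvl, hlw⟩ : ∃ l, H.Adj v l ∧ l ≠ w := by
      by_contra hcon
      push Not at hcon
      have h1 : Helper3.RT.nb H v ⊆ {w} := by
        intro x hx
        rw [Finset.mem_singleton]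
        exact hcon x (Helper3.RT.mem_nb.1 hx)
      have h2 := Finset.card_le_card h1
      rw [Finset.card_singleton, ← hd, hv] at h2
      omega
    by_cases ha1 : a = 1
    · subst ha1
      rcases hcase with hbal | ⟨hbr, hN⟩
      · have h1 := hbal w le_rfl
        omega
      · let P : Helper3.RT.Pat k := ⟨H, w, v, l⟩
        have hl1 : (Helper3.RT.nb H l).card = 1 := by
          have h2 := hvx l hvl hlw
          rw [hd] at h2
          exact h2
        have hO : P.Ok :=
          { adj_wv := hwv
            adj_vl := hvl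
            nv := by
              intro x hx
              by_contra hcon
              push Not at hcon
              have h1 : ({w, l, x} : Finset (Fin k)) ⊆ Helper3.RT.nb H v := by
                intro t ht
                rw [Finset.mem_insert, Finset.mem_insert, Finset.mem_singleton] at ht
                rw [Helper3.RT.mem_nb]
                rcases ht with rfl | rfl | rfl
                · exact hwv.symm
                · exact hvl
                · exact hx
              have h2 := Finset.card_le_card h1
              rw [Finset.card_eq_three.2 ⟨w, l, x, Ne.symm hlw, Ne.symm hcon.1,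
                Ne.symm hcon.2, rfl⟩] at h2
              rw [hd] at hv
              omega
            nl := by
              intro x hx
              exact Helper3.RT.Fold.leaf_unique (by rw [hl1]; decide) hx hvl.symm
            wl := Ne.symm hlw
            nlw := by
              have h1 := hpos w v hwv
              rw [hd] at hw
              show 1 < (Helper3.RT.nb H w).card
              omega
            conn := hconn }
        have hB : P.Bri := by
          intro y hy
          have h1 := (SimpleGraph.isBridge_iff.1 (hbr y hy))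
          intro h2
          apply h1
          refine h2.mono ?_
          intro x z hxz
          rw [SimpleGraph.sdiff_adj, SimpleGraph.fromEdgeSet_adj] at hxz
          rw [SimpleGraph.deleteEdges_adj]
          exact ⟨hxz.1, fun h3 => hxz.2 ⟨h3, hxz.1.ne⟩⟩
        obtain ⟨C, hC⟩ := Helper3.RT.rsat_le_add H (K0 := Fintype.card (Helper3.RT.Core k))
          (K1 := Fintype.card (Sym2 (Helper3.RT.Core k))) (m0 := k + 3) (by
            intro m hm
            refine P.good hO hm (P.free hO hB ?_)
            intro u b h1 h2 h3 h4 h5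
            have h7 : 1 < (Helper3.RT.nb H b).card := h4
            have h6 := hN u b h1 h2 h3 (by rw [hd]; omega) (by
              intro x hx hxu
              rw [hd]
              exact h5 x hx hxu)
            rw [hlea, hlea, hd] at h6
            exact h6)
        have hC2 : ∀ n, 2 * Helper28.RS.rsat H n ≤ (1 + 1) * n + 2 * C := by
          intro n
          have := hC n
          omega
        exact ⟨⟨2 * C, hC2⟩,
          Helper29.ML.limit_of_upper le_rfl hk hconn hdeg' hq0.symm hl0' hC2⟩
    have ha : 2 ≤ a := by omega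
    let P : Helper29.ML.Pat k := ⟨H, w, v, l, a⟩
    have hO : P.Ok :=
      { conn := hconn
        adj_wv := hwv
        adj_vl := hvl
        nv := by
          intro x hx
          by_cases h1 : x = w
          · exact Or.inl h1
          · right
            have h2 := hvx x hx h1
            rw [hd] at h2
            exact h2
        cv := by
          rw [hd] at hv
          exact hv
        nlw := by
          have h1 := hpos w v hwv
          rw [hd] at hw
          show 1 < (Helper3.RT.nb H w).card
          omega
        cl := by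
          have h2 := hvx l hvl hlw
          rw [hd] at h2
          exact h2
        ha := ha
        deg := hdeg' }
    have hup : ∃ C : ℕ, ∀ n, 2 * Helper28.RS.rsat H n ≤ (a + 1) * n + C := by
      rcases hcase with hbal | ⟨hbr, hN⟩
      · refine Helper29.ML.Pat.upperC hO ?_
        intro x hx
        have h1 := hbal x (by
          rw [hinn, hinn]
          exact hx)
        rw [hd, hd] at h1
        show (Helper3.RT.nb H x).card + 2 ≤ (Helper3.RT.nb H w).card + a
        omega
      · refine Helper29.ML.Pat.upper hO ?_ ?_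
        · intro y hy
          have h1 := (SimpleGraph.isBridge_iff.1 (hbr y hy))
          intro h2
          apply h1
          refine h2.mono ?_
          intro x z hxz
          rw [SimpleGraph.sdiff_adj, SimpleGraph.fromEdgeSet_adj] at hxz
          rw [SimpleGraph.deleteEdges_adj]
          exact ⟨hxz.1, fun h3 => hxz.2 ⟨h3, hxz.1.ne⟩⟩
        · intro u b h1 h2 h3 h4 h5
          have h7 : 1 < (Helper3.RT.nb H b).card := h4
          have h6 := hN u b h1 h2 h3 (by rw [hd]; omega) (by
            intro x hx hxu
            rw [hd]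
            exact h5 x hx hxu)
          rw [hlea, hlea, hd] at h6
          exact h6
    obtain ⟨C, hC⟩ := hup
    exact ⟨⟨C, hC⟩, Helper29.ML.limit_of_upper (by omega) hk hconn hdeg' hq0.symm hl0' hC⟩

end Pool.Agent.Helper29.ML.PendMain
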